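import Mathlib

/-!
# The normalised arc length measure on the unit circle; analytic approximation
-/

open MeasureTheory Set Filter Topology

namespace H93.PR

/-- normalised arc length on the unit circle, as a measure on `ℂ` -/
noncomputable def σ : Measure ℂ :=
  ((ENNReal.ofReal (2 * Real.pi))⁻¹ • volume.restrict (Ioc 0 (2 * Real.pi))).map (circleMap 0 1)

lemma two_pi_pos' : (0:ℝ) < 2 * Real.pi := by positivity

instance : IsProbabilityMeasure σ := by
  unfold σ
  have hm : Measurable (circleMap 0 1) := (continuous_circleMap 0 1).measurable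
  haveI : IsProbabilityMeasure
      ((ENNReal.ofReal (2 * Real.pi))⁻¹ • volume.restrict (Ioc 0 (2 * Real.pi))) := by
    constructor
    rw [Measure.smul_apply, Measure.restrict_apply_univ, Real.volume_Ioc, sub_zero, smul_eq_mul]
    exact ENNReal.inv_mul_cancel (by simp [Real.pi_pos]) ENNReal.ofReal_ne_top
  exact Measure.isProbabilityMeasure_map hm.aemeasurable

lemma av_eq {E : Type*} [NormedAddCommGroup E] [NormedSpace ℝ E] {g : ℂ → E}
    (hg : AEStronglyMeasurable g σ) :
    Real.circleAverage g 0 1 = ∫ z, g z ∂σ := by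
  have hm : Measurable (circleMap 0 1) := (continuous_circleMap 0 1).measurable
  unfold σ at hg ⊢
  rw [integral_map hm.aemeasurable hg, integral_smul_measure, Real.circleAverage_def,
    intervalIntegral.integral_of_le two_pi_pos'.le]
  congr 1
  rw [ENNReal.toReal_inv, ENNReal.toReal_ofReal two_pi_pos'.le]

lemma ae_norm : ∀ᵐ z ∂σ, ‖z‖ = 1 := by
  have hm : Measurable (circleMap 0 1) := (continuous_circleMap 0 1).measurable
  unfold σ
  rw [ae_map_iff hm.aemeasurable (measurableSet_eq_fun measurable_norm measurable_const)]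
  refine Eventually.of_forall fun θ => ?_
  simp

lemma integrable_cont {E : Type*} [NormedAddCommGroup E] {g : ℂ → E}
    (hg : Continuous g) : Integrable g σ := by
  have hm : Continuous (circleMap 0 1) := continuous_circleMap 0 1
  unfold σ
  rw [integrable_map_measure hg.aestronglyMeasurable hm.measurable.aemeasurable]
  refine Integrable.smul_measure ?_ (by simp [Real.pi_pos])
  exact ((hg.comp hm).integrableOn_Icc).mono_set Ioc_subset_Icc_self

lemma mean_entire {E : Type*} [NormedAddCommGroup E] [NormedSpace ℂ E] [CompleteSpace E]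
    {G : ℂ → E} (hG : Differentiable ℂ G) : ∫ z, G z ∂σ = G 0 := by
  rw [← av_eq hG.continuous.aestronglyMeasurable]
  exact DiffContOnCl.circleAverage (by simpa using hG.diffContOnCl)

/-- Approximation of a real continuous function on the circle by real parts of entire functions. -/
lemma approx_re {g : ℂ → ℝ} (hg : Continuous g) {τ : ℝ} (hτ : 0 < τ) :
    ∃ G : ℂ → ℂ, Differentiable ℂ G ∧ ∀ z, ‖z‖ = 1 → |(G z).re - g z| ≤ τ := by
  haveI : Fact ((0:ℝ) < 1) := ⟨one_pos⟩
  let f : C(UnitAddCircle, ℂ) := ⟨fun x => (g (AddCircle.toCircle x : ℂ) : ℂ), by fun_prop⟩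
  have hf : f ∈ (Submodule.span ℂ (range <| @fourier 1)).topologicalClosure := by
    rw [span_fourier_closure_eq_top]; trivial
  have hf' : f ∈ closure ((Submodule.span ℂ (range <| @fourier 1)) : Set C(UnitAddCircle, ℂ)) := hf
  obtain ⟨p, hp, hpf⟩ := Metric.mem_closure_iff.1 hf' τ hτ
  have key : ∀ c : ℂ, ∃ G : ℂ → ℂ, Differentiable ℂ G ∧ ∀ x : UnitAddCircle,
      (G (AddCircle.toCircle x : ℂ)).re = (c * p x).re := by
    refine Submodule.span_induction (p := fun p _ => ∀ c : ℂ, ∃ G : ℂ → ℂ, Differentiable ℂ G ∧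
      ∀ x : UnitAddCircle, (G (AddCircle.toCircle x : ℂ)).re = (c * p x).re) ?_ ?_ ?_ ?_ hp
    · rintro _ ⟨k, rfl⟩ c
      rcases Int.eq_nat_or_neg k with ⟨m, rfl | rfl⟩
      · refine ⟨fun z => c * z ^ m, by fun_prop, fun x => ?_⟩
        rw [fourier_apply]
        simp [AddCircle.toCircle_nsmul]
      · refine ⟨fun z => (starRingEnd ℂ c) * z ^ m, by fun_prop, fun x => ?_⟩
        rw [fourier_apply]
        have h1 : ((AddCircle.toCircle (-(m:ℤ) • x) : Circle) : ℂ)
            = starRingEnd ℂ ((AddCircle.toCircle x : ℂ) ^ m) := by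
          rw [map_pow, ← Circle.coe_inv_eq_conj, neg_smul, AddCircle.toCircle_neg]
          simp [AddCircle.toCircle_nsmul]
        rw [h1, ← Complex.conj_re (c * _), map_mul, Complex.conj_conj]
    · intro c
      exact ⟨fun _ => 0, by fun_prop, by simp⟩
    · intro a b _ _ ha hb c
      obtain ⟨Ga, ha, ha'⟩ := ha c
      obtain ⟨Gb, hb, hb'⟩ := hb c
      refine ⟨fun z => Ga z + Gb z, by fun_prop, fun x => ?_⟩
      rw [Complex.add_re, ha' x, hb' x, ContinuousMap.add_apply, mul_add, Complex.add_re]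
    · intro a p _ hp c
      obtain ⟨G, h, h'⟩ := hp (c * a)
      refine ⟨G, h, fun x => ?_⟩
      rw [h' x, ContinuousMap.smul_apply, smul_eq_mul, mul_assoc]
  obtain ⟨G, hG, hG'⟩ := key 1
  refine ⟨G, hG, fun z hz => ?_⟩
  obtain ⟨x, hx⟩ : ∃ x : UnitAddCircle, (AddCircle.toCircle x : ℂ) = z := by
    let zc : Circle := ⟨z, by simpa [Submonoid.unitSphere] using hz⟩
    refine ⟨(AddCircle.homeomorphCircle (T := 1) one_ne_zero).symm zc, ?_⟩
    have := (AddCircle.homeomorphCircle (T := 1) one_ne_zero).apply_symm_apply zc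
    rw [AddCircle.homeomorphCircle_apply] at this
    rw [this]
  have h2 : ‖f x - p x‖ < τ := by
    rw [← dist_eq_norm]
    exact lt_of_le_of_lt (ContinuousMap.dist_apply_le_dist x) hpf
  have h3 : |(f x - p x).re| < τ := lt_of_le_of_lt (Complex.abs_re_le_norm _) h2
  rw [← hx, hG' x, one_mul, abs_sub_comm]
  have h4 : (f x).re = g (AddCircle.toCircle x : ℂ) := by simp [f]
  rw [Complex.sub_re, h4] at h3
  exact h3.le

/-- Version for imaginary parts, with prescribed value at the centre. -/
lemma approx_im {g : ℂ → ℝ} (hg : Continuous g) {τ : ℝ} (hτ : 0 < τ) :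
    ∃ G : ℂ → ℂ, Differentiable ℂ G ∧ (∀ z, ‖z‖ = 1 → |(G z).im - g z| ≤ τ) ∧
      G 0 = (∫ z, g z ∂σ : ℝ) * Complex.I := by
  obtain ⟨H, hH, hHg⟩ := approx_re hg (half_pos hτ)
  have hHc : Continuous H := hH.continuous
  have h1 : |(H 0).re - ∫ z, g z ∂σ| ≤ τ / 2 := by
    have h2 : (H 0).re = ∫ z, (H z).re ∂σ := by
      rw [← mean_entire hH]
      exact (integral_re (integrable_cont hHc)).symm
    rw [h2, ← integral_sub (integrable_cont (by fun_prop)) (integrable_cont hg)]
    rw [← Real.norm_eq_abs]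
    refine (norm_integral_le_of_norm_le_const (C := τ / 2) ?_).trans (by simp)
    filter_upwards [ae_norm] with z hz
    simpa using hHg z hz
  refine ⟨fun z => Complex.I * H z + (((∫ z, g z ∂σ : ℝ) : ℂ) * Complex.I - Complex.I * H 0),
    by fun_prop, fun z hz => ?_, by ring⟩
  have h3 := hHg z hz
  have h4 : ((Complex.I * H z + (((∫ z, g z ∂σ : ℝ) : ℂ) * Complex.I - Complex.I * H 0)).im - g z)
      = ((H z).re - g z) - ((H 0).re - ∫ z, g z ∂σ) := by
    simp
    ring
  rw [h4]
  calc |((H z).re - g z) - ((H 0).re - ∫ z, g z ∂σ)| ≤ |(H z).re - g z| + |(H 0).re - ∫ z, g z ∂σ| :=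
        abs_sub _ _
    _ ≤ τ := by linarith

end H93.PR
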