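import Pool.Agent.H93.PR.QLem

/-!
# Approximate solutions of Bishop's equation in `L²`
-/

open MeasureTheory Set Filter Topology

namespace H93.PR

variable {N : ℕ}

/-- squared `L²` norm on the circle -/
noncomputable def nn (f : ℂ → Fin N → ℝ) : ℝ := ∫ t, ∑ j, f t j ^ 2 ∂σ

lemma nn_nonneg (f : ℂ → Fin N → ℝ) : 0 ≤ nn f :=
  integral_nonneg fun t => Finset.sum_nonneg fun j _ => sq_nonneg _

lemma int_sumsq {f : ℂ → Fin N → ℝ} (hf : Continuous f) :
    Integrable (fun t => ∑ j, f t j ^ 2) σ :=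
  integrable_cont (continuous_finsetSum _ fun j _ => ((continuous_apply j).comp hf).pow 2)

lemma nn_add {f g k : ℂ → Fin N → ℝ} (hf : Continuous f) (hg : Continuous g) (hk : Continuous k)
    (h : ∀ t j, k t j = f t j + g t j) : nn k ≤ 2 * nn f + 2 * nn g := by
  unfold nn
  rw [← integral_const_mul, ← integral_const_mul, ← integral_add ((int_sumsq hf).const_mul 2)
    ((int_sumsq hg).const_mul 2)]
  refine integral_mono (int_sumsq hk) (((int_sumsq hf).const_mul 2).add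
    ((int_sumsq hg).const_mul 2)) fun t => ?_
  simp only
  rw [Finset.mul_sum, Finset.mul_sum, ← Finset.sum_add_distrib]
  refine Finset.sum_le_sum fun j _ => ?_
  rw [h]
  nlinarith [sq_nonneg (f t j - g t j)]

lemma nn_sum {f : ℂ → Fin N → ℝ} (hf : Continuous f) : nn f = ∑ j, ∫ t, f t j ^ 2 ∂σ := by
  unfold nn
  exact integral_finsetSum _ fun j _ =>
    integrable_cont (((continuous_apply j).comp hf).pow 2)

lemma norm_sq_le_sum (x : Fin N → ℝ) : ‖x‖ ^ 2 ≤ ∑ j, x j ^ 2 := by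
  have h0 : 0 ≤ ∑ j, x j ^ 2 := Finset.sum_nonneg fun j _ => sq_nonneg _
  have h1 : ‖x‖ ≤ Real.sqrt (∑ j, x j ^ 2) := by
    rw [pi_norm_le_iff_of_nonneg (Real.sqrt_nonneg _)]
    intro j
    rw [Real.norm_eq_abs]
    refine Real.abs_le_sqrt ?_
    exact Finset.single_le_sum (f := fun j => x j ^ 2) (fun j _ => sq_nonneg _)
      (Finset.mem_univ j)
  calc ‖x‖ ^ 2 ≤ (Real.sqrt (∑ j, x j ^ 2)) ^ 2 := by gcongr
    _ = _ := Real.sq_sqrt h0

lemma sq_int_le {f : ℂ → ℝ} (hf : Continuous f) : (∫ t, f t ∂σ) ^ 2 ≤ ∫ t, f t ^ 2 ∂σ := by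
  set c := ∫ t, f t ∂σ with hc
  have h1 : 0 ≤ ∫ t, (f t - c) ^ 2 ∂σ := integral_nonneg fun t => sq_nonneg _
  have h2 : ∫ t, (f t - c) ^ 2 ∂σ = ∫ t, f t ^ 2 ∂σ - c ^ 2 := by
    have h3 : ∀ t, (f t - c) ^ 2 = f t ^ 2 + ((-2 * c) * f t + c ^ 2) := fun t => by ring
    rw [integral_congr_ae (Eventually.of_forall h3),
      integral_add (integrable_cont (by fun_prop)) (integrable_cont (by fun_prop)),
      integral_add (integrable_cont (by fun_prop)) (integrable_const _), integral_const_mul,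
      ← hc]
    simp
    ring
  linarith

section lip
variable {h : (Fin N → ℝ) → (Fin N → ℝ)} {l : ℝ} (hl0 : 0 ≤ l) (hc : Continuous h)
  (hl : ∀ x y j, |h x j - h y j| ≤ l * ‖x - y‖)
include hl0 hc hl

lemma nn_lip {f g : ℂ → Fin N → ℝ} (hf : Continuous f) (hg : Continuous g) :
    nn (fun t j => h (f t) j - h (g t) j) ≤ N * l ^ 2 * nn (fun t j => f t j - g t j) := by
  have hfg : Continuous (fun t j => f t j - g t j) := by
    exact continuous_pi fun j =>
      ((continuous_apply j).comp hf).sub ((continuous_apply j).comp hg)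
  have hhfg : Continuous (fun t j => h (f t) j - h (g t) j) := by
    exact continuous_pi fun j =>
      ((continuous_apply j).comp (hc.comp hf)).sub ((continuous_apply j).comp (hc.comp hg))
  unfold nn
  rw [← integral_const_mul]
  refine integral_mono (int_sumsq hhfg) ((int_sumsq hfg).const_mul _) fun t => ?_
  simp only
  have h1 : ∀ j, (h (f t) j - h (g t) j) ^ 2 ≤ l ^ 2 * ∑ i, (f t i - g t i) ^ 2 := by
    intro j
    have h2 := hl (f t) (g t) j
    have h3 := norm_sq_le_sum (f t - g t)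
    calc (h (f t) j - h (g t) j) ^ 2 = |h (f t) j - h (g t) j| ^ 2 := (sq_abs _).symm
      _ ≤ (l * ‖f t - g t‖) ^ 2 := by gcongr
      _ = l ^ 2 * ‖f t - g t‖ ^ 2 := by ring
      _ ≤ l ^ 2 * ∑ i, (f t i - g t i) ^ 2 := by gcongr; exact h3
  calc ∑ j, (h (f t) j - h (g t) j) ^ 2 ≤ ∑ _j : Fin N, l ^ 2 * ∑ i, (f t i - g t i) ^ 2 :=
        Finset.sum_le_sum fun j _ => h1 j
    _ = N * l ^ 2 * ∑ i, (f t i - g t i) ^ 2 := by
        rw [Finset.sum_const, Finset.card_univ, Fintype.card_fin, nsmul_eq_mul]; ring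

lemma nn_lip0 (h0 : h 0 = 0) {f : ℂ → Fin N → ℝ} (hf : Continuous f) :
    nn (fun t => h (f t)) ≤ N * l ^ 2 * nn f := by
  have := nn_lip hl0 hc hl hf (g := fun _ => 0) continuous_const
  simpa [h0] using this

lemma comp_sq_le (h0 : h 0 = 0) {f : ℂ → Fin N → ℝ} (hf : Continuous f) (j : Fin N) :
    (∫ t, h (f t) j ∂σ) ^ 2 ≤ l ^ 2 * nn f := by
  have hcj : Continuous fun t => h (f t) j := (continuous_apply j).comp (hc.comp hf)
  refine (sq_int_le hcj).trans ?_
  unfold nn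
  rw [← integral_const_mul]
  refine integral_mono (integrable_cont (hcj.pow 2)) ((int_sumsq hf).const_mul _) fun t => ?_
  simp only
  have h2 := hl (f t) 0 j
  rw [h0] at h2
  simp only [Pi.zero_apply, sub_zero] at h2
  have h3 := norm_sq_le_sum (f t)
  calc (h (f t) j) ^ 2 = |h (f t) j| ^ 2 := (sq_abs _).symm
    _ ≤ (l * ‖f t‖) ^ 2 := by gcongr
    _ = l ^ 2 * ‖f t‖ ^ 2 := by ring
    _ ≤ l ^ 2 * ∑ i, (f t i) ^ 2 := by gcongr

end lip

/-- the disc -/
noncomputable def PP (q : ℂ → ℂ) (η : ℝ) (e : Fin N → ℝ) (w : Fin N → ℂ) (α : Fin N → ℝ)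
    (G : Fin N → ℂ → ℂ) (t : ℂ) (j : Fin N) : ℂ :=
  ((w j).re : ℂ) + (q t ^ 2 + (η : ℂ) ^ 2) * (e j : ℂ) + (α j : ℂ) * q t + G j t

/-- its real part -/
noncomputable def RP (q : ℂ → ℂ) (η : ℝ) (e : Fin N → ℝ) (w : Fin N → ℂ) (α : Fin N → ℝ)
    (G : Fin N → ℂ → ℂ) (t : ℂ) (j : Fin N) : ℝ := (PP q η e w α G t j).re

lemma RP_eq (q : ℂ → ℂ) (η : ℝ) (e : Fin N → ℝ) (w : Fin N → ℂ) (α : Fin N → ℝ)
    (G : Fin N → ℂ → ℂ) (t : ℂ) (j : Fin N) : RP q η e w α G t j =
      (w j).re + ((q t ^ 2).re + η ^ 2) * e j + α j * (q t).re + (G j t).re := by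
  simp only [RP, PP, Complex.add_re, Complex.re_mul_ofReal, Complex.re_ofReal_mul,
    Complex.ofReal_re]
  congr 4
  rw [← Complex.ofReal_pow, Complex.ofReal_re]

lemma RP_cont {q : ℂ → ℂ} {η : ℝ} {e : Fin N → ℝ} {w : Fin N → ℂ} {α : Fin N → ℝ}
    {G : Fin N → ℂ → ℂ} (hq : Differentiable ℂ q) (hG : ∀ j, Differentiable ℂ (G j)) :
    Continuous (RP q η e w α G) := by
  refine continuous_pi fun j => ?_
  have h1 := hq.continuous
  have h2 := (hG j).continuous
  have h3 : (fun t => RP q η e w α G t j) = fun t =>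
      (w j).re + ((q t ^ 2).re + η ^ 2) * e j + α j * (q t).re + (G j t).re := by
    funext t; exact RP_eq _ _ _ _ _ _ _ _
  rw [h3]
  fun_prop

/-- the data of the problem -/
structure Dat (N : ℕ) (h : (Fin N → ℝ) → (Fin N → ℝ)) (l η δ : ℝ) (q : ℂ → ℂ)
    (e : Fin N → ℝ) (w : Fin N → ℂ) : Prop where
  l0 : 0 ≤ l
  hc : Continuous h
  hl : ∀ x y j, |h x j - h y j| ≤ l * ‖x - y‖
  h0 : h 0 = 0
  hq : Differentiable ℂ q
  hq0 : q 0 = η * Complex.I
  hη : 0 < η
  hη1 : η ≤ 1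
  q2 : ∫ t, (q t).re ^ 2 ∂σ ≤ 4
  q4 : ∫ t, ((q t ^ 2).re + η ^ 2) ^ 2 ∂σ ≤ 2250
  he : ∀ j, |e j| ≤ 1
  hδ : 0 < δ
  hδη : 2 * δ ≤ η
  hw : ∀ j, ‖w j‖ ≤ δ
  hl1 : 24 * N * l ^ 2 ≤ η ^ 2
  hl2 : 20000 * N * l ^ 2 ≤ δ ^ 2

section iter
variable {h : (Fin N → ℝ) → (Fin N → ℝ)} {l η δ : ℝ} {q : ℂ → ℂ} {e : Fin N → ℝ} {w : Fin N → ℂ}

/-- one Picard step, up to an error `τ` -/
structure Step (h : (Fin N → ℝ) → (Fin N → ℝ)) (η : ℝ) (q : ℂ → ℂ) (e : Fin N → ℝ)
    (w : Fin N → ℂ) (τ : ℝ) (s s' : (Fin N → ℝ) × (Fin N → ℂ → ℂ)) : Prop where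
  dG : ∀ j, Differentiable ℂ (s'.2 j)
  g0 : ∀ j, s'.2 j 0 = (∫ t, h (RP q η e w s.1 s.2 t) j ∂σ : ℝ) * Complex.I
  ha : ∀ j, s'.1 j = ((w j).im - ∫ t, h (RP q η e w s.1 s.2 t) j ∂σ) / η
  him : ∀ j t, ‖t‖ = 1 → |(s'.2 j t).im - h (RP q η e w s.1 s.2 t) j| ≤ τ

lemma step_exists (D : Dat N h l η δ q e w) {τ : ℝ} (hτ : 0 < τ)
    (s : (Fin N → ℝ) × (Fin N → ℂ → ℂ)) (hs : ∀ j, Differentiable ℂ (s.2 j)) :
    ∃ s' : (Fin N → ℝ) × (Fin N → ℂ → ℂ), Step h η q e w τ s s' := by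
  have hcont : ∀ j, Continuous fun t => h (RP q η e w s.1 s.2 t) j := fun j =>
    (continuous_apply j).comp (D.hc.comp (RP_cont D.hq hs))
  choose G hG hG1 hG2 using fun j => approx_im (hcont j) hτ
  exact ⟨(fun j => ((w j).im - ∫ t, h (RP q η e w s.1 s.2 t) j ∂σ) / η, G),
    ⟨hG, hG2, fun j => rfl, hG1⟩⟩

/-- the invariants -/
structure Inv (h : (Fin N → ℝ) → (Fin N → ℝ)) (l η δ : ℝ) (q : ℂ → ℂ) (e : Fin N → ℝ)
    (w : Fin N → ℂ) (τ : ℝ) (s : (Fin N → ℝ) × (Fin N → ℂ → ℂ)) : Prop where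
  dG : ∀ j, Differentiable ℂ (s.2 j)
  p0 : ∀ j, PP q η e w s.1 s.2 0 j = w j
  ha : ∀ j, |s.1 j| ≤ 2 * δ / η
  S : nn (RP q η e w s.1 s.2) ≤ 20000 * N
  Gre : nn (fun t j => (s.2 j t).re) ≤ 2 * N * l ^ 2 * (20000 * N) + 2 * N * τ ^ 2
  Gim : nn (fun t j => (s.2 j t).im) ≤ 2 * N * l ^ 2 * (20000 * N) + 2 * N * τ ^ 2

lemma pp0 (D : Dat N h l η δ q e w) {α : Fin N → ℝ} {G : Fin N → ℂ → ℂ} {M : Fin N → ℝ}
    (hG : ∀ j, G j 0 = (M j : ℂ) * Complex.I) (hα : ∀ j, α j = ((w j).im - M j) / η)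
    (j : Fin N) : PP q η e w α G 0 j = w j := by
  have hη : (η : ℂ) ≠ 0 := by exact_mod_cast D.hη.ne'
  simp only [PP, D.hq0, hG, hα]
  have h1 : ((η : ℂ) * Complex.I) ^ 2 + (η : ℂ) ^ 2 = 0 := by
    rw [mul_pow, Complex.I_sq]; ring
  rw [h1]
  push_cast
  have h2 : ((w j).im - M j : ℂ) / η * (η * Complex.I) = ((w j).im - M j) * Complex.I := by
    field_simp
  rw [h2]
  conv_rhs => rw [← Complex.re_add_im (w j)]
  ring

lemma nn_const_le {f : ℂ → Fin N → ℝ} (hf : Continuous f) {τ : ℝ}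
    (h : ∀ t j, ‖t‖ = 1 → |f t j| ≤ τ) : nn f ≤ N * τ ^ 2 := by
  unfold nn
  have h1 : ∫ t, ∑ j, f t j ^ 2 ∂σ ≤ ∫ _t : ℂ, (N * τ ^ 2 : ℝ) ∂σ := by
    refine integral_mono_ae (int_sumsq hf) (integrable_const _) ?_
    filter_upwards [ae_norm] with t ht
    calc ∑ j, f t j ^ 2 ≤ ∑ _j : Fin N, τ ^ 2 := by
          refine Finset.sum_le_sum fun j _ => ?_
          rw [← sq_abs]
          have := h t j ht
          gcongr
      _ = N * τ ^ 2 := by simp
  simpa using h1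

lemma nn_re_le {G : Fin N → ℂ → ℂ} (hG : ∀ j, Differentiable ℂ (G j))
    (h0 : ∀ j, (G j 0).re = 0) :
    nn (fun t j => (G j t).re) ≤ nn (fun t j => (G j t).im) := by
  have hc1 : Continuous (fun t j => (G j t).re) := continuous_pi fun j =>
    Complex.continuous_re.comp (hG j).continuous
  have hc2 : Continuous (fun t j => (G j t).im) := continuous_pi fun j =>
    Complex.continuous_im.comp (hG j).continuous
  rw [nn_sum hc1, nn_sum hc2]
  exact Finset.sum_le_sum fun j _ => re_sq_le (hG j) (h0 j)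

/-- bound of `nn (RP)` -/
lemma rp_bound (D : Dat N h l η δ q e w) {α : Fin N → ℝ} {G : Fin N → ℂ → ℂ}
    (hG : ∀ j, Differentiable ℂ (G j)) (hα : ∀ j, |α j| ≤ 1) :
    nn (RP q η e w α G) ≤ 9020 * N + 4 * nn (fun t j => (G j t).re) := by
  have hc1 : Continuous (fun t j => (G j t).re) := continuous_pi fun j =>
    Complex.continuous_re.comp (hG j).continuous
  have hqc := D.hq.continuous
  rw [nn_sum (RP_cont D.hq hG), nn_sum hc1, Finset.mul_sum]
  have h1 : ∀ j, ∫ t, RP q η e w α G t j ^ 2 ∂σ ≤ 9020 + 4 * ∫ t, (G j t).re ^ 2 ∂σ := by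
    intro j
    have hGc := (hG j).continuous
    have hRPc : Continuous fun t => RP q η e w α G t j :=
      (continuous_apply j).comp (RP_cont D.hq hG)
    have h2 : ∫ t, RP q η e w α G t j ^ 2 ∂σ ≤ ∫ t, ((4 + 4 * ((q t ^ 2).re + η ^ 2) ^ 2)
        + (4 * (q t).re ^ 2 + 4 * (G j t).re ^ 2)) ∂σ := by
      refine integral_mono (integrable_cont (hRPc.pow 2)) (integrable_cont (by fun_prop))
        fun t => ?_
      simp only
      rw [RP_eq]
      have hw1 : ((w j).re) ^ 2 ≤ 1 := by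
        have h3 := (Complex.abs_re_le_norm (w j)).trans (D.hw j)
        have h4 : |(w j).re| ≤ 1 := by linarith [D.hδη, D.hη1, D.hδ]
        rw [← sq_abs]
        exact pow_le_one₀ (abs_nonneg _) h4
      have he1 : (e j) ^ 2 ≤ 1 := by
        rw [← sq_abs]; exact pow_le_one₀ (abs_nonneg _) (D.he j)
      have ha1 : (α j) ^ 2 ≤ 1 := by
        rw [← sq_abs]; exact pow_le_one₀ (abs_nonneg _) (hα j)
      set A := (w j).re
      set B := (q t ^ 2).re + η ^ 2
      set X := (q t).re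
      set Y := (G j t).re
      have e1 : (A + B * e j + α j * X + Y) ^ 2
          ≤ 4 * (A ^ 2 + (B * e j) ^ 2 + (α j * X) ^ 2 + Y ^ 2) := by
        nlinarith [sq_nonneg (A - B * e j), sq_nonneg (A - α j * X), sq_nonneg (A - Y),
          sq_nonneg (B * e j - α j * X), sq_nonneg (B * e j - Y), sq_nonneg (α j * X - Y)]
      have e2 : (B * e j) ^ 2 ≤ B ^ 2 := by
        rw [mul_pow]; nlinarith [sq_nonneg B]
      have e3 : (α j * X) ^ 2 ≤ X ^ 2 := by
        rw [mul_pow]; nlinarith [sq_nonneg X]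
      linarith
    rw [integral_add (integrable_cont (by fun_prop)) (integrable_cont (by fun_prop)),
      integral_add (integrable_const _) (integrable_cont (by fun_prop)),
      integral_add (integrable_cont (by fun_prop)) (integrable_cont (by fun_prop)),
      integral_const_mul, integral_const_mul, integral_const_mul] at h2
    simp at h2
    linarith [D.q2, D.q4]
  calc ∑ j, ∫ t, RP q η e w α G t j ^ 2 ∂σ
      ≤ ∑ j : Fin N, (9020 + 4 * ∫ t, (G j t).re ^ 2 ∂σ) := Finset.sum_le_sum fun j _ => h1 j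
    _ = 9020 * N + ∑ j, 4 * ∫ t, (G j t).re ^ 2 ∂σ := by
        rw [Finset.sum_add_distrib]; simp [mul_comm]

lemma Inv.step (D : Dat N h l η δ q e w) {τ : ℝ} (hτ : 0 < τ) (hτ1 : τ ≤ 1)
    {s s' : (Fin N → ℝ) × (Fin N → ℂ → ℂ)} (I : Inv h l η δ q e w τ s)
    (T : Step h η q e w τ s s') : Inv h l η δ q e w τ s' := by
  have hRc := RP_cont (η := η) (e := e) (w := w) (α := s.1) D.hq I.dG
  have hhc : Continuous fun t => h (RP q η e w s.1 s.2 t) := D.hc.comp hRc
  have hN : (0:ℝ) ≤ N := Nat.cast_nonneg N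
  have hM : ∀ j, |∫ t, h (RP q η e w s.1 s.2 t) j ∂σ| ≤ δ := by
    intro j
    have h1 := comp_sq_le D.l0 D.hc D.hl D.h0 hRc j
    have h2 : l ^ 2 * nn (RP q η e w s.1 s.2) ≤ l ^ 2 * (20000 * N) := by
      gcongr; exact I.S
    have h3 := D.hl2
    exact abs_le_of_sq_le_sq (by nlinarith) D.hδ.le
  have hα2 : ∀ j, |s'.1 j| ≤ 2 * δ / η := by
    intro j
    rw [T.ha j, abs_div, abs_of_pos D.hη]
    refine div_le_div_of_nonneg_right ?_ D.hη.le
    have h1 := (Complex.abs_im_le_norm (w j)).trans (D.hw j)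
    have h2 := hM j
    calc |(w j).im - ∫ t, h (RP q η e w s.1 s.2 t) j ∂σ|
        ≤ |(w j).im| + |∫ t, h (RP q η e w s.1 s.2 t) j ∂σ| := abs_sub _ _
      _ ≤ 2 * δ := by linarith
  have hα1 : ∀ j, |s'.1 j| ≤ 1 := fun j => (hα2 j).trans (by
    rw [div_le_one D.hη]; exact D.hδη)
  have hcim : Continuous (fun t j => (s'.2 j t).im) := continuous_pi fun j =>
    Complex.continuous_im.comp (T.dG j).continuous
  have hGim : nn (fun t j => (s'.2 j t).im)
      ≤ 2 * N * l ^ 2 * (20000 * N) + 2 * N * τ ^ 2 := by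
    have hdc : Continuous (fun t j => (s'.2 j t).im - h (RP q η e w s.1 s.2 t) j) :=
      continuous_pi fun j => ((continuous_apply j).comp hcim).sub
        ((continuous_apply j).comp hhc)
    have h1 := nn_add hhc hdc hcim (fun t j => by ring)
    have h2 := nn_const_le hdc (τ := τ) (fun t j ht => T.him j t ht)
    have h3 := nn_lip0 D.l0 D.hc D.hl D.h0 hRc
    have h4 : N * l ^ 2 * nn (RP q η e w s.1 s.2) ≤ N * l ^ 2 * (20000 * N) := by
      gcongr; exact I.S
    linarith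
  have hre0 : ∀ j, (s'.2 j 0).re = 0 := fun j => by rw [T.g0 j]; simp
  have hGre := (nn_re_le T.dG hre0).trans hGim
  refine ⟨T.dG, fun j => pp0 D T.g0 T.ha j, hα2, ?_, hGre, hGim⟩
  have h1 := rp_bound D T.dG hα1
  have h2 := D.hl1
  have h3 : η ^ 2 ≤ 1 := pow_le_one₀ D.hη.le D.hη1
  have h4 : τ ^ 2 ≤ 1 := pow_le_one₀ hτ.le hτ1
  have h5 : 2 * N * l ^ 2 * (20000 * N) ≤ (20000 * N) / 12 := by
    have : (2 * N * l ^ 2 : ℝ) ≤ 1 / 12 := by linarith
    nlinarith
  nlinarith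

lemma contr (D : Dat N h l η δ q e w) {τ : ℝ} (hτ : 0 < τ)
    {s0 s1 s2 : (Fin N → ℝ) × (Fin N → ℂ → ℂ)} (h0 : ∀ j, Differentiable ℂ (s0.2 j))
    (T1 : Step h η q e w τ s0 s1) (T2 : Step h η q e w τ s1 s2) :
    nn (fun t j => RP q η e w s2.1 s2.2 t j - RP q η e w s1.1 s1.2 t j) ≤
      1 / 2 * nn (fun t j => RP q η e w s1.1 s1.2 t j - RP q η e w s0.1 s0.2 t j)
        + 16 * N * τ ^ 2 := by
  set R0 := RP q η e w s0.1 s0.2 with hR0
  set R1 := RP q η e w s1.1 s1.2 with hR1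
  set R2 := RP q η e w s2.1 s2.2 with hR2
  have hN : (0:ℝ) ≤ N := Nat.cast_nonneg N
  have hqc := D.hq.continuous
  have c0 : Continuous R0 := RP_cont D.hq h0
  have c1 : Continuous R1 := RP_cont D.hq T1.dG
  have c2 : Continuous R2 := RP_cont D.hq T2.dG
  have cd : Continuous (fun t j => R1 t j - R0 t j) := continuous_pi fun j =>
    ((continuous_apply j).comp c1).sub ((continuous_apply j).comp c0)
  have cd2 : Continuous (fun t j => R2 t j - R1 t j) := continuous_pi fun j =>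
    ((continuous_apply j).comp c2).sub ((continuous_apply j).comp c1)
  set Δ := nn (fun t j => R1 t j - R0 t j) with hΔ
  have hΔ0 : 0 ≤ Δ := nn_nonneg _
  have hlip := nn_lip D.l0 D.hc D.hl c1 c0
  have chh : Continuous (fun t j => h (R1 t) j - h (R0 t) j) := continuous_pi fun j =>
    ((continuous_apply j).comp (D.hc.comp c1)).sub ((continuous_apply j).comp (D.hc.comp c0))
  -- differences of α
  have hM : ∀ j, (s2.1 j - s1.1 j) = - (∫ t, (h (R1 t) j - h (R0 t) j) ∂σ) / η := by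
    intro j
    have i1 : Integrable (fun t => h (R1 t) j) σ :=
      integrable_cont ((continuous_apply j).comp (D.hc.comp c1))
    have i0 : Integrable (fun t => h (R0 t) j) σ :=
      integrable_cont ((continuous_apply j).comp (D.hc.comp c0))
    rw [T2.ha j, T1.ha j, integral_sub i1 i0]
    have := D.hη.ne'
    field_simp
    ring
  have hα : ∑ j, (s2.1 j - s1.1 j) ^ 2 ≤ N * l ^ 2 * Δ / η ^ 2 := by
    have h1 : ∀ j, (s2.1 j - s1.1 j) ^ 2
        ≤ (∫ t, (h (R1 t) j - h (R0 t) j) ^ 2 ∂σ) / η ^ 2 := by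
      intro j
      rw [hM j, div_pow, neg_sq]
      gcongr
      exact sq_int_le ((continuous_apply j).comp chh)
    calc ∑ j, (s2.1 j - s1.1 j) ^ 2
        ≤ ∑ j, (∫ t, (h (R1 t) j - h (R0 t) j) ^ 2 ∂σ) / η ^ 2 :=
          Finset.sum_le_sum fun j _ => h1 j
      _ = nn (fun t j => h (R1 t) j - h (R0 t) j) / η ^ 2 := by
          rw [nn_sum chh, Finset.sum_div]
      _ ≤ N * l ^ 2 * Δ / η ^ 2 := by gcongr
  -- differences of G
  have dD : ∀ j, Differentiable ℂ (fun t => s2.2 j t - s1.2 j t) := fun j =>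
    (T2.dG j).sub (T1.dG j)
  have hDre := nn_re_le (G := fun j t => s2.2 j t - s1.2 j t) dD (fun j => by
    rw [T2.g0 j, T1.g0 j]; simp)
  have cim : Continuous (fun t j => (s2.2 j t - s1.2 j t).im) := continuous_pi fun j =>
    Complex.continuous_im.comp (dD j).continuous
  have cre : Continuous (fun t j => (s2.2 j t - s1.2 j t).re) := continuous_pi fun j =>
    Complex.continuous_re.comp (dD j).continuous
  have hDim : nn (fun t j => (s2.2 j t - s1.2 j t).im) ≤ 2 * (N * l ^ 2 * Δ) + 8 * N * τ ^ 2 := by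
    have crest : Continuous (fun t j => (s2.2 j t - s1.2 j t).im - (h (R1 t) j - h (R0 t) j)) :=
      continuous_pi fun j => ((continuous_apply j).comp cim).sub ((continuous_apply j).comp chh)
    have h1 := nn_add chh crest cim (fun t j => by ring)
    have h2 := nn_const_le crest (τ := 2 * τ) (fun t j ht => by
      have a1 := abs_le.1 (T2.him j t ht)
      have a2 := abs_le.1 (T1.him j t ht)
      rw [abs_le, Complex.sub_im]
      constructor <;> linarith)
    have h3 : (N : ℝ) * (2 * τ) ^ 2 = 4 * N * τ ^ 2 := by ring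
    linarith
  -- main estimate
  have hmain : nn (fun t j => R2 t j - R1 t j)
      ≤ 8 * (∑ j, (s2.1 j - s1.1 j) ^ 2) + 2 * nn (fun t j => (s2.2 j t - s1.2 j t).re) := by
    rw [nn_sum cd2, nn_sum cre, Finset.mul_sum, Finset.mul_sum, ← Finset.sum_add_distrib]
    refine Finset.sum_le_sum fun j _ => ?_
    have hGc1 := (T1.dG j).continuous
    have hGc2 := (T2.dG j).continuous
    have h1 : ∫ t, (R2 t j - R1 t j) ^ 2 ∂σ ≤ ∫ t, (2 * (s2.1 j - s1.1 j) ^ 2 * (q t).re ^ 2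
        + 2 * (s2.2 j t - s1.2 j t).re ^ 2) ∂σ := by
      refine integral_mono (integrable_cont (((continuous_apply j).comp cd2).pow 2))
        (integrable_cont (by fun_prop)) fun t => ?_
      simp only
      have h2 : R2 t j - R1 t j
          = (s2.1 j - s1.1 j) * (q t).re + (s2.2 j t - s1.2 j t).re := by
        rw [hR2, hR1, RP_eq, RP_eq, Complex.sub_re]; ring
      rw [h2]
      nlinarith [sq_nonneg ((s2.1 j - s1.1 j) * (q t).re - (s2.2 j t - s1.2 j t).re)]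
    rw [integral_add (integrable_cont (by fun_prop)) (integrable_cont (by fun_prop)),
      integral_const_mul, integral_const_mul] at h1
    have h3 := D.q2
    nlinarith [sq_nonneg (s2.1 j - s1.1 j)]
  have hη2 : 0 < η ^ 2 := pow_pos D.hη 2
  have hη21 : η ^ 2 ≤ 1 := pow_le_one₀ D.hη.le D.hη1
  have hk : N * l ^ 2 * Δ / η ^ 2 ≤ Δ / 24 := by
    rw [div_le_iff₀ hη2]
    have := D.hl1
    nlinarith
  have hk2 : N * l ^ 2 * Δ ≤ Δ / 24 := by
    have := D.hl1
    nlinarith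
  linarith

lemma defect (D : Dat N h l η δ q e w) {τ : ℝ} 
    {s0 s1 : (Fin N → ℝ) × (Fin N → ℂ → ℂ)} (h0 : ∀ j, Differentiable ℂ (s0.2 j))
    (T1 : Step h η q e w τ s0 s1) :
    nn (fun t j => (s1.2 j t).im - h (RP q η e w s1.1 s1.2 t) j) ≤
      nn (fun t j => RP q η e w s1.1 s1.2 t j - RP q η e w s0.1 s0.2 t j)
        + 2 * N * τ ^ 2 := by
  set R0 := RP q η e w s0.1 s0.2 with hR0
  set R1 := RP q η e w s1.1 s1.2 with hR1
  have c0 : Continuous R0 := RP_cont D.hq h0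
  have c1 : Continuous R1 := RP_cont D.hq T1.dG
  have cG : Continuous (fun t j => (s1.2 j t).im) := continuous_pi fun j =>
    Complex.continuous_im.comp (T1.dG j).continuous
  have hc1 : Continuous fun t => h (R1 t) := D.hc.comp c1
  have hc0 : Continuous fun t => h (R0 t) := D.hc.comp c0
  have ca : Continuous (fun t j => (s1.2 j t).im - h (R0 t) j) := continuous_pi fun j =>
    ((continuous_apply j).comp cG).sub ((continuous_apply j).comp hc0)
  have cb : Continuous (fun t j => h (R1 t) j - h (R0 t) j) := continuous_pi fun j =>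
    ((continuous_apply j).comp hc1).sub ((continuous_apply j).comp hc0)
  have cb' : Continuous (fun t j => h (R0 t) j - h (R1 t) j) := continuous_pi fun j =>
    ((continuous_apply j).comp hc0).sub ((continuous_apply j).comp hc1)
  have cc : Continuous (fun t j => (s1.2 j t).im - h (R1 t) j) := continuous_pi fun j =>
    ((continuous_apply j).comp cG).sub ((continuous_apply j).comp hc1)
  have h1 := nn_add ca cb' cc (fun t j => by ring)
  have h2 := nn_const_le ca (τ := τ) (fun t j ht => T1.him j t ht)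
  have h3 := nn_lip D.l0 D.hc D.hl c1 c0
  have h4 : nn (fun t j => h (R0 t) j - h (R1 t) j) = nn (fun t j => h (R1 t) j - h (R0 t) j) := by
    unfold nn
    refine integral_congr_ae (Eventually.of_forall fun t => ?_)
    refine Finset.sum_congr rfl fun j _ => ?_
    ring
  have hΔ0 := nn_nonneg (fun t j => R1 t j - R0 t j)
  have hη21 : η ^ 2 ≤ 1 := pow_le_one₀ D.hη.le D.hη1
  have := D.hl1
  rw [h4] at h1
  nlinarith

/-- Approximate solutions of Bishop's equation. -/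
theorem bishop (D : Dat N h l η δ q e w) {τ : ℝ} (hτ : 0 < τ) (hτ1 : τ ≤ 1) :
    ∃ s : (Fin N → ℝ) × (Fin N → ℂ → ℂ), Inv h l η δ q e w τ s ∧
      nn (fun t j => (s.2 j t).im - h (RP q η e w s.1 s.2 t) j) ≤ 40 * N * τ ^ 2 + τ ^ 2 := by
  classical
  have hN : (0:ℝ) ≤ N := Nat.cast_nonneg N
  -- initial state
  set s0 : (Fin N → ℝ) × (Fin N → ℂ → ℂ) := (fun j => (w j).im / η, fun _ _ => 0) with hs0
  have hα0 : ∀ j, |s0.1 j| ≤ δ / η := by
    intro j
    simp only [hs0]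
    rw [abs_div, abs_of_pos D.hη]
    exact div_le_div_of_nonneg_right ((Complex.abs_im_le_norm (w j)).trans (D.hw j)) D.hη.le
  have hd0 : ∀ j, Differentiable ℂ (s0.2 j) := fun j => by
    simp only [hs0]; exact differentiable_const 0
  have hz : nn (fun (_ : ℂ) (_ : Fin N) => (0:ℝ)) = 0 := by simp [nn]
  have I0 : Inv h l η δ q e w τ s0 := by
    refine ⟨hd0, fun j => ?_, fun j => ?_, ?_, ?_, ?_⟩
    · exact pp0 D (M := fun _ => 0) (fun j => by simp [hs0]) (fun j => by simp [hs0]) j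
    · refine (hα0 j).trans (div_le_div_of_nonneg_right ?_ D.hη.le)
      linarith [D.hδ]
    · have h1 := rp_bound D hd0 (fun j => (hα0 j).trans (by
        rw [div_le_one D.hη]; linarith [D.hδη, D.hδ]))
      have h2 : nn (fun t j => (s0.2 j t).re) = 0 := by simp [hs0, nn]
      rw [h2] at h1
      linarith
    · have h2 : nn (fun t j => (s0.2 j t).re) = 0 := by simp [hs0, nn]
      rw [h2]; positivity
    · have h2 : nn (fun t j => (s0.2 j t).im) = 0 := by simp [hs0, nn]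
      rw [h2]; positivity
  choose! nxt hnxt using fun (s : (Fin N → ℝ) × (Fin N → ℂ → ℂ)) (hs : ∀ j, Differentiable ℂ (s.2 j)) =>
    step_exists D hτ s hs
  set S : ℕ → (Fin N → ℝ) × (Fin N → ℂ → ℂ) := fun m => nxt^[m] s0 with hS
  have hSs : ∀ m, S (m + 1) = nxt (S m) := fun m => by
    simp only [hS]; rw [Function.iterate_succ_apply']
  have hInv : ∀ m, Inv h l η δ q e w τ (S m) := by
    intro m
    induction m with
    | zero => exact I0
    | succ m ih =>
      rw [hSs]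
      exact ih.step D hτ hτ1 (hnxt _ ih.dG)
  have hStep : ∀ m, Step h η q e w τ (S m) (S (m + 1)) := fun m => by
    rw [hSs]; exact hnxt _ (hInv m).dG
  set Δ : ℕ → ℝ := fun m => nn (fun t j => RP q η e w (S (m+1)).1 (S (m+1)).2 t j
    - RP q η e w (S m).1 (S m).2 t j) with hΔ
  have hrec : ∀ m, Δ (m + 1) ≤ 1 / 2 * Δ m + 16 * N * τ ^ 2 := fun m =>
    contr D hτ (hInv m).dG (hStep m) (hStep (m + 1))
  have hgeo : ∀ m, Δ m ≤ (1 / 2) ^ m * Δ 0 + 32 * N * τ ^ 2 := by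
    intro m
    induction m with
    | zero => simp; positivity
    | succ m ih =>
      have := hrec m
      rw [pow_succ]
      nlinarith
  obtain ⟨m, hm⟩ : ∃ m : ℕ, (1 / 2 : ℝ) ^ m * Δ 0 < τ ^ 2 := by
    have h1 : Tendsto (fun m : ℕ => (1 / 2 : ℝ) ^ m * Δ 0) atTop (𝓝 (0 * Δ 0)) :=
      (tendsto_pow_atTop_nhds_zero_of_lt_one (by norm_num) (by norm_num)).mul_const _
    rw [zero_mul] at h1
    exact (h1.eventually_lt_const (pow_pos hτ 2)).exists
  refine ⟨S (m + 1), hInv (m + 1), ?_⟩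
  have h1 := defect D (hInv m).dG (hStep m)
  have h2 := hgeo m
  have h3 : 0 ≤ N * τ ^ 2 := by positivity
  simp only [hΔ] at h2 hm
  linarith

end iter

end H93.PR
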