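import Mathlib

/-!
# Pluriregularity: the definitions used in the statement (problem MP_dd9b03_an)
-/

open MeasureTheory Set Filter Topology

namespace H93.PR

/-- `ℂⁿ` with the Euclidean norm. -/
abbrev Cn (n : ℕ) := EuclideanSpace ℂ (Fin n)

variable {n : ℕ}

/-- Plurisubharmonic functions `ℂⁿ → [-∞, ∞)`: upper semicontinuous, with the sub-mean value
inequality on every circle `{z + t w : |t| = 1}` of every complex line.  The mean of `u` over the
circle is the infimum over `k : ℕ` of the means of `max u (-k)` (monotone convergence);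
`Real.circleAverage g 0 1 = (2 π)⁻¹ ∫_0^{2π} g (e^{iθ}) dθ`. -/
structure PSH (u : Cn n → EReal) : Prop where
  usc : UpperSemicontinuous u
  lt_top : ∀ z, u z < ⊤
  submean : ∀ (z w : Cn n) (k : ℕ),
    u z ≤ ((Real.circleAverage
      (fun t : ℂ => (max (u (z + t • w)) ((-(k : ℝ) : ℝ) : EReal)).toReal) 0 1 : ℝ) : EReal)

/-- The Lelong class: plurisubharmonic and `u(z) ≤ log (1 + |z|) + C`. -/
def Lelong (u : Cn n → EReal) : Prop :=
  PSH u ∧ ∃ C : ℝ, ∀ z, u z ≤ ((Real.log (1 + ‖z‖) + C : ℝ) : EReal)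

/-- The Siciak extremal function (pluricomplex Green function) of `E`. -/
noncomputable def V (E : Set (Cn n)) (z : Cn n) : EReal :=
  sSup {a : EReal | ∃ u : Cn n → EReal, Lelong u ∧ (∀ x ∈ E, u x ≤ 0) ∧ a = u z}

/-- Its upper semicontinuous regularisation. -/
noncomputable def Vstar (E : Set (Cn n)) (z : Cn n) : EReal :=
  limsup (V E) (𝓝 z)

/-- `E` is pluriregular: `V*` is (finite and) continuous on `ℂⁿ`. -/
def Pluriregular (E : Set (Cn n)) : Prop :=
  ∃ g : Cn n → ℝ, Continuous g ∧ ∀ z, Vstar E z = (g z : EReal)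

/-- `M` is an embedded real submanifold of class `C^k` of `ℂⁿ`: near each of its points it is the
zero set of a `C^k` map to some `ℝ^m` with surjective (real) differential. -/
def IsSubmanifold (k : ℕ) (M : Set (Cn n)) : Prop :=
  ∀ p ∈ M, ∃ (m : ℕ) (U : Set (Cn n)) (ρ : Cn n → (Fin m → ℝ)), IsOpen U ∧ p ∈ U ∧
    ContDiffOn ℝ k ρ U ∧ Function.Surjective (fderiv ℝ ρ p) ∧ M ∩ U = {z ∈ U | ρ z = 0}

/-- `M` is generic: `T_p M + i T_p M = ℂⁿ` for all `p ∈ M`.  (`tangentConeAt ℝ M p` is the set of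
tangent vectors of `M` at `p`.) -/
def IsGeneric (M : Set (Cn n)) : Prop :=
  ∀ p ∈ M, ∀ v : Cn n, ∃ a ∈ tangentConeAt ℝ M p, ∃ b ∈ tangentConeAt ℝ M p,
    v = a + Complex.I • b

/-- `D` is a relatively compact domain in `M` whose boundary in `M` is a real hypersurface of
class `C^1` of `M` (locally `{z ∈ M | s z = 0}` with `ds ≠ 0` on `T_p M`). -/
structure IsDomainC1 (M D : Set (Cn n)) : Prop where
  connected : IsConnected D
  relOpen : ∃ O : Set (Cn n), IsOpen O ∧ D = M ∩ O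
  compact : IsCompact (closure D)
  subset : closure D ⊆ M
  boundary : ∀ p ∈ closure D \ D, ∃ (U : Set (Cn n)) (s : Cn n → ℝ), IsOpen U ∧ p ∈ U ∧
    ContDiffOn ℝ 1 s U ∧ (∃ v ∈ tangentConeAt ℝ M p, fderiv ℝ s p v ≠ 0) ∧
    (closure D \ D) ∩ U = {z ∈ M ∩ U | s z = 0}

end H93.PR
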