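import Pool.Agent.H93.PR.Lap

/-!
# Plurisubharmonic functions satisfy the sub-mean value inequality along entire discs
-/

open MeasureTheory Set Filter Topology

namespace H93.PR

variable {E : Type*} [NormedAddCommGroup E] [InnerProductSpace ℂ E] [FiniteDimensional ℂ E]

lemma bdd_of_usc {u : E → ℝ} (hu : UpperSemicontinuous u) (R : ℝ) :
    ∃ C, 0 ≤ C ∧ ∀ x, ‖x‖ ≤ R → u x ≤ C := by
  haveI : ProperSpace E := FiniteDimensional.proper_rclike ℂ E
  obtain ⟨C, hC⟩ := (hu.upperSemicontinuousOn _).bddAbove_of_isCompact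
    (isCompact_closedBall (0:E) R)
  refine ⟨max C 0, le_max_right _ _, fun x hx => ?_⟩
  exact (hC ⟨x, by simpa using hx, rfl⟩).trans (le_max_left _ _)

/-- smooth radial kernel supported in the ball of radius `ε` -/
noncomputable def kern (ε : ℝ) (y : E) : ℝ := expNegInvGlue (ε ^ 2 - ‖y‖ ^ 2)

lemma kern_contDiff (ε : ℝ) : ContDiff ℝ 2 (kern ε : E → ℝ) := by
  unfold kern
  exact expNegInvGlue.contDiff.comp (contDiff_const.sub (contDiff_norm_sq ℂ))

lemma kern_continuous (ε : ℝ) : Continuous (kern ε : E → ℝ) := (kern_contDiff ε).continuous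

lemma kern_nonneg (ε : ℝ) (y : E) : 0 ≤ kern ε y := expNegInvGlue.nonneg _

lemma kern_zero {ε : ℝ} (hε : 0 < ε) {y : E} (hy : ε ≤ ‖y‖) : kern ε y = 0 := by
  unfold kern
  refine expNegInvGlue.zero_of_nonpos ?_
  nlinarith

lemma kern_le_one (ε : ℝ) (y : E) : kern ε y ≤ 1 := by
  unfold kern expNegInvGlue
  split_ifs with h
  · norm_num
  · push Not at h
    rw [Real.exp_le_one_iff]
    have : 0 < (ε ^ 2 - ‖y‖ ^ 2)⁻¹ := inv_pos.2 h
    linarith

lemma kern_support {ε : ℝ} (hε : 0 < ε) : HasCompactSupport (kern ε : E → ℝ) := by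
  haveI : ProperSpace E := FiniteDimensional.proper_rclike ℂ E
  refine HasCompactSupport.intro (isCompact_closedBall (0:E) ε) fun y hy => ?_
  refine kern_zero hε ?_
  simp at hy
  exact hy.le

variable [MeasurableSpace E] [BorelSpace E]

/-- a rotation invariant Haar measure -/
noncomputable def mu (E : Type*) [NormedAddCommGroup E] [InnerProductSpace ℂ E]
    [MeasurableSpace E] [BorelSpace E] : Measure E :=
  μH[(Module.finrank ℝ E : ℝ)]

instance : (mu E).IsAddHaarMeasure := by
  unfold mu; infer_instance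

lemma kern_integrable {ε : ℝ} (hε : 0 < ε) : Integrable (kern ε : E → ℝ) (mu E) :=
  (kern_continuous ε).integrable_of_hasCompactSupport (kern_support hε)

noncomputable def KK (E : Type*) [NormedAddCommGroup E] [InnerProductSpace ℂ E]
    [FiniteDimensional ℂ E] [MeasurableSpace E] [BorelSpace E] (ε : ℝ) : ℝ :=
  ∫ y : E, kern ε y ∂(mu E)

lemma KK_pos {ε : ℝ} (hε : 0 < ε) : 0 < KK E ε := by
  unfold KK
  refine (kern_continuous ε).integral_pos_of_hasCompactSupport_nonneg_nonzero
    (kern_support hε) (kern_nonneg ε) (x := 0) ?_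
  unfold kern
  have : 0 < ε ^ 2 - ‖(0:E)‖ ^ 2 := by simp; positivity
  exact (expNegInvGlue.pos_of_pos this).ne'

/-- mollified function -/
noncomputable def moll (u : E → ℝ) (ε : ℝ) (z : E) : ℝ :=
  (KK E ε)⁻¹ * ∫ y, kern ε y * u (z - y) ∂(mu E)

section
variable {u : E → ℝ} (hu : UpperSemicontinuous u) {b : ℝ} (hb : ∀ x, b ≤ u x)
include hu hb

omit [FiniteDimensional ℂ E] hb in
lemma usc_measurable : Measurable u := hu.measurable

lemma abs_bound (R : ℝ) : ∃ C, 0 ≤ C ∧ ∀ x, ‖x‖ ≤ R → |u x| ≤ C := by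
  obtain ⟨C, hC0, hC⟩ := bdd_of_usc hu R
  refine ⟨C + |b|, by positivity, fun x hx => abs_le.2 ⟨?_, ?_⟩⟩
  · have := hb x
    have := neg_abs_le b
    linarith
  · have := hC x hx
    have := abs_nonneg b
    linarith

lemma usc_locInt : LocallyIntegrable u (mu E) := by
  haveI : ProperSpace E := FiniteDimensional.proper_rclike ℂ E
  rw [locallyIntegrable_iff]
  intro K hK
  obtain ⟨R, hR⟩ := hK.isBounded.exists_norm_le
  obtain ⟨C, hC0, hC⟩ := abs_bound hu hb R
  refine Measure.integrableOn_of_bounded hK.measure_lt_top.ne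
    (usc_measurable hu).aestronglyMeasurable (M := C) ?_
  refine (ae_restrict_iff' hK.measurableSet).2 (Eventually.of_forall fun x hx => ?_)
  exact hC x (hR x hx)

lemma moll_contDiff {ε : ℝ} (hε : 0 < ε) : ContDiff ℝ 2 (moll u ε) := by
  have h := (kern_support hε).contDiff_convolution_left (n := 2) (μ := mu E)
    (L := ContinuousLinearMap.mul ℝ ℝ) (kern_contDiff ε) (usc_locInt hu hb)
  have h2 : moll u ε = fun z => (KK E ε)⁻¹ * convolution (kern ε) u (ContinuousLinearMap.mul ℝ ℝ) (mu E) z := by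
    funext z
    simp [moll, convolution]
  rw [h2]
  exact contDiff_const.mul h

lemma fub {ε : ℝ} (hε : 0 < ε) {Φ : ℂ × E → E} (hΦ : Continuous Φ) {R : ℝ}
    (hR : ∀ t y, ‖t‖ = 1 → ‖y‖ ≤ ε → ‖Φ (t, y)‖ ≤ R) :
    Integrable (fun p : ℂ × E => kern ε p.2 * u (Φ p)) (σ.prod (mu E)) := by
  obtain ⟨C, hC0, hC⟩ := abs_bound hu hb R
  have h1 : Integrable (fun p : ℂ × E => kern ε p.2 * C) (σ.prod (mu E)) :=
    ((kern_integrable hε).comp_snd σ).mul_const C
  refine h1.mono' ?_ ?_
  · refine Measurable.aestronglyMeasurable ?_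
    exact ((kern_continuous ε).measurable.comp measurable_snd).mul
      ((usc_measurable hu).comp hΦ.measurable)
  · have h2 : ∀ᵐ p ∂(σ.prod (mu E)), ‖p.1‖ = 1 :=
      Measure.quasiMeasurePreserving_fst.ae ae_norm
    filter_upwards [h2] with p hp
    rw [norm_mul, Real.norm_of_nonneg (kern_nonneg ε _), Real.norm_eq_abs]
    rcases le_or_gt ε ‖p.2‖ with h | h
    · rw [kern_zero hε h]; simp
    · exact mul_le_mul_of_nonneg_left (hC _ (hR p.1 p.2 hp h.le)) (kern_nonneg ε _)

omit hu hb in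
lemma rot_integral (g : E → ℝ) {t : ℂ} (ht : ‖t‖ = 1) :
    ∫ y, g (t • y) ∂(mu E) = ∫ y, g y ∂(mu E) := by
  have ht0 : t ≠ 0 := by rintro rfl; simp at ht
  let e : E ≃ᵢ E := IsometryEquiv.mk' (fun y => t • y) (fun y => t⁻¹ • y)
    (fun y => by simp [smul_smul, ht0]) (Isometry.of_dist_eq fun x y => by
      rw [dist_smul₀, ht, one_mul])
  have h := e.measurePreserving_hausdorffMeasure (Module.finrank ℝ E : ℝ)
  have h3 : MeasurableEmbedding e := e.toHomeomorph.measurableEmbedding
  exact h.integral_comp h3 g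

/-- `u ≤ moll u ε` -/
lemma le_moll (hs : ∀ z w, u z ≤ ∫ t, u (z + t • w) ∂σ) {ε : ℝ} (hε : 0 < ε) (z : E) :
    u z ≤ moll u ε z := by
  have hK := KK_pos (E := E) hε
  have hI : Integrable (fun p : ℂ × E => kern ε p.2 * u (z - p.1 • p.2)) (σ.prod (mu E)) := by
    refine fub hu hb hε (Φ := fun p => z - p.1 • p.2) (by fun_prop) (R := ‖z‖ + ε) ?_
    intro t y ht hy
    calc ‖z - t • y‖ ≤ ‖z‖ + ‖t • y‖ := norm_sub_le _ _
      _ ≤ ‖z‖ + ε := by rw [norm_smul, ht, one_mul]; gcongr
  have h1 : ∫ y, kern ε y * u (z - y) ∂(mu E)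
      = ∫ t, ∫ y, kern ε y * u (z - t • y) ∂(mu E) ∂σ := by
    have h2 : ∀ᵐ t ∂σ, ∫ y, kern ε y * u (z - t • y) ∂(mu E)
        = ∫ y, kern ε y * u (z - y) ∂(mu E) := by
      filter_upwards [ae_norm] with t ht
      rw [← rot_integral (fun y => kern ε y * u (z - y)) ht]
      refine integral_congr_ae (Eventually.of_forall fun y => ?_)
      simp [kern, norm_smul, ht]
    rw [integral_congr_ae h2]; simp
  rw [integral_integral_swap hI] at h1
  unfold moll
  rw [h1, inv_mul_eq_div, le_div_iff₀ hK, mul_comm]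
  unfold KK
  rw [← integral_mul_const]
  refine integral_mono ((kern_integrable hε).mul_const _) hI.integral_prod_right fun y => ?_
  simp only
  rw [integral_const_mul]
  refine mul_le_mul_of_nonneg_left ?_ (kern_nonneg ε y)
  refine (hs z (-y)).trans (le_of_eq ?_)
  simp [sub_eq_add_neg]

lemma moll_submean (hs : ∀ z w, u z ≤ ∫ t, u (z + t • w) ∂σ) {ε : ℝ} (hε : 0 < ε) (z w : E) :
    moll u ε z ≤ ∫ t, moll u ε (z + t • w) ∂σ := by
  have hK := KK_pos (E := E) hε
  have hI : Integrable (fun p : ℂ × E => kern ε p.2 * u (z + p.1 • w - p.2)) (σ.prod (mu E)) := by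
    refine fub hu hb hε (Φ := fun p => z + p.1 • w - p.2) (by fun_prop) (R := ‖z‖ + ‖w‖ + ε) ?_
    intro t y ht hy
    calc ‖z + t • w - y‖ ≤ ‖z + t • w‖ + ‖y‖ := norm_sub_le _ _
      _ ≤ (‖z‖ + ‖t • w‖) + ε := add_le_add (norm_add_le _ _) hy
      _ = ‖z‖ + ‖w‖ + ε := by rw [norm_smul, ht, one_mul]
  unfold moll
  rw [integral_const_mul, integral_integral_swap hI]
  refine mul_le_mul_of_nonneg_left ?_ (inv_pos.2 hK).le
  have hI1 : Integrable (fun y => kern ε y * u (z - y)) (mu E) := by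
    have hI2 : Integrable (fun p : ℂ × E => kern ε p.2 * u (z - p.2)) (σ.prod (mu E)) := by
      refine fub hu hb hε (Φ := fun p => z - p.2) (by fun_prop) (R := ‖z‖ + ε) ?_
      intro t y ht hy
      exact (norm_sub_le _ _).trans (by gcongr)
    have := hI2.integral_prod_right
    simpa using this
  refine integral_mono hI1 hI.integral_prod_right fun y => ?_
  simp only
  rw [integral_const_mul]
  refine mul_le_mul_of_nonneg_left ?_ (kern_nonneg ε y)
  refine (hs (z - y) w).trans (le_of_eq ?_)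
  refine integral_congr_ae (Eventually.of_forall fun t => ?_)
  simp only
  congr 1
  abel

lemma moll_le {ε : ℝ} (hε : 0 < ε) {z : E} {a : ℝ} (ha : ∀ y, ‖y‖ ≤ ε → u (z - y) ≤ a) :
    moll u ε z ≤ a := by
  have hK := KK_pos (E := E) hε
  have hI1 : Integrable (fun y => kern ε y * u (z - y)) (mu E) := by
    have hI2 : Integrable (fun p : ℂ × E => kern ε p.2 * u (z - p.2)) (σ.prod (mu E)) := by
      refine fub hu hb hε (Φ := fun p => z - p.2) (by fun_prop) (R := ‖z‖ + ε) ?_
      intro t y ht hy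
      exact (norm_sub_le _ _).trans (by gcongr)
    have := hI2.integral_prod_right
    simpa using this
  unfold moll
  rw [inv_mul_eq_div, div_le_iff₀ hK, mul_comm]
  unfold KK
  rw [← integral_mul_const]
  refine integral_mono hI1 ((kern_integrable hε).mul_const _) fun y => ?_
  simp only
  rcases le_or_gt ε ‖y‖ with h | h
  · rw [kern_zero hε h]; simp
  · exact mul_le_mul_of_nonneg_left (ha y h.le) (kern_nonneg ε _)

/-- The sub-mean value inequality along entire discs. -/
theorem disc_submean (hs : ∀ z w, u z ≤ ∫ t, u (z + t • w) ∂σ) {f : ℂ → E}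
    (hf : Differentiable ℂ f) : u (f 0) ≤ ∫ t, u (f t) ∂σ := by
  haveI : ProperSpace E := FiniteDimensional.proper_rclike ℂ E
  haveI : CompleteSpace E := FiniteDimensional.complete ℂ E
  set e : ℕ → ℝ := fun m => 1 / ((m:ℝ) + 1) with he
  have he0 : ∀ m, 0 < e m := fun m => by positivity
  have he1 : ∀ m, e m ≤ 1 := fun m => by
    rw [he]; simp only; rw [div_le_one (by positivity)]; linarith [(Nat.cast_nonneg m : (0:ℝ) ≤ m)]
  have heT : Tendsto e atTop (𝓝 0) := tendsto_one_div_add_atTop_nhds_zero_nat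
  have hfc : Continuous f := hf.continuous
  -- bound of f on the unit circle
  obtain ⟨R, hR⟩ : ∃ R, ∀ t, ‖t‖ = 1 → ‖f t‖ ≤ R := by
    obtain ⟨R, hR⟩ := ((isCompact_sphere (0:ℂ) 1).image hfc).isBounded.exists_norm_le
    exact ⟨R, fun t ht => hR _ ⟨t, by simpa using ht, rfl⟩⟩
  obtain ⟨C, hC0, hC⟩ := abs_bound hu hb (R + 1)
  have hlim : Tendsto (fun m => ∫ t, moll u (e m) (f t) ∂σ) atTop (𝓝 (∫ t, u (f t) ∂σ)) := by
    refine tendsto_integral_of_dominated_convergence (fun _ => C) ?_ (integrable_const _) ?_ ?_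
    · intro m
      exact ((moll_contDiff hu hb (he0 m)).continuous.comp hfc).aestronglyMeasurable
    · intro m
      filter_upwards [ae_norm] with t ht
      rw [Real.norm_eq_abs, abs_le]
      constructor
      · have h1 := le_moll hu hb hs (he0 m) (f t)
        have h2 := (abs_le.1 (hC (f t) ((hR t ht).trans (by linarith)))).1
        linarith
      · refine moll_le hu hb (he0 m) fun y hy => ?_
        refine (abs_le.1 (hC (f t - y) ?_)).2
        calc ‖f t - y‖ ≤ ‖f t‖ + ‖y‖ := norm_sub_le _ _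
          _ ≤ R + 1 := add_le_add (hR t ht) (hy.trans (he1 m))
    · refine Eventually.of_forall fun t => ?_
      rw [Metric.tendsto_atTop]
      intro a ha
      have h1 : ∀ᶠ x in 𝓝 (f t), u x < u (f t) + a / 2 := hu (f t) _ (by linarith)
      obtain ⟨r, hr, hr'⟩ := Metric.eventually_nhds_iff.1 h1
      obtain ⟨N, hN⟩ := (Metric.tendsto_atTop.1 heT) r hr
      refine ⟨N, fun m hm => ?_⟩
      have h2 := hN m hm
      rw [Real.dist_eq, sub_zero, abs_of_pos (he0 m)] at h2
      have h3 : moll u (e m) (f t) ≤ u (f t) + a / 2 := by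
        refine moll_le hu hb (he0 m) fun y hy => (hr' ?_).le
        rw [dist_eq_norm, sub_sub_cancel_left, norm_neg]
        linarith
      have h4 := le_moll hu hb hs (he0 m) (f t)
      rw [Real.dist_eq, abs_lt]
      constructor <;> linarith
  refine ge_of_tendsto' hlim fun m => ?_
  refine (le_moll hu hb hs (he0 m) (f 0)).trans ?_
  exact disc_of_smooth (moll_contDiff hu hb (he0 m)) (moll_submean hu hb hs (he0 m)) hf

end

end H93.PR
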