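import Pool.Agent.H93.PR.LocD

/-!
# Charts of generic submanifolds adapted to a totally real slice
-/

open MeasureTheory Set Filter Topology
open scoped Pointwise

namespace H93.PR

variable {n : ℕ}

/-- tangent vectors are annihilated by the differentials of functions vanishing on `M` -/
lemma tangent_ker {F : Type*} [NormedAddCommGroup F] [NormedSpace ℝ F] {M U : Set (Cn n)}
    {p : Cn n} {f : Cn n → F} (hU : IsOpen U) (hpU : p ∈ U) (hf : DifferentiableAt ℝ f p)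
    (h0 : ∀ z ∈ M ∩ U, f z = 0) (hfp : f p = 0) {v : Cn n} (hv : v ∈ tangentConeAt ℝ M p) :
    fderiv ℝ f p v = 0 := by
  have h1 : v ∈ tangentConeAt ℝ (M ∩ U) p := by
    rw [tangentConeAt_inter_nhds (hU.mem_nhds hpU)]; exact hv
  have h2 := hf.hasFDerivAt.hasFDerivWithinAt.mapsTo_tangent_cone h1
  have h3 : f '' (M ∩ U) ⊆ {0} := by
    rintro _ ⟨z, hz, rfl⟩
    exact h0 z hz
  have h4 := tangentConeAt_mono h3 h2
  have h5 : ¬ AccPt (f p) (𝓟 ({0} : Set F)) := by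
    rw [hfp, accPt_principal_iff_clusterPt]
    simp [ClusterPt]
  exact tangentConeAt_subset_zero h5 h4

lemma strict_ball {E F : Type*} [NormedAddCommGroup E] [NormedSpace ℝ E] [NormedAddCommGroup F]
    [NormedSpace ℝ F] {f : E → F} {f' : E →L[ℝ] F} (hf : HasStrictFDerivAt f f' 0) {c : ℝ}
    (hc : 0 < c) : ∃ r : ℝ, 0 < r ∧ ∀ a b, ‖a‖ < r → ‖b‖ < r →
      ‖f a - f b - f' (a - b)‖ ≤ c * ‖a - b‖ := by
  have h1 := hf.isLittleO.def hc
  rw [nhds_prod_eq, Metric.nhds_basis_ball.prod_self.eventually_iff] at h1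
  obtain ⟨r, hr, h⟩ := h1
  refine ⟨r, hr, fun a b ha hb => ?_⟩
  have := h (x := (a, b)) ⟨by simpa using ha, by simpa using hb⟩
  exact this

/-- inclusion of `ℝⁿ` in `ℂⁿ` -/
noncomputable def rc (n : ℕ) : (Fin n → ℝ) →L[ℝ] (Fin n → ℂ) :=
  ContinuousLinearMap.pi fun j => Complex.ofRealCLM.comp (ContinuousLinearMap.proj j)

@[simp] lemma rc_apply (x : Fin n → ℝ) (j : Fin n) : rc n x j = (x j : ℂ) := rfl

/-- the real slice -/
noncomputable def AR (A : (Fin n → ℂ) →L[ℂ] Cn n) : (Fin n → ℝ) →L[ℝ] Cn n :=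
  (A.restrictScalars ℝ).comp (rc n)

lemma AR_apply (A : (Fin n → ℂ) →L[ℂ] Cn n) (x : Fin n → ℝ) : AR A x = A (rc n x) := rfl

lemma A_gr (A : (Fin n → ℂ) →L[ℂ] Cn n) (h : (Fin n → ℝ) → (Fin n → ℝ)) (x : Fin n → ℝ) :
    A (gr h x) = AR A x + Complex.I • AR A (h x) := by
  rw [AR_apply, AR_apply, ← map_smul, ← map_add]
  congr 1
  funext j
  simp [gr, mul_comm]

lemma decomp (A : (Fin n → ℂ) →L[ℂ] Cn n) (B : Cn n →L[ℂ] (Fin n → ℂ)) (hAB : ∀ z, A (B z) = z)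
    (z : Cn n) : ∃ a b : Fin n → ℝ, z = AR A a + Complex.I • AR A b := by
  refine ⟨fun j => (B z j).re, fun j => (B z j).im, ?_⟩
  rw [AR_apply, AR_apply, ← map_smul, ← map_add]
  conv_lhs => rw [← hAB z]
  congr 1
  funext j
  simp only [Pi.add_apply, rc_apply, Pi.smul_apply, smul_eq_mul]
  rw [mul_comm]
  exact (Complex.re_add_im _).symm

/-- A chart of `M` at `p` adapted to the slice. -/
theorem exists_chart {M U : Set (Cn n)} {p : Cn n} {m : ℕ} {ρ : Cn n → (Fin m → ℝ)}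
    (hU : IsOpen U) (hpU : p ∈ U) (hρ : ContDiffOn ℝ 1 ρ U)
    (hsurj : Function.Surjective (fderiv ℝ ρ p)) (hM : M ∩ U = {z ∈ U | ρ z = 0}) (hp : p ∈ M)
    (A : (Fin n → ℂ) →L[ℂ] Cn n) (B : Cn n →L[ℂ] (Fin n → ℂ)) (hAB : ∀ z, A (B z) = z)
    (hker : ∀ x, fderiv ℝ ρ p (AR A x) = 0) :
    ∃ (Ψ Φ : Cn n → Cn n) (h : (Fin n → ℝ) → (Fin n → ℝ)) (r : ℝ), 0 < r ∧ Ψ 0 = p ∧
      HasStrictFDerivAt Ψ (ContinuousLinearMap.id ℝ (Cn n)) 0 ∧
      (∀ y, ‖y‖ < r → fderiv ℝ ρ p y = 0 → Ψ y ∈ M) ∧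
      ContinuousAt Φ p ∧ Φ p = 0 ∧
      (∀ᶠ z in 𝓝 p, z ∈ M → fderiv ℝ ρ p (Φ z) = 0 ∧ Ψ (Φ z) = z) ∧
      (∀ x, ‖AR A x‖ < r → Ψ (AR A x) = p + A (gr h x)) ∧ h 0 = 0 ∧
      (∀ l : ℝ, 0 < l → ∃ r : ℝ, 0 < r ∧ ∀ x y, ‖x‖ ≤ r → ‖y‖ ≤ r →
        ‖h x - h y‖ ≤ l * ‖x - y‖) := by
  set L := fderiv ℝ ρ p with hL
  have hρp : HasStrictFDerivAt ρ L p :=
    (hρ.contDiffAt (hU.mem_nhds hpU)).hasStrictFDerivAt (by norm_num)
  have hρ0 : ρ p = 0 := by
    have : p ∈ {z ∈ U | ρ z = 0} := by rw [← hM]; exact ⟨hp, hpU⟩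
    exact this.2
  -- right inverse
  obtain ⟨R, hR⟩ : ∃ R : (Fin m → ℝ) →ₗ[ℝ] (Fin n → ℝ),
      ∀ c, L (Complex.I • AR A (R c)) = c := by
    let T : (Fin n → ℝ) →ₗ[ℝ] (Fin m → ℝ) :=
      { toFun := fun b => L (Complex.I • AR A b)
        map_add' := fun a b => by rw [map_add, smul_add, map_add]
        map_smul' := fun c b => by
          rw [(AR A).map_smul, smul_comm Complex.I c, L.map_smul]; rfl }
    have hT : Function.Surjective T := by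
      intro c
      obtain ⟨z, hz⟩ := hsurj c
      obtain ⟨a, b, hab⟩ := decomp A B hAB z
      refine ⟨b, ?_⟩
      rw [← hz, hab, map_add, hker, zero_add]
      rfl
    obtain ⟨R, hR⟩ := LinearMap.exists_rightInverse_of_surjective T (LinearMap.range_eq_top.2 hT)
    exact ⟨R, fun c => LinearMap.congr_fun hR c⟩
  let Rc : (Fin m → ℝ) →L[ℝ] (Fin n → ℝ) := LinearMap.toContinuousLinearMap R
  let S : (Fin m → ℝ) →L[ℝ] Cn n := Complex.I • ((AR A).comp Rc)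
  have hS : ∀ c, S c = Complex.I • AR A (R c) := fun c => rfl
  have hLS : ∀ c, L (S c) = c := fun c => by rw [hS, hR]
  let Φ : Cn n → Cn n := fun z => (z - p) - S (L (z - p)) + S (ρ z)
  have hΦp : Φ p = 0 := by simp [Φ, hρ0]
  have hLΦ : ∀ z, L (Φ z) = ρ z := by
    intro z
    simp only [Φ]
    rw [map_add, map_sub, hLS, hLS, sub_self, zero_add]
  have hΦ : HasStrictFDerivAt Φ
      ((ContinuousLinearEquiv.refl ℝ (Cn n) : Cn n ≃L[ℝ] Cn n) : Cn n →L[ℝ] Cn n) p := by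
    have h1 : HasStrictFDerivAt (fun z : Cn n => z - p) (ContinuousLinearMap.id ℝ (Cn n)) p :=
      (hasStrictFDerivAt_id p).sub_const p
    have h2 : HasStrictFDerivAt (fun z : Cn n => S (L (z - p)))
        ((S.comp L).comp (ContinuousLinearMap.id ℝ (Cn n))) p :=
      (S.comp L).hasStrictFDerivAt.comp p h1
    have h3 : HasStrictFDerivAt (fun z : Cn n => S (ρ z)) (S.comp L) p :=
      S.hasStrictFDerivAt.comp p hρp
    have h4 := (h1.sub h2).add h3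
    have h5 : (ContinuousLinearMap.id ℝ (Cn n) - (S.comp L).comp (ContinuousLinearMap.id ℝ (Cn n))
        + S.comp L) = ((ContinuousLinearEquiv.refl ℝ (Cn n) : Cn n ≃L[ℝ] Cn n) :
          Cn n →L[ℝ] Cn n) := by
      refine ContinuousLinearMap.ext fun z => ?_
      simp
    rw [h5] at h4
    exact h4
  set Ψ := hΦ.localInverse Φ _ p with hΨdef
  have hΨs : HasStrictFDerivAt Ψ (ContinuousLinearMap.id ℝ (Cn n)) 0 := by
    have := hΦ.to_localInverse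
    rw [hΦp] at this
    exact this
  have hΨ0 : Ψ 0 = p := by
    rw [← hΦp]; exact hΦ.localInverse_apply_image
  have hleft : ∀ᶠ z in 𝓝 p, Ψ (Φ z) = z := hΦ.eventually_left_inverse
  have hright : ∀ᶠ y in 𝓝 (0 : Cn n), Φ (Ψ y) = y := by
    have := hΦ.eventually_right_inverse
    rwa [hΦp] at this
  have hΨc : ContinuousAt Ψ 0 := hΨs.continuousAt
  have hΨU : ∀ᶠ y in 𝓝 (0 : Cn n), Ψ y ∈ U :=
    hΨc.eventually_mem (by rw [hΨ0]; exact hU.mem_nhds hpU)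
  obtain ⟨r, hr, hrr⟩ := Metric.eventually_nhds_iff.1 (hright.and hΨU)
  have hrr' : ∀ y : Cn n, ‖y‖ < r → Φ (Ψ y) = y ∧ Ψ y ∈ U := fun y hy =>
    hrr (by rwa [dist_zero_right])
  have hmem : ∀ y, ‖y‖ < r → L y = 0 → Ψ y ∈ M := by
    intro y hy hLy
    obtain ⟨h1, h2⟩ := hrr' y hy
    have h3 : ρ (Ψ y) = 0 := by rw [← hLΦ, h1, hLy]
    have : Ψ y ∈ M ∩ U := by rw [hM]; exact ⟨h2, h3⟩
    exact this.1
  set h : (Fin n → ℝ) → (Fin n → ℝ) := fun x => R (L (Ψ (AR A x) - p)) with hh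
  refine ⟨Ψ, Φ, h, r, hr, hΨ0, hΨs, hmem, hΦ.continuousAt, hΦp, ?_, ?_, ?_, ?_⟩
  · filter_upwards [hleft, hU.mem_nhds hpU] with z hz hzU hzM
    refine ⟨?_, hz⟩
    rw [hLΦ]
    have : z ∈ {z ∈ U | ρ z = 0} := by rw [← hM]; exact ⟨hzM, hzU⟩
    exact this.2
  · intro x hx
    obtain ⟨h1, h2⟩ := hrr' _ hx
    have h3 : ρ (Ψ (AR A x)) = 0 := by rw [← hLΦ, h1, hker]
    rw [A_gr]
    have h4 : Φ (Ψ (AR A x)) = (Ψ (AR A x) - p) - S (L (Ψ (AR A x) - p)) + S (ρ (Ψ (AR A x))) :=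
      rfl
    rw [h1, h3, map_zero, add_zero, hS] at h4
    have h5 : AR A x = Ψ (AR A x) - p - Complex.I • AR A (h x) := h4
    generalize Complex.I • AR A (h x) = Y at h5 ⊢
    generalize Ψ (AR A x) = P at h5 ⊢
    rw [h5]
    abel
  · simp only [hh, map_zero, hΨ0, sub_self]
  · intro l hl
    have hc0 : 0 < l / ((‖Rc‖ * ‖L‖ + 1) * (‖AR A‖ + 1)) := by positivity
    obtain ⟨r', hr', hst⟩ := strict_ball hΨs hc0
    refine ⟨r' / (2 * (‖AR A‖ + 1)), by positivity, fun x y hx hy => ?_⟩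
    have hb : ∀ x : Fin n → ℝ, ‖x‖ ≤ r' / (2 * (‖AR A‖ + 1)) → ‖AR A x‖ < r' := by
      intro x hx
      calc ‖AR A x‖ ≤ ‖AR A‖ * ‖x‖ := (AR A).le_opNorm x
        _ ≤ (‖AR A‖ + 1) * (r' / (2 * (‖AR A‖ + 1))) := by gcongr; linarith
        _ = r' / 2 := by field_simp
        _ < r' := by linarith
    have h1 := hst _ _ (hb x hx) (hb y hy)
    have h2 : h x - h y
        = Rc (L (Ψ (AR A x) - Ψ (AR A y) - (ContinuousLinearMap.id ℝ (Cn n)) (AR A x - AR A y))) := by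
      have e1 : L (AR A x - AR A y) = 0 := by rw [map_sub, hker, hker, sub_zero]
      have e2 : (ContinuousLinearMap.id ℝ (Cn n)) (AR A x - AR A y) = AR A x - AR A y := rfl
      have e3 : Rc (L (Ψ (AR A x) - Ψ (AR A y) - (AR A x - AR A y)))
          = R (L (Ψ (AR A x) - Ψ (AR A y) - (AR A x - AR A y))) := rfl
      rw [e2, e3, map_sub L, e1, sub_zero]
      simp only [hh]
      rw [← map_sub, ← map_sub]
      congr 2
      abel
    rw [h2]
    calc ‖Rc (L _)‖ ≤ ‖Rc‖ * (‖L‖ * (l / ((‖Rc‖ * ‖L‖ + 1) * (‖AR A‖ + 1)) *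
            ‖AR A x - AR A y‖)) := by
          refine (Rc.le_opNorm _).trans ?_
          gcongr
          refine (L.le_opNorm _).trans ?_
          gcongr
      _ ≤ ‖Rc‖ * (‖L‖ * (l / ((‖Rc‖ * ‖L‖ + 1) * (‖AR A‖ + 1)) *
            ((‖AR A‖ + 1) * ‖x - y‖))) := by
          gcongr
          rw [← map_sub]
          refine ((AR A).le_opNorm _).trans ?_
          gcongr
          linarith
      _ = (‖Rc‖ * ‖L‖) / (‖Rc‖ * ‖L‖ + 1) * (l * ‖x - y‖) := by field_simp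
      _ ≤ 1 * (l * ‖x - y‖) := by
          gcongr
          rw [div_le_one (by positivity)]
          linarith
      _ = l * ‖x - y‖ := one_mul _

end H93.PR
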