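import Pool.Agent.H93.PR.Circ

/-!
# Growth of functions with the disc sub-mean value property (Bernstein-Walsh for balls)
-/

open MeasureTheory Set Filter Topology

namespace H93.PR

lemma usc_comp {X Y β : Type*} [TopologicalSpace X] [TopologicalSpace Y] [Preorder β]
    {u : Y → β} (hu : UpperSemicontinuous u) {g : X → Y} (hg : Continuous g) :
    UpperSemicontinuous fun x => u (g x) :=
  fun x _ hy => (hg.tendsto x).eventually (hu (g x) _ hy)

variable {F : Type*} [NormedAddCommGroup F] [NormedSpace ℂ F]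

/-- Real valued, bounded below functions with the sub-mean value property on entire discs. -/
structure DPSH (u : F → ℝ) : Prop where
  usc : UpperSemicontinuous u
  bdd : ∃ b, ∀ z, b ≤ u z
  disc : ∀ f : ℂ → F, Differentiable ℂ f → u (f 0) ≤ ∫ t, u (f t) ∂σ

lemma mean_re : ∫ t : ℂ, t.re ∂σ = 0 := by
  have h := mean_entire (G := fun t : ℂ => t) differentiable_id
  have h2 := integral_re (𝕜 := ℂ) (integrable_cont (g := fun t : ℂ => t) continuous_id)
  rw [h] at h2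
  simpa using h2

lemma mean_re_sq : ∫ t : ℂ, t.re ^ 2 ∂σ = 1 / 2 := by
  have h := mean_entire (G := fun t : ℂ => t ^ 2) (by fun_prop)
  have h2 := integral_re (𝕜 := ℂ) (integrable_cont (g := fun t : ℂ => t ^ 2) (by fun_prop))
  rw [h] at h2
  have h3 : ∀ᵐ t ∂σ, t.re ^ 2 = 1 / 2 * (RCLike.re (t ^ 2) + 1) := by
    filter_upwards [ae_norm] with t ht
    have h4 : t.re ^ 2 + t.im ^ 2 = 1 := by
      have := Complex.sq_norm t
      rw [ht, Complex.normSq_apply] at this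
      nlinarith
    have h5 : (RCLike.re (t ^ 2) : ℝ) = t.re ^ 2 - t.im ^ 2 := by
      simp [sq]
    rw [h5]
    linarith
  have hc : Continuous fun t : ℂ => (RCLike.re (t ^ 2) : ℝ) := by
    exact RCLike.continuous_re.comp (by fun_prop)
  rw [integral_congr_ae h3, integral_const_mul, integral_add (integrable_cont hc)
    (integrable_const _), h2]
  simp

lemma integrable_usc {g : ℂ → ℝ} (hg : UpperSemicontinuous g) {b : ℝ} (hb : ∀ z, b ≤ g z) :
    Integrable g σ := by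
  obtain ⟨C, hC⟩ := (hg.upperSemicontinuousOn _).bddAbove_of_isCompact
    (isCompact_closedBall (0:ℂ) 1)
  refine Integrable.of_bound hg.measurable.aestronglyMeasurable (|C| + |b|) ?_
  filter_upwards [ae_norm] with t ht
  rw [Real.norm_eq_abs, abs_le]
  have h1 : g t ≤ C := hC ⟨t, by simp [ht], rfl⟩
  have h2 := hb t
  have h3 := le_abs_self C
  have h4 := neg_abs_le b
  have h5 := abs_nonneg C
  have h6 := abs_nonneg b
  constructor <;> linarith

/-- Growth estimate. -/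
theorem growth {u : F → ℝ} (hu : DPSH u) {C : ℝ} (hC : ∀ z, u z ≤ Real.log (1 + ‖z‖) + C)
    {δ s : ℝ} (hδ : 0 < δ) (hs : ∀ z, ‖z‖ ≤ δ → u z ≤ s) {z₀ : F} (hz₀ : δ ≤ ‖z₀‖) :
    u z₀ ≤ s + Real.log (‖z₀‖ / δ) := by
  by_contra hneg
  push Not at hneg
  have hz0 : 0 < ‖z₀‖ := lt_of_lt_of_le hδ hz₀
  set v : F := ((‖z₀‖ : ℂ)⁻¹) • z₀ with hv
  have hvn : ‖v‖ = 1 := by
    rw [hv, norm_smul, norm_inv, Complex.norm_real, norm_norm, inv_mul_cancel₀ hz0.ne']
  set x₀ := Real.log δ with hx0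
  set x₁ := Real.log ‖z₀‖ with hx1
  have hlog : Real.log (‖z₀‖ / δ) = x₁ - x₀ := Real.log_div hz0.ne' hδ.ne'
  rw [hlog] at hneg
  have hx01 : x₀ ≤ x₁ := Real.log_le_log hδ hz₀
  obtain ⟨τ, hτ, hτ'⟩ : ∃ τ : ℝ, 0 < τ ∧ s + (1 + τ) * (x₁ - x₀) < u z₀ := by
    refine ⟨(u z₀ - s - (x₁ - x₀)) / (2 * (x₁ - x₀ + 1)), by
      apply div_pos (by linarith) (by linarith), ?_⟩
    set D := u z₀ - s - (x₁ - x₀) with hD
    have hD0 : 0 < D := by rw [hD]; linarith
    have h1 : D / (2 * (x₁ - x₀ + 1)) * (x₁ - x₀) ≤ D / 2 := by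
      rw [div_mul_eq_mul_div, div_le_div_iff₀ (by linarith) (by norm_num)]
      nlinarith
    nlinarith
  -- large X
  obtain ⟨X, hX0, hX1, hX2⟩ : ∃ X : ℝ, 0 ≤ X ∧ x₁ < X ∧
      Real.log 2 + X + C - s - (1 + τ) * (X - x₀) < 0 := by
    refine ⟨max (max 0 (x₁ + 1)) ((|Real.log 2 + C - s + (1 + τ) * x₀| + 1) / τ),
      (le_max_left _ _).trans (le_max_left _ _),
      lt_of_lt_of_le (by linarith) ((le_max_right 0 (x₁ + 1)).trans (le_max_left _ _)), ?_⟩
    set X := max (max 0 (x₁ + 1)) ((|Real.log 2 + C - s + (1 + τ) * x₀| + 1) / τ) with hX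
    have h1 : (|Real.log 2 + C - s + (1 + τ) * x₀| + 1) / τ ≤ X := le_max_right _ _
    rw [div_le_iff₀ hτ] at h1
    have h2 := le_abs_self (Real.log 2 + C - s + (1 + τ) * x₀)
    nlinarith
  set Ψ : ℂ → ℝ := fun ζ => u (Complex.exp ζ • v) - s - (1 + τ) * (ζ.re - x₀) with hΨ
  have hΨusc : UpperSemicontinuous Ψ := by
    have h1 : UpperSemicontinuous fun ζ : ℂ => u (Complex.exp ζ • v) :=
      usc_comp hu.usc (g := fun ζ : ℂ => Complex.exp ζ • v) (by fun_prop)
    have h2 : Continuous fun ζ : ℂ => - s - (1 + τ) * (ζ.re - x₀) := by fun_prop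
    have h3 := h1.add h2.upperSemicontinuous
    refine (iff_of_eq ?_).mpr h3
    congr 1
    funext ζ
    simp only [hΨ]
    ring
  have hexpn : ∀ ζ : ℂ, ‖Complex.exp ζ • v‖ = Real.exp ζ.re := by
    intro ζ; rw [norm_smul, hvn, mul_one, Complex.norm_exp]
  -- reduction modulo the period
  have hper : ∀ ζ : ℂ, ∃ ζ' : ℂ, ζ'.re = ζ.re ∧ ζ'.im ∈ Icc 0 (2 * Real.pi) ∧ Ψ ζ' = Ψ ζ := by
    intro ζ
    obtain ⟨k, hk, -⟩ := existsUnique_add_zsmul_mem_Ico two_pi_pos' ζ.im 0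
    refine ⟨ζ + k * (2 * Real.pi * Complex.I), by simp, ?_, ?_⟩
    · simp only [zsmul_eq_mul, zero_add] at hk
      have : (ζ + k * (2 * Real.pi * Complex.I)).im = ζ.im + k * (2 * Real.pi) := by simp
      rw [this]
      exact ⟨hk.1, hk.2.le⟩
    · simp only [hΨ]
      rw [Complex.exp_periodic.int_mul k ζ]
      simp
  set S : Set ℂ := Icc x₀ X ×ℂ Icc 0 (2 * Real.pi) with hS
  have hScomp : IsCompact S := isCompact_Icc.reProdIm isCompact_Icc
  set ζ₁ : ℂ := ((x₁ : ℝ) : ℂ) with hζ₁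
  have hΨ1 : 0 < Ψ ζ₁ := by
    have : Complex.exp ζ₁ • v = z₀ := by
      rw [hζ₁, ← Complex.ofReal_exp, hx1, Real.exp_log hz0, hv, smul_smul,
        mul_inv_cancel₀ (by exact_mod_cast hz0.ne'), one_smul]
    have h2 : Ψ ζ₁ = u (Complex.exp ζ₁ • v) - s - (1 + τ) * (x₁ - x₀) := by
      simp [hΨ, hζ₁]
    rw [h2, this]
    linarith
  have hζ₁S : ζ₁ ∈ S := by
    rw [hS, Complex.mem_reProdIm]
    refine ⟨⟨by simpa [hζ₁] using hx01, by simpa [hζ₁] using hX1.le⟩, ?_⟩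
    simp [hζ₁, two_pi_pos'.le, Real.pi_pos.le]
  obtain ⟨ζ₂, hζ₂S, hζ₂⟩ := UpperSemicontinuousOn.exists_isMaxOn ⟨ζ₁, hζ₁S⟩ hScomp
    (hΨusc.upperSemicontinuousOn S)
  set T : Set ℂ := S ∩ {ζ | Ψ ζ₂ ≤ Ψ ζ} with hT
  have hTcomp : IsCompact T := by
    refine hScomp.inter_right ?_
    exact hΨusc.isClosed_preimage (Ψ ζ₂)
  obtain ⟨ζ, hζT, hζmin⟩ := hTcomp.exists_isMinOn ⟨ζ₂, hζ₂S, le_refl (Ψ ζ₂)⟩
    (f := fun ζ : ℂ => ζ.re) (by fun_prop)
  have hζmax : ∀ ξ : ℂ, ξ.re ∈ Icc x₀ X → Ψ ξ ≤ Ψ ζ := by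
    intro ξ hξ
    obtain ⟨ξ', h1, h2, h3⟩ := hper ξ
    rw [← h3]
    refine le_trans (hζ₂ ?_) hζT.2
    rw [hS, Complex.mem_reProdIm, h1]
    exact ⟨hξ, h2⟩
  have hζlt : ∀ ξ : ℂ, ξ.re ∈ Icc x₀ X → ξ.re < ζ.re → Ψ ξ < Ψ ζ := by
    intro ξ hξ hlt
    refine lt_of_le_of_ne (hζmax ξ hξ) fun heq => ?_
    obtain ⟨ξ', h1, h2, h3⟩ := hper ξ
    have h4 : ξ' ∈ T := by
      refine ⟨?_, ?_⟩
      · rw [hS, Complex.mem_reProdIm, h1]
        exact ⟨hξ, h2⟩
      · change Ψ ζ₂ ≤ Ψ ξ'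
        rw [h3, heq]
        exact hζT.2
    have h5 : ζ.re ≤ ξ'.re := hζmin h4
    linarith
  have hζpos : 0 < Ψ ζ := lt_of_lt_of_le hΨ1 (hζmax ζ₁ (by
    rw [hS, Complex.mem_reProdIm] at hζ₁S; exact hζ₁S.1))
  have hζS : ζ.re ∈ Icc x₀ X := by
    have := hζT.1
    rw [hS, Complex.mem_reProdIm] at this
    exact this.1
  have hgt : x₀ < ζ.re := by
    refine lt_of_le_of_ne hζS.1 fun heq => ?_
    have h1 : Ψ ζ ≤ 0 := by
      simp only [hΨ, ← heq, sub_self, mul_zero, sub_zero]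
      have : ‖Complex.exp ζ • v‖ ≤ δ := by
        rw [hexpn, ← heq, hx0, Real.exp_log hδ]
      linarith [hs _ this]
    linarith
  have hlt : ζ.re < X := by
    refine lt_of_le_of_ne hζS.2 fun heq => ?_
    have h1 : u (Complex.exp ζ • v) ≤ Real.log 2 + X + C := by
      refine (hC _).trans ?_
      rw [hexpn, heq]
      have h2 : Real.log (1 + Real.exp X) ≤ Real.log (2 * Real.exp X) := by
        refine Real.log_le_log (by positivity) ?_
        have := Real.one_le_exp hX0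
        linarith
      rw [Real.log_mul (by norm_num) (Real.exp_pos X).ne', Real.log_exp] at h2
      linarith
    have h2 : Ψ ζ < 0 := by
      simp only [hΨ, heq]
      linarith
    linarith
  -- small disc
  obtain ⟨r, hr, hr1, hr2⟩ : ∃ r : ℝ, 0 < r ∧ x₀ ≤ ζ.re - r ∧ ζ.re + r ≤ X :=
    ⟨min (ζ.re - x₀) (X - ζ.re), lt_min (by linarith) (by linarith),
      by linarith [min_le_left (ζ.re - x₀) (X - ζ.re)],
      by linarith [min_le_right (ζ.re - x₀) (X - ζ.re)]⟩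
  obtain ⟨b, hb⟩ := hu.bdd
  have hd := hu.disc (fun t : ℂ => Complex.exp (ζ + r * t) • v) (by fun_prop)
  have hIu : Integrable (fun t : ℂ => u (Complex.exp (ζ + r * t) • v)) σ :=
    integrable_usc (usc_comp hu.usc (g := fun t : ℂ => Complex.exp (ζ + r * t) • v) (by fun_prop)) (b := b) (fun t => hb _)
  have hre : ∀ t : ℂ, (ζ + r * t).re = ζ.re + r * t.re := by intro t; simp
  have hIre : Integrable (fun t : ℂ => t.re) σ := integrable_cont (by fun_prop)
  have hIΨ : Integrable (fun t : ℂ => Ψ ζ - Ψ (ζ + r * t)) σ := by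
    refine (integrable_const _).sub ?_
    simp only [hΨ]
    exact (hIu.sub (integrable_const _)).sub (integrable_cont (by fun_prop))
  have hint : ∫ t : ℂ, (Ψ ζ - Ψ (ζ + r * t)) ∂σ ≤ 0 := by
    have h1 : ∫ t : ℂ, (Ψ ζ - Ψ (ζ + r * t)) ∂σ
        = u (Complex.exp ζ • v) - ∫ t : ℂ, u (Complex.exp (ζ + r * t) • v) ∂σ := by
      have h2 : (fun t : ℂ => Ψ ζ - Ψ (ζ + r * t))
          = fun t : ℂ => (u (Complex.exp ζ • v) - u (Complex.exp (ζ + r * t) • v))
            + ((1 + τ) * r) * t.re := by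
        funext t
        simp only [hΨ, hre]
        ring
      have hA : Integrable (fun t : ℂ =>
          u (Complex.exp ζ • v) - u (Complex.exp (ζ + r * t) • v)) σ :=
        (integrable_const _).sub hIu
      have hB : Integrable (fun t : ℂ => ((1 + τ) * r) * t.re) σ := hIre.const_mul _
      rw [h2, integral_add hA hB, integral_sub (integrable_const _) hIu, integral_const_mul,
        mean_re]
      simp
    rw [h1]
    simp only [mul_zero, add_zero] at hd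
    linarith
  have hnn : 0 ≤ᵐ[σ] fun t : ℂ => Ψ ζ - Ψ (ζ + r * t) := by
    filter_upwards [ae_norm] with t ht
    have h1 := Complex.abs_re_le_norm t
    rw [ht, abs_le] at h1
    have h2 : Ψ (ζ + r * t) ≤ Ψ ζ := by
      refine hζmax _ ?_
      rw [hre]
      constructor <;> nlinarith
    simpa using h2
  have hzero : (fun t : ℂ => Ψ ζ - Ψ (ζ + r * t)) =ᵐ[σ] 0 := by
    rw [← integral_eq_zero_iff_of_nonneg_ae hnn hIΨ]
    exact le_antisymm hint (integral_nonneg_of_ae hnn)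
  have hrepos : 0 ≤ᵐ[σ] fun t : ℂ => t.re := by
    filter_upwards [hzero, ae_norm] with t h0 ht
    by_contra hneg
    have hneg' : t.re < 0 := not_le.1 hneg
    have h1 := Complex.abs_re_le_norm t
    rw [ht, abs_le] at h1
    have h2 : Ψ (ζ + r * t) < Ψ ζ := by
      refine hζlt _ ?_ ?_
      · rw [hre]
        constructor <;> nlinarith
      · rw [hre]
        nlinarith
    have h3 : Ψ ζ - Ψ (ζ + r * t) = 0 := h0
    linarith
  have hre0 : (fun t : ℂ => t.re) =ᵐ[σ] 0 := by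
    rw [← integral_eq_zero_iff_of_nonneg_ae hrepos hIre]
    exact mean_re
  have h1 : ∫ t : ℂ, t.re ^ 2 ∂σ = 0 := by
    rw [integral_congr_ae (g := fun _ => (0:ℝ))]
    · simp
    · filter_upwards [hre0] with t ht
      have : t.re = 0 := ht
      rw [this]; simp
  rw [mean_re_sq] at h1
  norm_num at h1

end H93.PR
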