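import Pool.Agent.H93.PR.Circ

/-!
# Smooth functions: the sub-mean value property on lines implies the one on entire discs
-/

open MeasureTheory Set Filter Topology

namespace H93.PR

/-- `c` is the second derivative at `0` of `t ↦ g (z + t a)` -/
def HasH {F : Type*} [AddCommGroup F] [Module ℝ F] (g : F → ℝ) (z a : F) (c : ℝ) : Prop :=
  ∃ g' : ℝ → ℝ, (∀ᶠ t in 𝓝 (0:ℝ), HasDerivAt (fun t : ℝ => g (z + t • a)) (g' t) t) ∧
    HasDerivAt g' c 0

section
variable {F : Type*} [AddCommGroup F] [Module ℝ F] {g k : F → ℝ} {z a : F} {c d : ℝ}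

lemma HasH.add (h1 : HasH g z a c) (h2 : HasH k z a d) : HasH (fun x => g x + k x) z a (c + d) := by
  obtain ⟨g', h1, h1'⟩ := h1
  obtain ⟨k', h2, h2'⟩ := h2
  refine ⟨fun t => g' t + k' t, ?_, h1'.add h2'⟩
  filter_upwards [h1, h2] with t h1 h2 using h1.add h2

lemma HasH.const_mul (r : ℝ) (h1 : HasH g z a c) : HasH (fun x => r * g x) z a (r * c) := by
  obtain ⟨g', h1, h1'⟩ := h1
  refine ⟨fun t => r * g' t, ?_, h1'.const_mul r⟩
  filter_upwards [h1] with t h1 using h1.const_mul r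

lemma HasH.nonpos_of_max (h : HasH g z a c) (hm : ∀ᶠ t in 𝓝 (0:ℝ), g (z + t • a) ≤ g z) :
    c ≤ 0 := by
  obtain ⟨g', h1, h1'⟩ := h
  by_contra hc
  push Not at hc
  set h : ℝ → ℝ := fun t => g (z + t • a) with hh
  have h0 : h 0 = g z := by simp [hh]
  have hmax : IsLocalMax h 0 := by
    filter_upwards [hm] with t ht
    rw [h0]; exact ht
  have hd : deriv h =ᶠ[𝓝 0] g' := by
    filter_upwards [h1] with t ht using ht.deriv
  have hdd : deriv (deriv h) 0 = c := by
    rw [hd.deriv_eq]; exact h1'.deriv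
  have hmin : IsLocalMin h 0 := by
    refine isLocalMin_of_deriv_deriv_pos (by rw [hdd]; exact hc) hmax.deriv_eq_zero ?_
    exact h1.self_of_nhds.continuousAt
  have hconst : h =ᶠ[𝓝 0] fun _ => h 0 := by
    filter_upwards [hmax, hmin] with t h1 h2 using le_antisymm h1 h2
  have : deriv (deriv h) 0 = 0 := by
    have h3 : deriv h =ᶠ[𝓝 0] fun _ => 0 := by
      refine hconst.deriv.trans (Eventually.of_forall fun t => by simp)
    rw [h3.deriv_eq]; simp
  linarith

end

lemma hasH_comp {F : Type*} [NormedAddCommGroup F] [NormedSpace ℂ F] [CompleteSpace F]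
    {v : F → ℝ} (hv : ContDiff ℝ 2 v) {f : ℂ → F} (hf : Differentiable ℂ f) (ζ a : ℂ) :
    HasH (fun ζ => v (f ζ)) ζ a
      (fderiv ℝ (fderiv ℝ v) (f ζ) (a • deriv f ζ) (a • deriv f ζ) +
        fderiv ℝ v (f ζ) ((a * a) • deriv (deriv f) ζ)) := by
  have hline : ∀ t : ℝ, HasDerivAt (fun t : ℝ => ζ + t • a) a t := by
    intro t
    have := ((hasDerivAt_id t).smul_const a).const_add ζ
    simpa using this
  have hf2 : Differentiable ℂ (deriv f) := hf.deriv
  have h1 : ∀ t : ℝ, HasDerivAt (fun t : ℝ => f (ζ + t • a)) (a • deriv f (ζ + t • a)) t := by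
    intro t
    exact HasDerivAt.scomp (g₁ := f) t (hf (ζ + t • a)).hasDerivAt (hline t)
  have h2 : ∀ t : ℝ, HasDerivAt (fun t : ℝ => deriv f (ζ + t • a))
      (a • deriv (deriv f) (ζ + t • a)) t := by
    intro t
    exact HasDerivAt.scomp (g₁ := deriv f) t (hf2 (ζ + t • a)).hasDerivAt (hline t)
  have hv1 : Differentiable ℝ v := hv.differentiable (by norm_num)
  have hv2 : Differentiable ℝ (fderiv ℝ v) :=
    (hv.fderiv_right (m := 1) (by norm_num)).differentiable (by norm_num)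
  refine ⟨fun t => fderiv ℝ v (f (ζ + t • a)) (a • deriv f (ζ + t • a)), ?_, ?_⟩
  · refine Eventually.of_forall fun t => ?_
    exact (hv1 (f (ζ + t • a))).hasFDerivAt.comp_hasDerivAt t (h1 t)
  · have e1 : HasDerivAt (fun t : ℝ => fderiv ℝ v (f (ζ + t • a)))
        (fderiv ℝ (fderiv ℝ v) (f (ζ + (0:ℝ) • a)) (a • deriv f (ζ + (0:ℝ) • a))) 0 :=
      (hv2 (f (ζ + (0:ℝ) • a))).hasFDerivAt.comp_hasDerivAt 0 (h1 0)
    have e2 : HasDerivAt (fun t : ℝ => a • deriv f (ζ + t • a))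
        (a • (a • deriv (deriv f) (ζ + (0:ℝ) • a))) 0 := (h2 0).const_smul a
    have := e1.clm_apply e2
    simpa [smul_smul] using this

lemma hasH_normSq (ζ a : ℂ) : HasH (fun ζ : ℂ => ‖ζ‖ ^ 2) ζ a (2 * ‖a‖ ^ 2) := by
  have hline : ∀ t : ℝ, HasDerivAt (fun t : ℝ => ζ + t • a) a t := by
    intro t
    have := ((hasDerivAt_id t).smul_const a).const_add ζ
    simpa using this
  refine ⟨fun t => 2 * inner ℝ (ζ + t • a) a, ?_, ?_⟩
  · exact Eventually.of_forall fun t => (hline t).norm_sq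
  · have h := ((hline 0).inner ℝ (hasDerivAt_const (0:ℝ) a)).const_mul 2
    simpa using h

/-- Sub-mean value property of `C²` functions with nonnegative Laplacian. -/
lemma submean_of_lap {g : ℂ → ℝ} (hg : Continuous g)
    (hl : ∀ ζ : ℂ, ‖ζ‖ < 1 → ∃ c d, HasH g ζ 1 c ∧ HasH g ζ Complex.I d ∧ 0 ≤ c + d) :
    g 0 ≤ ∫ z, g z ∂σ := by
  refine le_of_forall_pos_le_add fun ε hε => ?_
  obtain ⟨Q, hQ, hQg⟩ := approx_re hg (show 0 < ε / 4 by linarith)
  -- maximum principle for k = g - Re Q + (ε/4)|ζ|²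
  set k : ℂ → ℝ := fun ζ => g ζ + (-1) * (Q ζ).re + (ε / 4) * ‖ζ‖ ^ 2 with hk
  have hQc : Continuous Q := hQ.continuous
  have hkc : Continuous k := by fun_prop
  obtain ⟨ζ₀, hζ₀, hmax⟩ := (isCompact_closedBall (0:ℂ) 1).exists_isMaxOn
    ⟨0, by simp⟩ hkc.continuousOn
  have hk0 : k 0 ≤ k ζ₀ := hmax (by simp)
  have hbd : ‖ζ₀‖ = 1 := by
    by_contra hne
    have hlt : ‖ζ₀‖ < 1 := lt_of_le_of_ne (by simpa using hζ₀) hne
    obtain ⟨c, d, hc, hd, hcd⟩ := hl ζ₀ hlt
    have hloc : ∀ a : ℂ, ∀ᶠ t in 𝓝 (0:ℝ), k (ζ₀ + t • a) ≤ k ζ₀ := by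
      intro a
      have hcont : Continuous fun t : ℝ => ζ₀ + t • a := by fun_prop
      have : ∀ᶠ t in 𝓝 (0:ℝ), ζ₀ + t • a ∈ Metric.ball (0:ℂ) 1 := by
        refine hcont.continuousAt.eventually_mem ?_
        simpa using Metric.isOpen_ball.mem_nhds (show ζ₀ ∈ Metric.ball (0:ℂ) 1 by simpa using hlt)
      filter_upwards [this] with t ht
      exact hmax (Metric.ball_subset_closedBall ht)
    have hQH : ∀ a : ℂ, HasH (fun ζ => (Q ζ).re) ζ₀ a (((a * a) • deriv (deriv Q) ζ₀).re) := by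
      intro a
      have := hasH_comp (v := fun z : ℂ => z.re) (Complex.reCLM.contDiff) hQ ζ₀ a
      have e1 : fderiv ℝ (fun z : ℂ => z.re) = fun _ => Complex.reCLM := by
        funext x; exact Complex.reCLM.fderiv
      rw [e1] at this
      simpa using this
    have H1 := (((hc.add ((hQH 1).const_mul (-1))).add ((hasH_normSq ζ₀ 1).const_mul (ε/4))))
      |>.nonpos_of_max (hloc 1)
    have H2 := (((hd.add ((hQH Complex.I).const_mul (-1))).add
      ((hasH_normSq ζ₀ Complex.I).const_mul (ε/4)))) |>.nonpos_of_max (hloc Complex.I)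
    simp at H1 H2
    linarith
  have h1 : k ζ₀ ≤ ε / 2 := by
    have := (abs_le.1 (hQg ζ₀ hbd)).1
    simp only [hk, hbd]
    linarith
  have h2 : g 0 ≤ (Q 0).re + ε / 2 := by
    simp only [hk] at hk0 h1
    simp at hk0
    linarith
  have h3 : (Q 0).re = ∫ z, (Q z).re ∂σ := by
    rw [← mean_entire hQ]
    exact (integral_re (integrable_cont hQc)).symm
  have h4 : ∫ z, (Q z).re ∂σ ≤ ∫ z, (g z + ε / 4) ∂σ := by
    refine integral_mono_ae (integrable_cont (by fun_prop)) (integrable_cont (by fun_prop)) ?_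
    filter_upwards [ae_norm] with z hz
    have := (abs_le.1 (hQg z hz)).2
    linarith
  rw [integral_add (integrable_cont hg) (integrable_const _)] at h4
  simp at h4
  linarith

section smooth
variable {F : Type*} [NormedAddCommGroup F] [NormedSpace ℂ F] [CompleteSpace F]

lemma levi_nonneg {v : F → ℝ} (hv : ContDiff ℝ 2 v)
    (hs : ∀ z w, v z ≤ ∫ t, v (z + t • w) ∂σ) (z w : F) :
    0 ≤ fderiv ℝ (fderiv ℝ v) z w w
      + fderiv ℝ (fderiv ℝ v) z (Complex.I • w) (Complex.I • w) := by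
  by_contra hneg
  push Not at hneg
  have hD : Continuous (fderiv ℝ (fderiv ℝ v)) := by
    have h1 : ContDiff ℝ 1 (fderiv ℝ v) := hv.fderiv_right (by norm_num)
    exact h1.continuous_fderiv (by norm_num)
  set L : ℂ → ℝ := fun ζ => fderiv ℝ (fderiv ℝ v) (z + ζ • w) w w
    + fderiv ℝ (fderiv ℝ v) (z + ζ • w) (Complex.I • w) (Complex.I • w) with hL
  have hLc : Continuous L := by
    have h1 : Continuous fun ζ : ℂ => fderiv ℝ (fderiv ℝ v) (z + ζ • w) :=
      hD.comp (by fun_prop)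
    exact ((h1.clm_apply continuous_const).clm_apply continuous_const).add
      ((h1.clm_apply continuous_const).clm_apply continuous_const)
  have hL0 : L 0 < 0 := by simpa [hL] using hneg
  obtain ⟨κ, hκ, hκL⟩ : ∃ κ : ℝ, 0 < κ ∧ L 0 < -κ := ⟨-(L 0) / 2, by linarith, by linarith⟩
  obtain ⟨r, hr, hrL⟩ := Metric.eventually_nhds_iff_ball.1 (hLc.continuousAt.eventually_lt
    (continuousAt_const (y := -κ)) hκL)
  -- use radius r / 2
  set ρ : ℝ := r / 2 with hρ
  have hρ0 : 0 < ρ := by positivity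
  set f : ℂ → F := fun ζ => z + ζ • (ρ • w) with hf
  have hfd : Differentiable ℂ f := by fun_prop
  have hf' : deriv f = fun _ => ρ • w := by
    funext ζ
    have h1 := ((hasDerivAt_id ζ).smul_const (ρ • w)).const_add z
    rw [one_smul] at h1
    exact h1.deriv
  have hf'' : deriv (deriv f) = fun _ => 0 := by
    rw [hf']; funext ζ; simp
  have hvc : Continuous v := hv.continuous
  have hfc : Continuous f := hfd.continuous
  have key := submean_of_lap (g := fun ζ => (-1) * v (f ζ) + (-(κ * ρ ^ 2 / 4)) * ‖ζ‖ ^ 2)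
    (by fun_prop) (fun ζ hζ => ?_)
  · rw [integral_add (integrable_cont (by fun_prop)) (integrable_cont (by fun_prop)),
      integral_const_mul, integral_const_mul] at key
    have h1 : ∫ z, ‖z‖ ^ 2 ∂σ = 1 := by
      rw [integral_congr_ae (g := fun _ => (1:ℝ))]
      · simp
      · filter_upwards [ae_norm] with z hz; simp [hz]
    rw [h1] at key
    have h2 := hs z (ρ • w)
    simp only [hf] at key
    simp at key
    have : 0 < κ * ρ ^ 2 / 4 := by positivity
    linarith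
  · have e1 := hasH_comp hv hfd ζ 1
    have e2 := hasH_comp hv hfd ζ Complex.I
    have e1' := (e1.const_mul (-1)).add ((hasH_normSq ζ 1).const_mul (-(κ * ρ ^ 2 / 4)))
    have e2' := (e2.const_mul (-1)).add ((hasH_normSq ζ Complex.I).const_mul (-(κ * ρ ^ 2 / 4)))
    refine ⟨_, _, e1', e2', ?_⟩
    rw [hf'', hf']
    have hfζ : f ζ = z + (ρ * ζ) • w := by
      simp only [hf, mul_comm (ρ : ℂ) ζ, mul_smul]
      simp
    have hLζ : L (ρ * ζ) < -κ := by
      refine hrL (ρ * ζ) ?_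
      rw [mem_ball_zero_iff, norm_mul, Complex.norm_real, Real.norm_of_nonneg hρ0.le]
      calc ρ * ‖ζ‖ ≤ ρ * 1 := by gcongr
        _ < r := by rw [hρ]; linarith
    simp only [hL] at hLζ
    rw [← hfζ] at hLζ
    have hq : ∀ x : F, fderiv ℝ (fderiv ℝ v) (f ζ) (ρ • x) (ρ • x)
        = ρ ^ 2 * fderiv ℝ (fderiv ℝ v) (f ζ) x x := by
      intro x
      rw [map_smul, map_smul, smul_apply, smul_eq_mul, smul_eq_mul]
      ring
    have c1 : fderiv ℝ (fderiv ℝ v) (f ζ) ((1:ℂ) • (ρ • w)) ((1:ℂ) • (ρ • w))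
        = ρ ^ 2 * fderiv ℝ (fderiv ℝ v) (f ζ) w w := by
      rw [one_smul, hq]
    have c2 : fderiv ℝ (fderiv ℝ v) (f ζ) (Complex.I • (ρ • w)) (Complex.I • (ρ • w))
        = ρ ^ 2 * fderiv ℝ (fderiv ℝ v) (f ζ) (Complex.I • w) (Complex.I • w) := by
      rw [smul_comm Complex.I ρ w, hq]
    rw [c1, c2]
    simp only [norm_one, Complex.norm_I, smul_zero, map_zero, add_zero]
    nlinarith [sq_nonneg ρ, pow_pos hρ0 2]

/-- For `C²` functions the sub-mean value inequality on complex lines implies the one along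
entire discs. -/
theorem disc_of_smooth {v : F → ℝ} (hv : ContDiff ℝ 2 v)
    (hs : ∀ z w, v z ≤ ∫ t, v (z + t • w) ∂σ) {f : ℂ → F} (hf : Differentiable ℂ f) :
    v (f 0) ≤ ∫ t, v (f t) ∂σ := by
  have hvc : Continuous v := hv.continuous
  have hfc : Continuous f := hf.continuous
  refine submean_of_lap (g := fun ζ => v (f ζ)) (by fun_prop) (fun ζ _ => ?_)
  refine ⟨_, _, hasH_comp hv hf ζ 1, hasH_comp hv hf ζ Complex.I, ?_⟩
  have h := levi_nonneg hv hs (f ζ) (deriv f ζ)
  rw [one_smul, one_mul, one_smul, Complex.I_mul_I, neg_smul, one_smul, map_neg]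
  linarith

end smooth

end H93.PR
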