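import Pool.Agent.H93.PR.Reg

/-!
# Local regularity from a curved cone over `ℝⁿ` contained in the set
-/

open MeasureTheory Set Filter Topology

namespace H93.PR

variable {n : ℕ}

/-- In suitable affine coordinates at `p` the set `E` contains the graph, over a cone with vertex
`0` in `ℝⁿ`, of a map whose Lipschitz constant tends to zero at `0`. -/
def LocData (E : Set (Cn n)) (p : Cn n) : Prop :=
  ∃ (A : (Fin n → ℂ) →L[ℂ] Cn n) (B : Cn n →L[ℂ] (Fin n → ℂ)), (∀ z, A (B z) = z) ∧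
    ∃ (e : Fin n → ℝ) (c : ℝ) (h : (Fin n → ℝ) → (Fin n → ℝ)) (r₀ : ℝ), 0 < c ∧ h 0 = 0 ∧
      (∀ l : ℝ, 0 < l → ∃ r : ℝ, 0 < r ∧ ∀ x y, ‖x‖ ≤ r → ‖y‖ ≤ r → ‖h x - h y‖ ≤ l * ‖x - y‖) ∧
      0 < r₀ ∧ ∀ ρ : ℝ, 0 < ρ → ρ ≤ r₀ → ∀ x, ‖x - ρ • e‖ ≤ c * ρ → p + A (gr h x) ∈ E

lemma LocData.normalise {E : Set (Cn n)} {p : Cn n} (hd : LocData E p) :
  ∃ (A : (Fin n → ℂ) →L[ℂ] Cn n) (B : Cn n →L[ℂ] (Fin n → ℂ)), (∀ z, A (B z) = z) ∧
    ∃ (e : Fin n → ℝ) (c : ℝ) (h : (Fin n → ℝ) → (Fin n → ℝ)) (r₀ : ℝ), (∀ j, |e j| ≤ 1) ∧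
      0 < c ∧ c ≤ 1 ∧ h 0 = 0 ∧
      (∀ l : ℝ, 0 < l → ∃ r : ℝ, 0 < r ∧ ∀ x y, ‖x‖ ≤ r → ‖y‖ ≤ r → ‖h x - h y‖ ≤ l * ‖x - y‖) ∧
      0 < r₀ ∧ ∀ ρ : ℝ, 0 < ρ → ρ ≤ r₀ → ∀ x, ‖x - ρ • e‖ ≤ c * ρ → p + A (gr h x) ∈ E := by
  obtain ⟨A, B, hAB, e, c, h, r₀, hc, h0, hl, hr₀, hE⟩ := hd
  set s : ℝ := max 1 ‖e‖ with hs
  have hs1 : 1 ≤ s := le_max_left _ _
  have hs0 : 0 < s := by linarith
  refine ⟨A, B, hAB, s⁻¹ • e, min 1 (c / s), h, r₀, fun j => ?_, lt_min one_pos (by positivity),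
    min_le_left _ _, h0, hl, hr₀, fun ρ h1 h2 x hx => ?_⟩
  · rw [Pi.smul_apply, smul_eq_mul, abs_mul, abs_of_pos (inv_pos.2 hs0), inv_mul_le_iff₀ hs0,
      mul_one]
    exact (norm_le_pi_norm e j).trans (le_max_right _ _)
  · refine hE (ρ / s) (by positivity) ?_ x ?_
    · exact (div_le_self h1.le hs1).trans h2
    · have e1 : ρ • s⁻¹ • e = (ρ / s) • e := by rw [smul_smul, div_eq_mul_inv]
      rw [e1] at hx
      refine hx.trans ?_
      calc min 1 (c / s) * ρ ≤ c / s * ρ := by gcongr; exact min_le_right _ _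
        _ = c * (ρ / s) := by ring

theorem LocData.loc {E : Set (Cn n)} {p : Cn n} (hd : LocData E p) : Loc E p := by
  obtain ⟨A, B, hAB, e, c, h, r₀, he, hc, hc1, h0, hl, hr₀, hE⟩ := hd.normalise
  intro ε hε
  obtain ⟨δ, hδ, l, hl0, key⟩ := local_main n hc hc1 hε
  obtain ⟨r₁, hr₁, hh⟩ := hl l hl0
  set r : ℝ := min (r₁ / 4) (r₀ / 2) with hr
  have hr0 : 0 < r := lt_min (by positivity) (by positivity)
  have hra : r ≤ r₁ / 4 := min_le_left _ _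
  have hrb : r ≤ r₀ / 2 := min_le_right _ _
  set hr' : (Fin n → ℝ) → (Fin n → ℝ) := fun x => r⁻¹ • h (r • x) with hhr'
  have hlip : LipschitzOnWith (Real.toNNReal l) hr' (Metric.closedBall 0 4) := by
    refine LipschitzOnWith.of_dist_le_mul fun x hx y hy => ?_
    rw [mem_closedBall_zero_iff] at hx hy
    rw [dist_eq_norm, dist_eq_norm, Real.coe_toNNReal l hl0.le, hhr']
    simp only
    rw [← smul_sub, norm_smul, norm_inv, Real.norm_of_nonneg hr0.le, inv_mul_le_iff₀ hr0]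
    have hb : ∀ x : Fin n → ℝ, ‖x‖ ≤ 4 → ‖r • x‖ ≤ r₁ := by
      intro x hx
      rw [norm_smul, Real.norm_of_nonneg hr0.le]
      calc r * ‖x‖ ≤ r₁ / 4 * 4 := by gcongr
        _ = r₁ := by ring
    refine (hh _ _ (hb x hx) (hb y hy)).trans (le_of_eq ?_)
    rw [← smul_sub, norm_smul, Real.norm_of_nonneg hr0.le]
    ring
  obtain ⟨H, hHl, hHeq⟩ := hlip.extend_pi
  have hH0 : H 0 = 0 := by
    rw [← hHeq (by simp : (0 : Fin n → ℝ) ∈ Metric.closedBall 0 4)]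
    simp [hhr', h0]
  have hHl' : ∀ x y j, |H x j - H y j| ≤ l * ‖x - y‖ := by
    intro x y j
    have h1 := hHl.dist_le_mul x y
    rw [dist_eq_norm, dist_eq_norm, Real.coe_toNNReal l hl0.le] at h1
    exact (norm_le_pi_norm (H x - H y) j).trans h1
  refine ⟨r * δ / (‖B‖ + 1), by positivity, fun u hu huE z hz => ?_⟩
  have hk := key e he H hHl.continuous hHl' hH0 (fun z => u (p + ((r : ℂ) • A) z))
    (hu.dpsh p ((r : ℂ) • A)) (hu.dpsh_growth p ((r : ℂ) • A)) ?_ ((r : ℂ)⁻¹ • B (z - p)) ?_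
  · have hrC : (r : ℂ) ≠ 0 := by exact_mod_cast hr0.ne'
    have h2 : p + ((r : ℂ) • A) ((r : ℂ)⁻¹ • B (z - p)) = z := by
      rw [smul_apply, map_smul, smul_smul, mul_inv_cancel₀ hrC, one_smul, hAB]
      abel
    rwa [h2] at hk
  · intro ρ hρ hρ2 x hx
    have hen : ‖e‖ ≤ 1 := (pi_norm_le_iff_of_nonneg zero_le_one).2 he
    have hxn : ‖x‖ ≤ 4 := by
      calc ‖x‖ = ‖(x - ρ • e) + ρ • e‖ := by rw [sub_add_cancel]
        _ ≤ ‖x - ρ • e‖ + ‖ρ • e‖ := norm_add_le _ _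
        _ ≤ c * ρ + ρ * 1 := by
            rw [norm_smul, Real.norm_of_nonneg hρ.le]
            gcongr
        _ ≤ 4 := by nlinarith
    have hHx : H x = r⁻¹ • h (r • x) := by
      rw [← hHeq (by simpa using hxn : x ∈ Metric.closedBall 0 4)]
    have h2 : ((r : ℂ) • A) (gr H x) = A (gr h (r • x)) := by
      rw [smul_apply, ← map_smul]
      congr 1
      funext j
      simp only [gr, hHx, Pi.smul_apply, smul_eq_mul]
      have hrC : (r : ℂ) ≠ 0 := by exact_mod_cast hr0.ne'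
      push_cast
      field_simp
    rw [h2]
    refine huE _ (hE (r * ρ) (by positivity) ?_ (r • x) ?_)
    · calc r * ρ ≤ r₀ / 2 * 2 := by gcongr
        _ = r₀ := by ring
    · rw [mul_smul, ← smul_sub, norm_smul, Real.norm_of_nonneg hr0.le]
      calc r * ‖x - ρ • e‖ ≤ r * (c * ρ) := by gcongr
        _ = c * (r * ρ) := by ring
  · rw [norm_smul, norm_inv, Complex.norm_real, Real.norm_of_nonneg hr0.le, inv_mul_le_iff₀ hr0]
    calc ‖B (z - p)‖ ≤ ‖B‖ * ‖z - p‖ := B.le_opNorm _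
      _ ≤ (‖B‖ + 1) * (r * δ / (‖B‖ + 1)) := by gcongr; linarith
      _ = r * δ := by field_simp

end H93.PR
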