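import Pool.Agent.H93.PR.Circ

/-!
# A tent function on a small arc of the circle
-/

open MeasureTheory Set Filter Topology

namespace H93.PR

lemma σ_real {S : Set ℂ} (hS : MeasurableSet S) :
    σ.real S = (2 * Real.pi)⁻¹ * volume.real (circleMap 0 1 ⁻¹' S ∩ Ioc 0 (2 * Real.pi)) := by
  have hm : Measurable (circleMap 0 1) := (continuous_circleMap 0 1).measurable
  unfold σ Measure.real
  rw [Measure.map_apply hm hS, Measure.smul_apply, Measure.restrict_apply (hm hS), smul_eq_mul,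
    ENNReal.toReal_mul, ENNReal.toReal_inv, ENNReal.toReal_ofReal two_pi_pos'.le]

lemma norm_circleMap_sub_one (θ : ℝ) : ‖circleMap 0 1 θ - 1‖ = |2 * Real.sin (θ / 2)| := by
  have h := Complex.norm_exp_I_mul_ofReal_sub_one (x := θ)
  rw [circleMap_zero, Complex.ofReal_one, one_mul, mul_comm, h, Real.norm_eq_abs]

lemma arc_le {ρ : ℝ} (hρ : 0 < ρ) : σ.real {z | ‖z - 1‖ < ρ} ≤ ρ / 2 := by
  have hS : MeasurableSet {z : ℂ | ‖z - 1‖ < ρ} :=
    measurableSet_lt (by fun_prop) measurable_const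
  rw [σ_real hS]
  have hsub : circleMap 0 1 ⁻¹' {z | ‖z - 1‖ < ρ} ∩ Ioc 0 (2 * Real.pi) ⊆
      Icc 0 (Real.pi * ρ / 2) ∪ Icc (2 * Real.pi - Real.pi * ρ / 2) (2 * Real.pi) := by
    rintro θ ⟨h1, h2⟩
    have h1' : |2 * Real.sin (θ / 2)| < ρ := by
      rw [← norm_circleMap_sub_one]; exact h1
    have hpi := Real.pi_pos
    rcases le_or_gt θ Real.pi with h | h
    · left
      refine ⟨h2.1.le, ?_⟩
      have h3 := Real.mul_le_sin (x := θ / 2) (by linarith [h2.1]) (by linarith)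
      have h4 : 2 * Real.sin (θ / 2) < ρ := lt_of_le_of_lt (le_abs_self _) h1'
      have h5 : 2 / Real.pi * (θ / 2) * Real.pi = θ := by field_simp
      nlinarith
    · right
      refine ⟨?_, h2.2⟩
      have h3 := Real.mul_le_sin (x := Real.pi - θ / 2) (by linarith [h2.2]) (by linarith)
      rw [Real.sin_pi_sub] at h3
      have h4 : 2 * Real.sin (θ / 2) < ρ := lt_of_le_of_lt (le_abs_self _) h1'
      have h5 : 2 / Real.pi * (Real.pi - θ / 2) * Real.pi = 2 * Real.pi - θ := by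
        field_simp
      nlinarith
  have h1 : volume.real (circleMap 0 1 ⁻¹' {z | ‖z - 1‖ < ρ} ∩ Ioc 0 (2 * Real.pi)) ≤
      Real.pi * ρ / 2 + Real.pi * ρ / 2 := by
    refine (measureReal_mono hsub ?_).trans ?_
    · exact (measure_union_lt_top (by simp) (by simp)).ne
    · refine (measureReal_union_le _ _).trans ?_
      have hpi := Real.pi_pos
      have hp : 0 ≤ Real.pi * ρ / 2 := by positivity
      rw [Real.volume_real_Icc_of_le hp, Real.volume_real_Icc_of_le (by linarith)]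
      linarith
  have hpi := Real.pi_pos
  calc (2 * Real.pi)⁻¹ * _ ≤ (2 * Real.pi)⁻¹ * (Real.pi * ρ / 2 + Real.pi * ρ / 2) := by gcongr
    _ = ρ / 2 := by field_simp; ring

lemma le_arc {ρ : ℝ} (hρ : 0 < ρ) (hρ1 : ρ ≤ 1) : ρ / 7 ≤ σ.real {z | ‖z - 1‖ ≤ ρ} := by
  have hS : MeasurableSet {z : ℂ | ‖z - 1‖ ≤ ρ} :=
    measurableSet_le (by fun_prop) measurable_const
  rw [σ_real hS]
  have hpi := Real.pi_pos
  have hpi3 := Real.pi_gt_three
  have hsub : Ioc 0 ρ ⊆ circleMap 0 1 ⁻¹' {z | ‖z - 1‖ ≤ ρ} ∩ Ioc 0 (2 * Real.pi) := by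
    rintro θ ⟨h1, h2⟩
    refine ⟨?_, h1, by linarith⟩
    change ‖circleMap 0 1 θ - 1‖ ≤ ρ
    rw [norm_circleMap_sub_one, abs_mul, abs_two]
    have := Real.abs_sin_le_abs (x := θ / 2)
    rw [abs_of_pos (show 0 < θ / 2 by linarith)] at this
    linarith
  have h1 : ρ ≤ volume.real (circleMap 0 1 ⁻¹' {z | ‖z - 1‖ ≤ ρ} ∩ Ioc 0 (2 * Real.pi)) := by
    have h2 := measureReal_mono (μ := volume) hsub
      (measure_inter_lt_top_of_right_ne_top (by rw [Real.volume_Ioc]; exact ENNReal.ofReal_ne_top)).ne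
    rwa [Real.volume_real_Ioc_of_le hρ.le, sub_zero] at h2
  have h3 : (1:ℝ) / 7 ≤ (2 * Real.pi)⁻¹ := by
    rw [one_div]
    refine inv_anti₀ (by positivity) ?_
    linarith [Real.pi_lt_d2]
  calc ρ / 7 = (1 / 7) * ρ := by ring
    _ ≤ (2 * Real.pi)⁻¹ * _ := by gcongr

/-- The tent function. -/
lemma tent {κ : ℝ} (hκ : 0 < κ) (hκ1 : κ ≤ 1) : ∃ b : ℂ → ℝ, Continuous b ∧ (∀ z, 0 ≤ b z) ∧
    (∀ z, b z ≤ 1) ∧ σ.real {z | b z ≠ 0} ≤ κ ^ 2 / 2 ∧ κ ^ 2 / 28 ≤ ∫ z, b z ∂σ ∧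
    ∫ z, b z ∂σ ≤ 1 := by
  have hk2 : 0 < κ ^ 2 := by positivity
  set b : ℂ → ℝ := fun z => max 0 (1 - ‖z - 1‖ / κ ^ 2) with hb
  have hbc : Continuous b := by
    have : Continuous fun z : ℂ => 1 - ‖z - 1‖ / κ ^ 2 := by fun_prop
    exact continuous_const.max this
  have hb1 : ∀ z, b z ≤ 1 := by
    intro z
    have : 0 ≤ ‖z - 1‖ / κ ^ 2 := by positivity
    exact max_le (by norm_num) (by linarith)
  have hb0 : ∀ z, 0 ≤ b z := fun z => le_max_left _ _
  refine ⟨b, hbc, hb0, hb1, ?_, ?_, ?_⟩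
  · refine (measureReal_mono ?_ (by finiteness)).trans (arc_le hk2)
    intro z hz
    by_contra hn
    have hn' : κ ^ 2 ≤ ‖z - 1‖ := by simpa using hn
    refine hz ?_
    have : 1 ≤ ‖z - 1‖ / κ ^ 2 := by rwa [le_div_iff₀ hk2, one_mul]
    exact max_eq_left (by linarith)
  · have hS : MeasurableSet {z : ℂ | ‖z - 1‖ ≤ κ ^ 2 / 2} :=
      measurableSet_le (by fun_prop) measurable_const
    have h1 := le_arc (ρ := κ ^ 2 / 2) (by positivity) (by nlinarith)
    have h2 : ∫ z, (indicator {z : ℂ | ‖z - 1‖ ≤ κ ^ 2 / 2} (fun _ => (1:ℝ) / 2)) z ∂σ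
        ≤ ∫ z, b z ∂σ := by
      refine integral_mono ((integrable_const _).indicator hS) (integrable_cont hbc) fun z => ?_
      by_cases hz : z ∈ {z : ℂ | ‖z - 1‖ ≤ κ ^ 2 / 2}
      · rw [indicator_of_mem hz]
        have hz' : ‖z - 1‖ ≤ κ ^ 2 / 2 := hz
        have : ‖z - 1‖ / κ ^ 2 ≤ 1 / 2 := by
          rw [div_le_iff₀ hk2]; linarith
        exact le_max_of_le_right (by linarith)
      · rw [indicator_of_notMem hz]; exact hb0 z
    rw [integral_indicator hS, setIntegral_const, smul_eq_mul] at h2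
    linarith
  · refine (integral_mono (integrable_cont hbc) (integrable_const 1) hb1).trans ?_
    simp

end H93.PR
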