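import Pool.Agent.H93.PR.Bishop
import Pool.Agent.H93.PR.Tent
import Pool.Agent.H93.PR.Growth

/-!
# The local estimate for graphs with small Lipschitz constant over cones
-/

open MeasureTheory Set Filter Topology

namespace H93.PR

lemma cheb {f : ℂ → ℝ} (hf : Continuous f) (hf0 : ∀ t, 0 ≤ f t) {θ A : ℝ} (hθ : 0 < θ)
    (hA : ∫ t, f t ∂σ ≤ A * θ) : σ.real {t | θ < f t} ≤ A := by
  have h1 := mul_meas_ge_le_integral_of_nonneg (μ := σ) (Eventually.of_forall hf0)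
    (integrable_cont hf) θ
  have h2 : σ.real {t | θ < f t} ≤ σ.real {t | θ ≤ f t} :=
    measureReal_mono (fun t (ht : θ < f t) => (le_of_lt ht : θ ≤ f t)) (by finiteness)
  have h3 : θ * σ.real {t | θ < f t} ≤ A * θ := by
    calc θ * σ.real {t | θ < f t} ≤ θ * σ.real {t | θ ≤ f t} := by gcongr
      _ ≤ _ := h1.trans hA
  by_contra hn
  push Not at hn
  nlinarith

lemma choose_l {N : ℕ} {a b c : ℝ} (ha : 0 < a) (hb : 0 < b) (hc : 0 < c) :
    ∃ l : ℝ, 0 < l ∧ 24 * N * l ^ 2 ≤ a ∧ 20000 * N * l ^ 2 ≤ b ∧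
      2 * N * l ^ 2 * (20000 * N) ≤ c := by
  have hN : (0:ℝ) ≤ N := Nat.cast_nonneg N
  set B : ℝ := 24 * N + 20000 * N + 40000 * N ^ 2 + 1 with hB
  have hB0 : 0 < B := by positivity
  set m := min a (min b c) with hm
  have hm0 : 0 < m := lt_min ha (lt_min hb hc)
  have hma : m ≤ a := min_le_left _ _
  have hmb : m ≤ b := (min_le_right _ _).trans (min_le_left _ _)
  have hmc : m ≤ c := (min_le_right _ _).trans (min_le_right _ _)
  refine ⟨Real.sqrt (m / B), Real.sqrt_pos.2 (by positivity), ?_, ?_, ?_⟩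
  all_goals
    rw [Real.sq_sqrt (by positivity)]
  · refine le_trans ?_ hma
    rw [mul_div_assoc', div_le_iff₀ hB0]
    nlinarith [sq_nonneg (N:ℝ)]
  · refine le_trans ?_ hmb
    rw [mul_div_assoc', div_le_iff₀ hB0]
    nlinarith [sq_nonneg (N:ℝ)]
  · refine le_trans ?_ hmc
    have : 2 * (N:ℝ) * (m / B) * (20000 * N) = (40000 * N ^ 2 * m) / B := by ring
    rw [this, div_le_iff₀ hB0]
    nlinarith [sq_nonneg (N:ℝ)]

lemma choose_t {a b c d : ℝ} (ha : 0 < a) (hb : 0 < b) (hc : 0 < c) (hd : 0 ≤ d) :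
    ∃ τ : ℝ, 0 < τ ∧ τ ≤ 1 ∧ τ ≤ a ∧ τ ^ 2 ≤ b ∧ d * τ ^ 2 ≤ c := by
  set τ := min 1 (min a (min b (c / (d + 1)))) with hτ
  have hτ0 : 0 < τ := lt_min one_pos (lt_min ha (lt_min hb (by positivity)))
  have h1 : τ ≤ 1 := min_le_left _ _
  have h2 : τ ≤ a := (min_le_right _ _).trans (min_le_left _ _)
  have h3 : τ ≤ b := (min_le_right _ _).trans ((min_le_right _ _).trans (min_le_left _ _))
  have h4 : τ ≤ c / (d + 1) :=
    (min_le_right _ _).trans ((min_le_right _ _).trans (min_le_right _ _))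
  have h5 : τ ^ 2 ≤ τ := by nlinarith
  refine ⟨τ, hτ0, h1, h2, h5.trans h3, ?_⟩
  rw [le_div_iff₀ (by linarith)] at h4
  nlinarith

/-- The point of the graph over `x`. -/
noncomputable def gr {N : ℕ} (h : (Fin N → ℝ) → (Fin N → ℝ)) (x : Fin N → ℝ) : Fin N → ℂ :=
  fun j => (x j : ℂ) + (h x j : ℂ) * Complex.I

lemma gr_cont {N : ℕ} {h : (Fin N → ℝ) → (Fin N → ℝ)} (hc : Continuous h) :
    Continuous (gr h) := by
  unfold gr
  refine continuous_pi fun j => ?_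
  have h1 : Continuous fun x => h x j := (continuous_apply j).comp hc
  have h2 : Continuous fun x : Fin N → ℝ => x j := continuous_apply j
  exact (Complex.continuous_ofReal.comp h2).add
    ((Complex.continuous_ofReal.comp h1).mul continuous_const)

/-- uniform neighbourhood of the compact piece of the graph on which `u < ε` -/
lemma exists_nbhd {N : ℕ} {h : (Fin N → ℝ) → (Fin N → ℝ)} (hc : Continuous h)
    {e : Fin N → ℝ} (he : ∀ j, |e j| ≤ 1) {c η : ℝ} (hc0 : 0 < c) (hc1 : c ≤ 1)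
    {u : (Fin N → ℂ) → ℝ} (hu : UpperSemicontinuous u) {ε : ℝ} (hε : 0 < ε)
    (hη : 0 < η)
    (hE : ∀ ρ : ℝ, 0 < ρ → ρ ≤ 2 → ∀ x, ‖x - ρ • e‖ ≤ c * ρ → u (gr h x) ≤ 0) :
    ∃ d : ℝ, 0 < d ∧ ∀ ρ : ℝ, η ^ 2 ≤ ρ → ρ ≤ 2 → ∀ x, ‖x - ρ • e‖ ≤ c * ρ →
      ∀ z, ‖z - gr h x‖ ≤ d → u z < ε := by
  have hen : ‖e‖ ≤ 1 := (pi_norm_le_iff_of_nonneg zero_le_one).2 he
  set K0 : Set (ℝ × (Fin N → ℝ)) :=
    (Icc (η ^ 2) 2 ×ˢ Metric.closedBall 0 4) ∩ {p | ‖p.2 - p.1 • e‖ ≤ c * p.1} with hK0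
  have hK0c : IsCompact K0 := by
    refine (isCompact_Icc.prod (isCompact_closedBall _ _)).inter_right ?_
    exact isClosed_le (by fun_prop) (by fun_prop)
  have hKc : IsCompact ((fun p : ℝ × (Fin N → ℝ) => gr h p.2) '' K0) :=
    hK0c.image ((gr_cont hc).comp continuous_snd)
  have hU : IsOpen {z | u z < ε} := hu.isOpen_preimage ε
  have hsub : ((fun p : ℝ × (Fin N → ℝ) => gr h p.2) '' K0) ⊆ {z | u z < ε} := by
    rintro _ ⟨p, hp, rfl⟩
    refine lt_of_le_of_lt (hE p.1 ?_ hp.1.1.2 p.2 hp.2) hε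
    exact lt_of_lt_of_le (pow_pos hη 2) hp.1.1.1
  obtain ⟨d, hd, hd'⟩ := hKc.exists_cthickening_subset_open hU hsub
  refine ⟨d, hd, fun ρ h1 h2 x hx z hz => ?_⟩
  refine hd' ?_
  refine Metric.mem_cthickening_of_dist_le z (gr h x) d _ ?_ (by rwa [dist_eq_norm])
  refine ⟨(ρ, x), ⟨⟨⟨h1, h2⟩, ?_⟩, hx⟩, rfl⟩
  rw [mem_closedBall_zero_iff]
  have hρ0 : 0 ≤ ρ := (sq_nonneg η).trans h1
  calc ‖x‖ = ‖(x - ρ • e) + ρ • e‖ := by rw [sub_add_cancel]
    _ ≤ ‖x - ρ • e‖ + ‖ρ • e‖ := norm_add_le _ _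
    _ ≤ c * ρ + ρ * 1 := by
        rw [norm_smul, Real.norm_of_nonneg hρ0]
        gcongr
    _ ≤ 4 := by nlinarith

lemma aux1 {n T A : ℝ} (hn : 0 ≤ n) (hT : 0 ≤ T) (h : (42 * n + 1) * T ≤ A) :
    2 * n * T ≤ A := by nlinarith [mul_nonneg hn hT]

lemma aux2 {n T A : ℝ} (hn : 0 ≤ n) (hT : 0 ≤ T) (h : (42 * n + 1) * T ≤ A) :
    40 * n * T + T ≤ A := by nlinarith [mul_nonneg hn hT]

lemma aux3 (t : ℝ) : 2 * t ≤ 1 + t ^ 2 := by nlinarith [sq_nonneg (t - 1)]

lemma half_int {κ : ℝ} (hκ : 0 < κ) {f : ℂ → ℝ} (hf : Continuous f) {A : ℝ}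
    (hA : ∫ t, f t ^ 2 ∂σ ≤ A) : ∫ t, f t ∂σ ≤ κ / 2 + A / (2 * κ) := by
  have hhalf : ∀ x : ℝ, x ≤ κ / 2 + x ^ 2 / (2 * κ) := by
    intro x
    have h1 : x = κ * (x / κ) := by field_simp
    have h2 : x ^ 2 / (2 * κ) = κ * (x / κ) ^ 2 / 2 := by field_simp
    rw [h2]
    calc x = κ * (x / κ) := h1
      _ ≤ κ * ((1 + (x / κ) ^ 2) / 2) :=
          mul_le_mul_of_nonneg_left (by nlinarith [sq_nonneg (x / κ - 1)]) hκ.le
      _ = _ := by ring
  have h1 : ∫ t, f t ∂σ ≤ ∫ t, (κ / 2 + f t ^ 2 / (2 * κ)) ∂σ :=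
    integral_mono (integrable_cont hf) (integrable_cont (by fun_prop)) fun t => hhalf (f t)
  have h2 : ∫ t, (κ / 2 + f t ^ 2 / (2 * κ)) ∂σ = κ / 2 + (∫ t, f t ^ 2 ∂σ) / (2 * κ) := by
    rw [integral_add (integrable_const _) (integrable_cont (by fun_prop)), integral_const, integral_div]
    simp
  rw [h2] at h1
  refine h1.trans ?_
  gcongr
/-- The local estimate. -/
theorem local_main (N : ℕ) {c : ℝ} (hc0 : 0 < c) (hc1 : c ≤ 1) {ε : ℝ} (hε : 0 < ε) :
    ∃ δ : ℝ, 0 < δ ∧ ∃ l : ℝ, 0 < l ∧ ∀ (e : Fin N → ℝ), (∀ j, |e j| ≤ 1) →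
      ∀ h : (Fin N → ℝ) → (Fin N → ℝ), Continuous h → (∀ x y j, |h x j - h y j| ≤ l * ‖x - y‖) →
      h 0 = 0 → ∀ u : (Fin N → ℂ) → ℝ, DPSH u → (∃ C, ∀ z, u z ≤ Real.log (1 + ‖z‖) + C) →
      (∀ ρ : ℝ, 0 < ρ → ρ ≤ 2 → ∀ x, ‖x - ρ • e‖ ≤ c * ρ → u (gr h x) ≤ 0) →
      ∀ z, ‖z‖ ≤ δ → u z ≤ ε := by
  -- choice of κ
  set Λ : ℝ := Real.log (12544 / c) with hΛ
  have hΛ0 : 0 < Λ := Real.log_pos (by rw [lt_div_iff₀ hc0]; linarith)
  set κ : ℝ := min (1 / 4) (ε / (2 * (50 + 5 / 2 * Λ))) with hκ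
  have hκ0 : 0 < κ := lt_min (by norm_num) (by positivity)
  have hκ4 : κ ≤ 1 / 4 := min_le_left _ _
  have hκε : κ * (50 + 5 / 2 * Λ) ≤ ε / 2 := by
    have h1 : κ ≤ ε / (2 * (50 + 5 / 2 * Λ)) := min_le_right _ _
    rw [le_div_iff₀ (by positivity)] at h1
    linarith
  obtain ⟨b, hbc, hb0, hb1, hbS, hbη, hbη1⟩ := tent hκ0 (by linarith)
  have hSm : MeasurableSet {z | b z ≠ 0} :=
    (hbc.measurable (measurableSet_singleton 0)).compl
  set η : ℝ := ∫ z, b z ∂σ with hη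
  have hη0 : 0 < η := lt_of_lt_of_le (by positivity) hbη
  have hηκ : η ≤ κ ^ 2 / 2 := by
    have h1 : η ≤ ∫ z, (indicator {z | b z ≠ 0} (fun _ => (1:ℝ)) z) ∂σ := by
      refine integral_mono (integrable_cont hbc) ((integrable_const _).indicator hSm) fun z => ?_
      by_cases hbz : b z = 0
      · rw [indicator_of_notMem (by simpa using hbz), hbz]
      · rw [indicator_of_mem (by simpa using hbz)]; exact hb1 z
    rw [integral_indicator hSm, setIntegral_const] at h1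
    have h2 : σ.real {z | b z ≠ 0} • (1:ℝ) = σ.real {z | b z ≠ 0} := by simp
    rw [h2] at h1
    exact h1.trans hbS
  have hκ2 : κ ^ 2 ≤ 1 / 16 := by nlinarith
  have hη32 : η ≤ 1 / 32 := by linarith
  -- δ, θ, l
  set δ : ℝ := c * η ^ 2 / 16 with hδ
  have hδ0 : 0 < δ := by positivity
  have hηsq : η ^ 2 ≤ η / 32 := by nlinarith
  have hδη : 2 * δ ≤ η := by
    have : c * η ^ 2 ≤ 1 * η ^ 2 := by gcongr
    rw [hδ]; linarith
  have hδ1 : δ ≤ 1 / 16 := by linarith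
  set θ : ℝ := c * η ^ 2 / 4 with hθ
  have hθ0 : 0 < θ := by positivity
  have hθ1 : θ ≤ 1 / 4 := by
    have : c * η ^ 2 ≤ 1 * η ^ 2 := by gcongr
    rw [hθ]; nlinarith
  obtain ⟨l, hl0, hl1, hl2, hl3⟩ := choose_l (N := N) (a := η ^ 2) (b := δ ^ 2)
    (c := κ ^ 2 * θ ^ 2 / 2) (by positivity) (by positivity) (by positivity)
  refine ⟨δ, hδ0, l, hl0, ?_⟩
  intro e he h hc hl hh0 u hu hC hE
  obtain ⟨C, hC⟩ := hC
  have hN : (0:ℝ) ≤ N := Nat.cast_nonneg N
  -- the maximum over the ball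
  obtain ⟨w, hwδ, hwmax⟩ := UpperSemicontinuousOn.exists_isMaxOn
    (⟨0, by simp [hδ0.le]⟩ : (Metric.closedBall (0 : Fin N → ℂ) δ).Nonempty)
    (isCompact_closedBall _ _) (hu.usc.upperSemicontinuousOn _)
  rw [mem_closedBall_zero_iff] at hwδ
  set s := u w with hs
  have hsmax : ∀ z, ‖z‖ ≤ δ → u z ≤ s := fun z hz => hwmax (by simpa using hz)
  suffices hsε : s ≤ ε by
    intro z hz
    exact (hsmax z hz).trans hsε
  by_cases hspos : s ≤ 0
  · linarith
  push Not at hspos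
  -- neighbourhood
  obtain ⟨d, hd0, hd⟩ := exists_nbhd hc he hc0 hc1 hu.usc (show 0 < ε / 4 by linarith) hη0 hE
  -- q
  obtain ⟨τ₁, hτ₁0, hτ₁1, hτ₁d, hτ₁κ, hτ₁θ⟩ := choose_t (a := d / 6) (b := κ ^ 2 / 2) (c := θ)
    (d := 1) (by positivity) (by positivity) hθ0 (by norm_num)
  rw [one_mul] at hτ₁θ
  obtain ⟨q, hq, hq0, hqb, hq2, hqn, hq4⟩ := qlem hbc hb0 hb1 hη hbη1 hτ₁0 hτ₁1
  -- Bishop
  obtain ⟨τ, hτ0, hτ1, -, -, hτ2⟩ := choose_t (a := 1) (b := 1)
    (c := min (κ ^ 2 * θ ^ 2 / 2) (κ ^ 2 * (d / 2) ^ 2))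
    (d := 42 * N + 1) (by norm_num) (by norm_num) (lt_min (by positivity) (by positivity))
    (by positivity)
  have hτa : 2 * N * τ ^ 2 ≤ κ ^ 2 * θ ^ 2 / 2 := by
    exact aux1 hN (sq_nonneg τ) (hτ2.trans (min_le_left _ _))
  have hτb : 40 * N * τ ^ 2 + τ ^ 2 ≤ κ ^ 2 * (d / 2) ^ 2 := by
    exact aux2 hN (sq_nonneg τ) (hτ2.trans (min_le_right _ _))
  have hm : 2 * σ.real {z | b z ≠ 0} ≤ κ ^ 2 := by linarith
  have D : Dat N h l η δ q e w := by
    refine ⟨hl0.le, hc, hl, hh0, hq, hq0, hη0, hbη1, ?_, hq4, he, hδ0, hδη, ?_, hl1, hl2⟩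
    · linarith
    · exact fun j => (norm_le_pi_norm w j).trans hwδ
  obtain ⟨⟨α, G⟩, I, hdef⟩ := bishop D hτ0 hτ1
  obtain ⟨dG, p0, ha, -, Gre, Gim⟩ := I
  simp only at dG p0 ha Gre Gim hdef
  have hqc := hq.continuous
  have hGc : ∀ j, Continuous (G j) := fun j => (dG j).continuous
  have hRPc := RP_cont (η := η) (e := e) (w := w) (α := α) hq dG
  have hA : 2 * N * l ^ 2 * (20000 * N) + 2 * N * τ ^ 2 ≤ κ ^ 2 * θ ^ 2 := by linarith
  have cre : Continuous (fun t j => (G j t).re) := continuous_pi fun j =>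
    Complex.continuous_re.comp (hGc j)
  have cim : Continuous (fun t j => (G j t).im) := continuous_pi fun j =>
    Complex.continuous_im.comp (hGc j)
  have cdef : Continuous (fun t j => (G j t).im - h (RP q η e w α G t) j) := continuous_pi
    fun j => ((continuous_apply j).comp cim).sub ((continuous_apply j).comp (hc.comp hRPc))
  -- bad sets
  set B1 : Set ℂ := {z | b z ≠ 0} with hB1
  set B2 : Set ℂ := {t | 1 < (q t).re ^ 2} with hB2
  set B3 : Set ℂ := {t | θ ^ 2 < ∑ j, (G j t).re ^ 2} with hB3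
  set B4 : Set ℂ := {t | (d / 2) ^ 2 < ∑ j, ((G j t).im - h (RP q η e w α G t) j) ^ 2} with hB4
  have m1 : σ.real B1 ≤ κ ^ 2 / 2 := hbS
  have m2 : σ.real B2 ≤ 2 * κ ^ 2 := cheb (by fun_prop) (fun t => sq_nonneg _) one_pos (by linarith)
  have m3 : σ.real B3 ≤ κ ^ 2 := by
    refine cheb (continuous_finsetSum _ fun j _ => ((continuous_apply j).comp cre).pow 2)
      (fun t => Finset.sum_nonneg fun j _ => sq_nonneg _) (pow_pos hθ0 2) ?_
    exact Gre.trans hA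
  have m4 : σ.real B4 ≤ κ ^ 2 := by
    refine cheb (continuous_finsetSum _ fun j _ => ((continuous_apply j).comp cdef).pow 2)
      (fun t => Finset.sum_nonneg fun j _ => sq_nonneg _) (pow_pos (by linarith) 2) ?_
    exact hdef.trans hτb
  set B : Set ℂ := B1 ∪ B2 ∪ B3 ∪ B4 with hB
  have mB : σ.real B ≤ 5 * κ ^ 2 := by
    have h1 := measureReal_union_le (μ := σ) (B1 ∪ B2 ∪ B3) B4
    have h2 := measureReal_union_le (μ := σ) (B1 ∪ B2) B3
    have h3 := measureReal_union_le (μ := σ) B1 B2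
    linarith [sq_nonneg κ]
  have hBm : MeasurableSet B := by
    refine ((hSm.union ?_).union ?_).union ?_
    · exact measurableSet_lt measurable_const (by fun_prop)
    · exact measurableSet_lt measurable_const
        (continuous_finsetSum _ fun j _ => ((continuous_apply j).comp cre).pow 2).measurable
    · exact measurableSet_lt measurable_const
        (continuous_finsetSum _ fun j _ => ((continuous_apply j).comp cdef).pow 2).measurable
  -- the disc
  set P : ℂ → (Fin N → ℂ) := PP q η e w α G with hP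
  have hPd : Differentiable ℂ P := by
    rw [hP]
    refine differentiable_pi.2 fun j => ?_
    unfold PP
    exact (((differentiable_const _).add (((hq.pow 2).add_const _).mul_const _)).add
      (hq.const_mul _)).add (dG j)
  have hP0 : P 0 = w := by
    funext j; exact p0 j
  have hα1 : ∀ j, |α j| ≤ 1 := fun j => (ha j).trans (by
    rw [div_le_one hη0]; exact hδη)
  -- good points
  have hgood : ∀ t, ‖t‖ = 1 → t ∉ B → u (P t) < ε / 4 := by
    intro t ht htB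
    simp only [hB, mem_union, not_or] at htB
    obtain ⟨⟨⟨t1, t2⟩, t3⟩, t4⟩ := htB
    have t1' : b t = 0 := by simpa [hB1] using t1
    have t2' : (q t).re ^ 2 ≤ 1 := by simpa [hB2] using t2
    have t3' : ∑ j, (G j t).re ^ 2 ≤ θ ^ 2 := by simpa [hB3] using t3
    have t4' : ∑ j, ((G j t).im - h (RP q η e w α G t) j) ^ 2 ≤ (d / 2) ^ 2 := by
      simpa [hB4] using t4
    have hqim : |(q t).im| ≤ τ₁ := by
      have := hqb t ht
      rwa [t1', sub_zero] at this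
    set y := (q t).re with hy
    have hyabs : |y| ≤ 1 := by
      rw [← sq_le_one_iff_abs_le_one]; exact t2'
    have hGre : ∀ j, |(G j t).re| ≤ θ := by
      intro j
      have h1 : (G j t).re ^ 2 ≤ θ ^ 2 := (Finset.single_le_sum
        (f := fun j => (G j t).re ^ 2) (fun j _ => sq_nonneg _) (Finset.mem_univ j)).trans t3'
      exact abs_le_of_sq_le_sq h1 hθ0.le
    have hGdef : ∀ j, |(G j t).im - h (RP q η e w α G t) j| ≤ d / 2 := by
      intro j
      have h1 : ((G j t).im - h (RP q η e w α G t) j) ^ 2 ≤ (d / 2) ^ 2 :=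
        (Finset.single_le_sum (f := fun j => ((G j t).im - h (RP q η e w α G t) j) ^ 2)
          (fun j _ => sq_nonneg _) (Finset.mem_univ j)).trans t4'
      exact abs_le_of_sq_le_sq h1 (by linarith)
    set x : Fin N → ℝ := RP q η e w α G t with hx
    set ρ : ℝ := y ^ 2 + η ^ 2 with hρ
    have hρη : η ^ 2 ≤ ρ := by rw [hρ]; linarith [sq_nonneg y]
    have hρ2 : ρ ≤ 2 := by rw [hρ]; linarith
    have hρ0 : 0 < ρ := lt_of_lt_of_le (pow_pos hη0 2) hρη
    have hqim2 : (q t).im ^ 2 ≤ θ := by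
      calc (q t).im ^ 2 = |(q t).im| ^ 2 := (sq_abs _).symm
        _ ≤ τ₁ ^ 2 := by gcongr
        _ ≤ θ := hτ₁θ
    have hθρ : θ ≤ c * ρ / 4 := by
      rw [hθ]; gcongr
    have hcone : ‖x - ρ • e‖ ≤ c * ρ := by
      rw [pi_norm_le_iff_of_nonneg (by positivity)]
      intro j
      rw [Real.norm_eq_abs, Pi.sub_apply, Pi.smul_apply, smul_eq_mul, hx, RP_eq]
      have hq2re : (q t ^ 2).re = y ^ 2 - (q t).im ^ 2 := by rw [hy]; simp [sq]
      have h1 : (w j).re + ((q t ^ 2).re + η ^ 2) * e j + α j * (q t).re + (G j t).re - ρ * e j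
          = (w j).re + (- (q t).im ^ 2 * e j) + α j * y + (G j t).re := by
        rw [hq2re, hρ, ← hy]; ring
      rw [h1]
      have a1 : |(w j).re| ≤ δ := (Complex.abs_re_le_norm (w j)).trans
        ((norm_le_pi_norm w j).trans hwδ)
      have a2 : |- (q t).im ^ 2 * e j| ≤ θ := by
        rw [abs_mul, abs_neg, abs_of_nonneg (sq_nonneg _)]
        calc (q t).im ^ 2 * |e j| ≤ θ * 1 := by gcongr; exact he j
          _ = θ := mul_one _
      have a3 : |α j * y| ≤ 2 * δ / η * |y| := by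
        rw [abs_mul]; gcongr; exact ha j
      have a4 := hGre j
      have a5 : δ + 2 * δ / η * |y| ≤ c * ρ / 8 := by
        have b1 : 2 * (|y| / η) ≤ 1 + (y / η) ^ 2 := by
          have : (y / η) ^ 2 = (|y| / η) ^ 2 := by rw [div_pow, div_pow, sq_abs]
          rw [this]
          exact aux3 _
        have b2 : δ + 2 * δ / η * |y| = δ * (1 + 2 * (|y| / η)) := by
          field_simp
        have b3 : (y / η) ^ 2 * η ^ 2 = y ^ 2 := by
          rw [div_pow]; field_simp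
        rw [b2]
        calc δ * (1 + 2 * (|y| / η)) ≤ δ * (2 * (1 + (y / η) ^ 2)) := by
              gcongr
              linarith [sq_nonneg (y / η)]
          _ = c / 8 * ((y / η) ^ 2 * η ^ 2 + η ^ 2) := by rw [hδ]; ring
          _ = c * ρ / 8 := by rw [b3, hρ]; ring
      calc |(w j).re + (- (q t).im ^ 2 * e j) + α j * y + (G j t).re|
          ≤ |(w j).re| + |- (q t).im ^ 2 * e j| + |α j * y| + |(G j t).re| := by
            refine (abs_add_le _ _).trans ?_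
            gcongr
            refine (abs_add_le _ _).trans ?_
            gcongr
            exact abs_add_le _ _
        _ ≤ c * ρ := by linarith [mul_pos hc0 hρ0]
    refine hd ρ hρη hρ2 x hcone (P t) ?_
    rw [pi_norm_le_iff_of_nonneg hd0.le]
    intro j
    have h2 : (P t - gr h x) j = (((2 * y * (q t).im) * e j + α j * (q t).im
        + ((G j t).im - h x j) : ℝ) : ℂ) * Complex.I := by
      apply Complex.ext
      · simp [gr, hx, RP, hP]
      · have h3 : (q t ^ 2).im = 2 * y * (q t).im := by rw [hy]; simp [sq]; ring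
        have h4 : (PP q η e w α G t j).im
            = (q t ^ 2).im * e j + α j * (q t).im + (G j t).im := by
          simp only [PP, Complex.add_im, Complex.im_mul_ofReal, Complex.im_ofReal_mul,
            Complex.ofReal_im]
          rw [← Complex.ofReal_pow, Complex.ofReal_im]
          ring
        simp only [Pi.sub_apply, hP, Complex.sub_im, h4, h3, gr]
        simp
        ring
    rw [h2, norm_mul, Complex.norm_I, mul_one, Complex.norm_real, Real.norm_eq_abs]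
    have a1 : |2 * y * (q t).im * e j| ≤ 2 * τ₁ := by
      rw [abs_mul, abs_mul, abs_mul, abs_two]
      calc 2 * |y| * |(q t).im| * |e j| ≤ 2 * 1 * τ₁ * 1 := by
            gcongr; exact he j
        _ = 2 * τ₁ := by ring
    have a2 : |α j * (q t).im| ≤ τ₁ := by
      rw [abs_mul]
      calc |α j| * |(q t).im| ≤ 1 * τ₁ := by gcongr; exact hα1 j
        _ = τ₁ := one_mul _
    calc |2 * y * (q t).im * e j + α j * (q t).im + ((G j t).im - h x j)|
        ≤ |2 * y * (q t).im * e j| + |α j * (q t).im| + |(G j t).im - h x j| := by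
          refine (abs_add_le _ _).trans ?_
          gcongr
          exact abs_add_le _ _
      _ ≤ d := by linarith [hGdef j]
  -- the global bound
  set Gv : ℂ → (Fin N → ℂ) := fun t j => G j t with hGv
  have hGvc : Continuous Gv := continuous_pi hGc
  set L : ℝ := Real.log (1 / δ) with hL
  have hL0 : 0 ≤ L := Real.log_nonneg (by rw [le_div_iff₀ hδ0]; linarith)
  have hPbd : ∀ t, ‖P t‖ ≤ 1 + (‖q t‖ ^ 2 + ‖q t‖ + ‖Gv t‖) := by
    intro t
    rw [pi_norm_le_iff_of_nonneg (by positivity)]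
    intro j
    have a1 : ‖((w j).re : ℂ)‖ ≤ δ := by
      rw [Complex.norm_real]
      exact (Complex.abs_re_le_norm (w j)).trans ((norm_le_pi_norm w j).trans hwδ)
    have a2 : ‖(q t ^ 2 + (η : ℂ) ^ 2) * (e j : ℂ)‖ ≤ ‖q t‖ ^ 2 + 1 / 32 := by
      rw [norm_mul, Complex.norm_real]
      calc ‖q t ^ 2 + (η : ℂ) ^ 2‖ * ‖e j‖ ≤ (‖q t‖ ^ 2 + η ^ 2) * 1 := by
            gcongr
            · refine (norm_add_le _ _).trans (le_of_eq ?_)
              rw [norm_pow, norm_pow, Complex.norm_real, Real.norm_of_nonneg hη0.le]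
            · exact he j
        _ ≤ ‖q t‖ ^ 2 + 1 / 32 := by linarith
    have a3 : ‖(α j : ℂ) * q t‖ ≤ ‖q t‖ := by
      rw [norm_mul, Complex.norm_real]
      calc ‖α j‖ * ‖q t‖ ≤ 1 * ‖q t‖ := by gcongr; exact hα1 j
        _ = ‖q t‖ := one_mul _
    have a4 : ‖G j t‖ ≤ ‖Gv t‖ := norm_le_pi_norm (Gv t) j
    calc ‖P t j‖ ≤ ‖((w j).re : ℂ)‖ + ‖(q t ^ 2 + (η : ℂ) ^ 2) * (e j : ℂ)‖
          + ‖(α j : ℂ) * q t‖ + ‖G j t‖ := by
            refine (norm_add_le _ _).trans ?_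
            gcongr
            refine (norm_add_le _ _).trans ?_
            gcongr
            exact norm_add_le _ _
      _ ≤ _ := by linarith
  have hbad : ∀ t, u (P t) ≤ s + L + (‖q t‖ ^ 2 + ‖q t‖ + ‖Gv t‖) := by
    intro t
    have hX0 : 0 ≤ ‖q t‖ ^ 2 + ‖q t‖ + ‖Gv t‖ := by positivity
    rcases le_or_gt ‖P t‖ δ with h1 | h1
    · linarith [hsmax _ h1]
    · have h2 := growth hu hC hδ0 hsmax h1.le
      have hP0' : 0 < ‖P t‖ := hδ0.trans h1
      have h3 : Real.log (‖P t‖ / δ) = Real.log ‖P t‖ + L := by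
        rw [hL, Real.log_div hP0'.ne' hδ0.ne', Real.log_div one_ne_zero hδ0.ne', Real.log_one]
        ring
      have h4 : Real.log ‖P t‖ ≤ ‖q t‖ ^ 2 + ‖q t‖ + ‖Gv t‖ := by
        have h5 := Real.log_le_log hP0' (hPbd t)
        have h6 := Real.log_le_sub_one_of_pos (show 0 < 1 + (‖q t‖ ^ 2 + ‖q t‖ + ‖Gv t‖) by
          positivity)
        linarith
      linarith
  have hpt : ∀ᵐ t ∂σ, u (P t) ≤ ε / 4 + indicator B (fun _ => s + L) t
      + (‖q t‖ ^ 2 + ‖q t‖ + ‖Gv t‖) := by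
    filter_upwards [ae_norm] with t ht
    by_cases htB : t ∈ B
    · rw [indicator_of_mem htB]
      linarith [hbad t]
    · rw [indicator_of_notMem htB]
      have := hgood t ht htB
      have : 0 ≤ ‖q t‖ ^ 2 + ‖q t‖ + ‖Gv t‖ := by positivity
      linarith
  have hPc : Continuous P := hPd.continuous
  obtain ⟨b', hb'⟩ := hu.bdd
  have hIu : Integrable (fun t => u (P t)) σ :=
    integrable_usc (usc_comp hu.usc hPc) (b := b') fun t => hb' _
  have i1 : Integrable (fun t : ℂ => ‖q t‖ ^ 2) σ := integrable_cont (by fun_prop)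
  have i2 : Integrable (fun t : ℂ => ‖q t‖) σ := integrable_cont (by fun_prop)
  have i3 : Integrable (fun t : ℂ => ‖Gv t‖) σ := integrable_cont (by fun_prop)
  have i4 : Integrable (fun t => ε / 4 + indicator B (fun _ => s + L) t) σ :=
    (integrable_const _).add ((integrable_const _).indicator hBm)
  have i12 : Integrable (fun t : ℂ => ‖q t‖ ^ 2 + ‖q t‖) σ := i1.add i2
  have i5 : Integrable (fun t : ℂ => ‖q t‖ ^ 2 + ‖q t‖ + ‖Gv t‖) σ := i12.add i3
  have hint : s ≤ ε / 4 + σ.real B * (s + L)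
      + (∫ t, ‖q t‖ ^ 2 ∂σ + ∫ t, ‖q t‖ ∂σ + ∫ t, ‖Gv t‖ ∂σ) := by
    have h1 := hu.disc P hPd
    rw [hP0] at h1
    have h2 := h1.trans (integral_mono_ae hIu (i4.add i5) hpt)
    have h3 : ∫ t, (ε / 4 + indicator B (fun _ => s + L) t
      + (‖q t‖ ^ 2 + ‖q t‖ + ‖Gv t‖)) ∂σ = ε / 4 + σ.real B * (s + L)
      + (∫ t, ‖q t‖ ^ 2 ∂σ + ∫ t, ‖q t‖ ∂σ + ∫ t, ‖Gv t‖ ∂σ) := by
      rw [integral_add i4 i5, integral_add (integrable_const _)
        ((integrable_const _).indicator hBm), integral_indicator hBm, setIntegral_const,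
        integral_add i12 i3, integral_add i1 i2]
      simp
    have h4 : s ≤ ∫ t, (ε / 4 + indicator B (fun _ => s + L) t
      + (‖q t‖ ^ 2 + ‖q t‖ + ‖Gv t‖)) ∂σ := h2
    rw [h3] at h4
    exact h4
  -- bounds of the integrals
  have hτ₁2 : 4 * τ₁ ^ 2 ≤ 2 * κ ^ 2 := by linarith
  have j1 : ∫ t, ‖q t‖ ^ 2 ∂σ ≤ 4 * κ ^ 2 := by linarith
  have hhalfint : ∀ f : ℂ → ℝ, Continuous f → ∀ A : ℝ, ∫ t, f t ^ 2 ∂σ ≤ A →
      ∫ t, f t ∂σ ≤ κ / 2 + A / (2 * κ) := fun f hf A hA => half_int hκ0 hf hA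
  have j2 : ∫ t, ‖q t‖ ∂σ ≤ κ / 2 + 4 * κ ^ 2 / (2 * κ) :=
    hhalfint (fun t => ‖q t‖) (by fun_prop) _ j1
  have j3a : ∫ t, ‖Gv t‖ ^ 2 ∂σ ≤ κ ^ 2 := by
    have h1 : ∫ t, ‖Gv t‖ ^ 2 ∂σ ≤ ∫ t, (∑ j, (G j t).re ^ 2 + ∑ j, (G j t).im ^ 2) ∂σ := by
      refine integral_mono (integrable_cont (by fun_prop)) ((int_sumsq cre).add (int_sumsq cim))
        fun t => ?_
      have h0 : 0 ≤ ∑ j, (G j t).re ^ 2 + ∑ j, (G j t).im ^ 2 :=
        add_nonneg (Finset.sum_nonneg fun j _ => sq_nonneg _)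
          (Finset.sum_nonneg fun j _ => sq_nonneg _)
      have h2 : ‖Gv t‖ ≤ Real.sqrt (∑ j, (G j t).re ^ 2 + ∑ j, (G j t).im ^ 2) := by
        rw [pi_norm_le_iff_of_nonneg (Real.sqrt_nonneg _)]
        intro j
        refine Real.le_sqrt_of_sq_le ?_
        have h3 : ‖Gv t j‖ ^ 2 = (G j t).re ^ 2 + (G j t).im ^ 2 := by
          rw [hGv]; simp only; rw [Complex.sq_norm, Complex.normSq_apply]; ring
        rw [h3]
        exact add_le_add
          (Finset.single_le_sum (f := fun j => (G j t).re ^ 2) (fun j _ => sq_nonneg _)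
            (Finset.mem_univ j))
          (Finset.single_le_sum (f := fun j => (G j t).im ^ 2) (fun j _ => sq_nonneg _)
            (Finset.mem_univ j))
      calc ‖Gv t‖ ^ 2 ≤ (Real.sqrt (∑ j, (G j t).re ^ 2 + ∑ j, (G j t).im ^ 2)) ^ 2 := by
            gcongr
        _ = _ := Real.sq_sqrt h0
    rw [integral_add (int_sumsq cre) (int_sumsq cim)] at h1
    have h4 : nn (fun t j => (G j t).re) + nn (fun t j => (G j t).im) ≤ 2 * (κ ^ 2 * θ ^ 2) := by
      linarith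
    have h5 : 2 * (κ ^ 2 * θ ^ 2) ≤ κ ^ 2 := by
      have h6 : θ ^ 2 ≤ 1 / 16 := by
        calc θ ^ 2 ≤ (1 / 4) ^ 2 := by gcongr
          _ = 1 / 16 := by norm_num
      calc 2 * (κ ^ 2 * θ ^ 2) ≤ 2 * (κ ^ 2 * (1 / 16)) := by gcongr
        _ ≤ κ ^ 2 := by linarith [sq_nonneg κ]
    exact h1.trans (h4.trans h5)
  have j3 : ∫ t, ‖Gv t‖ ∂σ ≤ κ / 2 + κ ^ 2 / (2 * κ) :=
    hhalfint (fun t => ‖Gv t‖) (by fun_prop) _ j3a
  have k1 : 4 * κ ^ 2 / (2 * κ) = 2 * κ := by field_simp; ring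
  have k2 : κ ^ 2 / (2 * κ) = κ / 2 := by field_simp
  rw [k1] at j2
  rw [k2] at j3
  have hκκ : κ ^ 2 ≤ κ / 4 := by
    calc κ ^ 2 = κ * κ := sq κ
      _ ≤ κ * (1 / 4) := by gcongr
      _ = κ / 4 := by ring
  -- bound of L
  have hLΛ : κ ^ 2 * L ≤ κ / 4 * Λ + 4 * κ := by
    have h1 : 1 / δ ≤ 12544 / c * (1 / κ) ^ 4 := by
      have h2 : c * (κ ^ 2 / 28) ^ 2 / 16 ≤ δ := by rw [hδ]; gcongr
      have h3 : 12544 / c * (1 / κ) ^ 4 = 1 / (c * (κ ^ 2 / 28) ^ 2 / 16) := by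
        field_simp
        ring
      rw [h3]
      exact one_div_le_one_div_of_le (by positivity) h2
    have h2 : L ≤ Λ + 4 * Real.log (1 / κ) := by
      rw [hL, hΛ]
      refine (Real.log_le_log (by positivity) h1).trans ?_
      rw [Real.log_mul (by positivity) (by positivity), Real.log_pow]
      norm_num
    have h3 : Real.log (1 / κ) ≤ 1 / κ := by
      have := Real.log_le_sub_one_of_pos (show 0 < 1 / κ by positivity)
      linarith
    have h4 : κ ^ 2 * L ≤ κ ^ 2 * (Λ + 4 * (1 / κ)) := by gcongr; linarith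
    have h5 : κ ^ 2 * (Λ + 4 * (1 / κ)) = κ ^ 2 * Λ + 4 * κ := by field_simp
    rw [h5] at h4
    have h6 : κ ^ 2 * Λ ≤ κ / 4 * Λ := by gcongr
    linarith
  have hBs : σ.real B * (s + L) ≤ s / 2 + 5 * (κ ^ 2 * L) := by
    have h0 : 0 ≤ σ.real B := measureReal_nonneg
    have h1 : σ.real B ≤ 1 / 2 := by linarith
    have h2 : σ.real B * s ≤ 1 / 2 * s := by gcongr
    have h3 : σ.real B * L ≤ 5 * κ ^ 2 * L := by gcongr
    calc σ.real B * (s + L) = σ.real B * s + σ.real B * L := by ring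
      _ ≤ 1 / 2 * s + 5 * κ ^ 2 * L := add_le_add h2 h3
      _ = _ := by ring
  have hfin : κ * (50 + 5 / 2 * Λ) = 50 * κ + 10 * (κ / 4 * Λ) := by ring
  rw [hfin] at hκε
  linarith

end H93.PR
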