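import Pool.Agent.H93.PR.Circ

/-!
# L² and L⁴ estimates for entire functions on the unit circle
-/

open MeasureTheory Set Filter Topology

namespace H93.PR

lemma mean_entire_re {G : ℂ → ℂ} (hG : Differentiable ℂ G) : ∫ z, (G z).re ∂σ = (G 0).re := by
  rw [← mean_entire hG]
  exact integral_re (integrable_cont hG.continuous)

lemma re_sq_eq {G : ℂ → ℂ} (hG : Differentiable ℂ G) :
    ∫ z, (G z).re ^ 2 ∂σ = ∫ z, (G z).im ^ 2 ∂σ + ((G 0) ^ 2).re := by
  have hc := hG.continuous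
  have h := mean_entire_re (G := fun z => G z ^ 2) (by fun_prop)
  have h2 : ∀ z, ((G z) ^ 2).re = (G z).re ^ 2 - (G z).im ^ 2 := by
    intro z; simp [sq]
  simp only [h2 0] at h ⊢
  rw [integral_congr_ae (Eventually.of_forall h2),
    integral_sub (integrable_cont (by fun_prop)) (integrable_cont (by fun_prop))] at h
  linarith

/-- If `G 0` is purely imaginary. -/
lemma re_sq_le {G : ℂ → ℂ} (hG : Differentiable ℂ G) (h0 : (G 0).re = 0) :
    ∫ z, (G z).re ^ 2 ∂σ ≤ ∫ z, (G z).im ^ 2 ∂σ := by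
  rw [re_sq_eq hG]
  have : ((G 0) ^ 2).re = - (G 0).im ^ 2 := by simp [sq, h0]
  rw [this]
  nlinarith [sq_nonneg (G 0).im]

lemma qlem {b : ℂ → ℝ} (hb : Continuous b) (hb0 : ∀ z, 0 ≤ b z) (hb1 : ∀ z, b z ≤ 1)
    {η : ℝ} (hη : η = ∫ z, b z ∂σ) (hη1 : η ≤ 1) {τ : ℝ} (hτ : 0 < τ) (hτ1 : τ ≤ 1) :
    ∃ q : ℂ → ℂ, Differentiable ℂ q ∧ q 0 = η * Complex.I ∧
      (∀ z, ‖z‖ = 1 → |(q z).im - b z| ≤ τ) ∧
      ∫ z, (q z).re ^ 2 ∂σ ≤ 2 * σ.real {z | b z ≠ 0} + 2 * τ ^ 2 ∧
      ∫ z, ‖q z‖ ^ 2 ∂σ ≤ 4 * σ.real {z | b z ≠ 0} + 4 * τ ^ 2 ∧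
      ∫ z, ((q z ^ 2).re + η ^ 2) ^ 2 ∂σ ≤ 2250 := by
  obtain ⟨q, hq, hqb, hq0⟩ := approx_im hb hτ
  rw [← hη] at hq0
  have hqc := hq.continuous
  have hη0 : 0 ≤ η := by rw [hη]; exact integral_nonneg hb0
  have hre0 : (q 0).re = 0 := by rw [hq0]; simp
  have hSm : MeasurableSet {z | b z ≠ 0} :=
    (hb.measurable (measurableSet_singleton 0)).compl
  have him : ∫ z, (q z).im ^ 2 ∂σ ≤ 2 * σ.real {z | b z ≠ 0} + 2 * τ ^ 2 := by
    have h1 : ∫ z, (q z).im ^ 2 ∂σ
        ≤ ∫ z, (2 * (indicator {z | b z ≠ 0} (fun _ => (1:ℝ)) z) + 2 * τ ^ 2) ∂σ := by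
      refine integral_mono_ae (integrable_cont (by fun_prop))
        ((((integrable_const _).indicator hSm).const_mul 2).add (integrable_const _)) ?_
      filter_upwards [ae_norm] with z hz
      have h2 := hqb z hz
      by_cases hbz : b z = 0
      · rw [indicator_of_notMem (by simpa using hbz)]
        rw [hbz, sub_zero] at h2
        nlinarith [sq_abs (q z).im, abs_nonneg (q z).im]
      · rw [indicator_of_mem (by simpa using hbz)]
        have h3 := abs_le.1 h2
        have h4 := hb0 z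
        have h5 := hb1 z
        nlinarith [sq_nonneg ((q z).im - 2 * b z), sq_nonneg (b z)]
    rw [integral_add (((integrable_const _).indicator hSm).const_mul 2) (integrable_const _),
      integral_const_mul, integral_indicator hSm, setIntegral_const] at h1
    simpa using h1
  have hre := re_sq_le hq hre0
  refine ⟨q, hq, hq0, hqb, by linarith, ?_, ?_⟩
  · have h1 : ∀ z, ‖q z‖ ^ 2 = (q z).re ^ 2 + (q z).im ^ 2 := by
      intro z; rw [Complex.sq_norm, Complex.normSq_apply]; ring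
    rw [integral_congr_ae (Eventually.of_forall h1),
      integral_add (integrable_cont (by fun_prop)) (integrable_cont (by fun_prop))]
    linarith
  · have h4 := mean_entire_re (G := fun z => q z ^ 4) (by fun_prop)
    have e4 : ∀ z, ((q z) ^ 4).re
        = (q z).re ^ 4 - 6 * (q z).re ^ 2 * (q z).im ^ 2 + (q z).im ^ 4 := by
      intro z
      simp [pow_succ]
      ring
    have e2 : ∀ z, ((q z) ^ 2).re = (q z).re ^ 2 - (q z).im ^ 2 := by
      intro z; simp [sq]
    have h5 : ((q 0) ^ 4).re ≤ 1 := by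
      rw [e4, hre0, hq0]
      simp
      exact pow_le_one₀ hη0 hη1
    have h6 : ∫ z, (((q z) ^ 2).re + η ^ 2) ^ 2 ∂σ ≤ ∫ z, (8 * ((q z) ^ 4).re + 2242) ∂σ := by
      refine integral_mono_ae (integrable_cont ?_) (integrable_cont ?_) ?_
      · fun_prop
      · fun_prop
      · filter_upwards [ae_norm] with z hz
        rw [e4, e2]
        have h7 : |(q z).im| ≤ 2 := by
          have := abs_le.1 (hqb z hz)
          have h0 := hb0 z
          have h1 := hb1 z
          rw [abs_le]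
          constructor <;> linarith
        have h8 : (q z).im ^ 2 ≤ 4 := by
          nlinarith [sq_abs (q z).im, abs_nonneg (q z).im]
        have h9 : (q z).im ^ 4 ≤ 16 := by nlinarith [sq_nonneg ((q z).im ^ 2)]
        have h10 : η ^ 4 ≤ 1 := pow_le_one₀ hη0 hη1
        set x := (q z).re ^ 2
        set y := (q z).im ^ 2 with hy
        have hy4 : (q z).im ^ 4 = y ^ 2 := by rw [hy]; ring
        have hx4 : (q z).re ^ 4 = x ^ 2 := by
          change _ = ((q z).re ^ 2) ^ 2; ring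
        rw [hy4] at h9 ⊢
        rw [hx4]
        have hη4 : η ^ 4 = (η ^ 2) ^ 2 := by ring
        rw [hη4] at h10
        have hx0 : 0 ≤ x := sq_nonneg _
        have hy0 : 0 ≤ y := sq_nonneg _
        have : (x - y + η ^ 2) ^ 2 ≤ 2 * (x - y) ^ 2 + 2 * (η ^ 2) ^ 2 := by
          nlinarith [sq_nonneg (x - y - η ^ 2)]
        nlinarith [sq_nonneg (x - 6 * y), mul_nonneg hx0 hy0]
    rw [integral_add (integrable_cont (by fun_prop)) (integrable_const _), integral_const_mul,
      h4] at h6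
    simp at h6
    linarith

end H93.PR
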