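import Pool.Agent.H93.PR.Defs
import Pool.Agent.H93.PR.Disc
import Pool.Agent.H93.PR.Local

/-!
# From the local estimate to pluriregularity
-/

open MeasureTheory Set Filter Topology

namespace H93.PR

variable {n : ℕ}

/-- Nonnegative real valued functions of the Lelong class. -/
structure RL (u : Cn n → ℝ) : Prop where
  usc : UpperSemicontinuous u
  nonneg : ∀ z, 0 ≤ u z
  sub : ∀ z w, u z ≤ ∫ t, u (z + t • w) ∂σ
  growth : ∃ C, ∀ z, u z ≤ Real.log (1 + ‖z‖) + C

lemma RL.int {u : Cn n → ℝ} (hu : RL u) {g : ℂ → Cn n} (hg : Continuous g) :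
    Integrable (fun t => u (g t)) σ :=
  integrable_usc (usc_comp hu.usc hg) (b := 0) fun t => hu.nonneg _

lemma RL.disc {u : Cn n → ℝ} (hu : RL u) {f : ℂ → Cn n} (hf : Differentiable ℂ f) :
    u (f 0) ≤ ∫ t, u (f t) ∂σ :=
  disc_submean hu.usc hu.nonneg hu.sub hf

lemma log_add_le {a b : ℝ} (ha : 0 ≤ a) (hb : 0 ≤ b) :
    Real.log (1 + (a + b)) ≤ Real.log (1 + a) + Real.log (1 + b) := by
  rw [← Real.log_mul (by positivity) (by positivity)]
  exact Real.log_le_log (by positivity) (by nlinarith [mul_nonneg ha hb])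

/-- translation, subtraction of a constant and truncation -/
lemma RL.shift {u : Cn n → ℝ} (hu : RL u) (a : Cn n) {ε : ℝ} (hε : 0 ≤ ε) :
    RL (fun z => max (u (z + a) - ε) 0) := by
  have hc : Continuous fun z : Cn n => z + a := by fun_prop
  refine ⟨?_, fun z => le_max_right _ _, fun z w => ?_, ?_⟩
  · have h1 := usc_comp hu.usc hc
    have hm : Monotone fun x : ℝ => max (x - ε) 0 := fun x y hxy =>
      max_le_max (by linarith) le_rfl
    exact Continuous.comp_upperSemicontinuous (g := fun x : ℝ => max (x - ε) 0)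
      (by fun_prop) h1 hm
  · have hi : Integrable (fun t : ℂ => u (z + t • w + a)) σ :=
      hu.int (g := fun t : ℂ => z + t • w + a) (by fun_prop)
    have hi2 : Integrable (fun t : ℂ => max (u (z + t • w + a) - ε) 0) σ :=
      (hi.sub (integrable_const ε)).sup (integrable_const 0)
    refine max_le ?_ (integral_nonneg fun t => le_max_right _ _)
    have h1 := hu.sub (z + a) w
    have h2 : ∫ t, u (z + a + t • w) ∂σ = ∫ t : ℂ, u (z + t • w + a) ∂σ := by
      congr 1; funext t; congr 1; abel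
    rw [h2] at h1
    have h3 : ∫ t : ℂ, (u (z + t • w + a) - ε) ∂σ ≤ ∫ t : ℂ, max (u (z + t • w + a) - ε) 0 ∂σ :=
      integral_mono (hi.sub (integrable_const ε)) hi2 fun t => le_max_left _ _
    rw [integral_sub hi (integrable_const ε)] at h3
    simp at h3
    linarith
  · obtain ⟨C, hC⟩ := hu.growth
    refine ⟨|C| + Real.log (1 + ‖a‖), fun z => ?_⟩
    have h0 : 0 ≤ Real.log (1 + ‖z‖) := Real.log_nonneg (by linarith [norm_nonneg z])
    have h0' : 0 ≤ Real.log (1 + ‖a‖) := Real.log_nonneg (by linarith [norm_nonneg a])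
    refine max_le ?_ (by positivity)
    have h1 := hC (z + a)
    have h2 : Real.log (1 + ‖z + a‖) ≤ Real.log (1 + (‖z‖ + ‖a‖)) :=
      Real.log_le_log (by positivity) (by linarith [norm_add_le z a])
    have h3 := log_add_le (norm_nonneg z) (norm_nonneg a)
    have h4 := le_abs_self C
    linarith

/-- `DPSH` after an affine change of variables. -/
lemma RL.dpsh {u : Cn n → ℝ} (hu : RL u) (p : Cn n) (A : (Fin n → ℂ) →L[ℂ] Cn n) :
    DPSH (fun z => u (p + A z)) := by
  refine ⟨usc_comp hu.usc (by fun_prop), ⟨0, fun z => hu.nonneg _⟩, fun f hf => ?_⟩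
  exact hu.disc (f := fun t => p + A (f t)) (by fun_prop)

lemma RL.dpsh_growth {u : Cn n → ℝ} (hu : RL u) (p : Cn n) (A : (Fin n → ℂ) →L[ℂ] Cn n) :
    ∃ C, ∀ z, u (p + A z) ≤ Real.log (1 + ‖z‖) + C := by
  obtain ⟨C, hC⟩ := hu.growth
  refine ⟨C + Real.log (1 + ‖p‖) + Real.log (1 + ‖A‖), fun z => ?_⟩
  have h1 := hC (p + A z)
  have h2 : Real.log (1 + ‖p + A z‖) ≤ Real.log (1 + (‖p‖ + ‖A‖ * ‖z‖)) :=
    Real.log_le_log (by positivity) (by
      have := norm_add_le p (A z)
      have := A.le_opNorm z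
      linarith)
  have h3 := log_add_le (norm_nonneg p) (show 0 ≤ ‖A‖ * ‖z‖ by positivity)
  have h4 : Real.log (1 + ‖A‖ * ‖z‖) ≤ Real.log (1 + ‖A‖) + Real.log (1 + ‖z‖) := by
    rw [← Real.log_mul (by positivity) (by positivity)]
    exact Real.log_le_log (by positivity) (by nlinarith [norm_nonneg A, norm_nonneg z])
  linarith

/-- growth around a point -/
lemma RL.growth_at {u : Cn n → ℝ} (hu : RL u) {p : Cn n} {r s : ℝ} (hr : 0 < r)
    (hs : ∀ z, ‖z - p‖ ≤ r → u z ≤ s) (z : Cn n) (hz : r ≤ ‖z - p‖) :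
    u z ≤ s + Real.log (‖z - p‖ / r) := by
  have hd : DPSH (fun z => u (p + z)) := by
    refine ⟨usc_comp hu.usc (by fun_prop), ⟨0, fun z => hu.nonneg _⟩, fun f hf => ?_⟩
    exact hu.disc (f := fun t => p + f t) (by fun_prop)
  obtain ⟨C, hC⟩ := hu.growth
  have := H93.PR.growth hd (C := C + Real.log (1 + ‖p‖)) (fun z => ?_) hr (s := s) (fun z hz => ?_)
    (z₀ := z - p) hz
  · simpa using this
  · have h1 := hC (p + z)
    have h2 : Real.log (1 + ‖p + z‖) ≤ Real.log (1 + (‖p‖ + ‖z‖)) :=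
      Real.log_le_log (by positivity) (by linarith [norm_add_le p z])
    have h3 := log_add_le (norm_nonneg p) (norm_nonneg z)
    linarith
  · exact hs _ (by simpa using hz)

/-- Local regularity of `E` at `p`. -/
def Loc (E : Set (Cn n)) (p : Cn n) : Prop :=
  ∀ ε : ℝ, 0 < ε → ∃ r : ℝ, 0 < r ∧ ∀ u : Cn n → ℝ, RL u → (∀ x ∈ E, u x ≤ 0) →
    ∀ z, ‖z - p‖ ≤ r → u z ≤ ε

lemma loc_unif {E : Set (Cn n)} (hE : IsCompact E) (hL : ∀ p ∈ E, Loc E p) {ε : ℝ}
    (hε : 0 < ε) : ∃ r : ℝ, 0 < r ∧ ∀ u : Cn n → ℝ, RL u → (∀ x ∈ E, u x ≤ 0) →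
      ∀ x ∈ E, ∀ z, ‖z - x‖ ≤ r → u z ≤ ε := by
  choose! r hr hr' using fun p (hp : p ∈ E) => hL p hp ε hε
  obtain ⟨t, ht⟩ := hE.elim_nhds_subcover' (fun p hp => Metric.ball p (r p / 2))
    (fun p hp => Metric.ball_mem_nhds _ (half_pos (hr p hp)))
  rcases t.eq_empty_or_nonempty with h | h
  · refine ⟨1, one_pos, fun u _ _ x hx => ?_⟩
    subst h
    have := ht hx
    simp at this
  · obtain ⟨p0, hp0, hmin⟩ := t.exists_min_image (fun p => r p / 2) h
    refine ⟨r p0 / 2, half_pos (hr p0 p0.2), fun u hu huE x hx z hz => ?_⟩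
    obtain ⟨p, hp, hxp⟩ := mem_iUnion₂.1 (ht hx)
    have h1 : ‖x - p‖ < r p / 2 := by rwa [← dist_eq_norm]
    have h2 := hmin p hp
    refine hr' p p.2 u hu huE z ?_
    calc ‖z - p‖ = ‖(z - x) + (x - p)‖ := by rw [sub_add_sub_cancel]
      _ ≤ ‖z - x‖ + ‖x - p‖ := norm_add_le _ _
      _ ≤ r p := by linarith

lemma RL.lelong {u : Cn n → ℝ} (hu : RL u) : Lelong (fun z => (u z : EReal)) := by
  refine ⟨⟨?_, fun z => EReal.coe_lt_top _, fun z w k => ?_⟩, ?_⟩
  · exact continuous_coe_real_ereal.comp_upperSemicontinuous hu.usc EReal.coe_strictMono.monotone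
  · have h1 : (fun t : ℂ => (max ((u (z + t • w) : ℝ) : EReal) ((-(k : ℝ) : ℝ) : EReal)).toReal)
        = fun t : ℂ => u (z + t • w) := by
      funext t
      have h2 : ((-(k : ℝ) : ℝ) : EReal) ≤ ((u (z + t • w) : ℝ) : EReal) := by
        rw [EReal.coe_le_coe_iff]
        have := hu.nonneg (z + t • w)
        have : (0:ℝ) ≤ k := Nat.cast_nonneg k
        linarith
      rw [max_eq_left h2, EReal.toReal_coe]
    rw [h1, av_eq (hu.int (g := fun t : ℂ => z + t • w) (by fun_prop)).aestronglyMeasurable,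
      EReal.coe_le_coe_iff]
    exact hu.sub z w
  · obtain ⟨C, hC⟩ := hu.growth
    exact ⟨C, fun z => by rw [EReal.coe_le_coe_iff]; exact hC z⟩

lemma coe_trunc {a : EReal} (ha : a < ⊤) : (((max a 0).toReal : ℝ) : EReal) = max a 0 := by
  refine EReal.coe_toReal ?_ ?_
  · exact (max_lt ha (by exact EReal.coe_lt_top 0)).ne
  · exact (lt_of_lt_of_le (by exact EReal.bot_lt_coe 0) (le_max_right a 0)).ne'

lemma Lelong.rl {u : Cn n → EReal} (hu : Lelong u) : RL (fun z => (max (u z) 0).toReal) := by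
  have hcoe : ∀ z, (((max (u z) 0).toReal : ℝ) : EReal) = max (u z) 0 := fun z =>
    coe_trunc (hu.1.lt_top z)
  have hnn : ∀ z, 0 ≤ (max (u z) 0).toReal := fun z => EReal.toReal_nonneg (le_max_right _ _)
  have husc : UpperSemicontinuous fun z => (max (u z) 0).toReal := by
    intro z a ha
    have h1 : max (u z) 0 < (a : EReal) := by
      rw [← hcoe, EReal.coe_lt_coe_iff]; exact ha
    rw [max_lt_iff] at h1
    filter_upwards [hu.1.usc z a h1.1] with z' hz'
    rw [← EReal.coe_lt_coe_iff, hcoe]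
    exact max_lt hz' h1.2
  refine ⟨husc, hnn, fun z w => ?_, ?_⟩
  · have hint : Integrable (fun t : ℂ => (max (u (z + t • w)) 0).toReal) σ :=
      integrable_usc (usc_comp husc (g := fun t : ℂ => z + t • w) (by fun_prop)) (b := 0)
        fun t => hnn _
    have h1 := hu.1.submean z w 0
    simp only [Nat.cast_zero, neg_zero, EReal.coe_zero] at h1
    rw [av_eq hint.aestronglyMeasurable] at h1
    rw [← EReal.coe_le_coe_iff, hcoe]
    refine max_le h1 ?_
    exact EReal.coe_nonneg.2 (integral_nonneg fun t => hnn _)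
  · obtain ⟨C, hC⟩ := hu.2
    refine ⟨|C|, fun z => ?_⟩
    rw [← EReal.coe_le_coe_iff, hcoe]
    have h0 : 0 ≤ Real.log (1 + ‖z‖) := Real.log_nonneg (by linarith [norm_nonneg z])
    refine max_le ((hC z).trans ?_) ?_
    · rw [EReal.coe_le_coe_iff]
      linarith [le_abs_self C]
    · exact EReal.coe_nonneg.2 (by positivity)

/-- real version of the extremal function -/
noncomputable def WW (E : Set (Cn n)) (z : Cn n) : ℝ :=
  sSup {a : ℝ | ∃ u : Cn n → ℝ, RL u ∧ (∀ x ∈ E, u x ≤ 0) ∧ a = u z}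

lemma rl_zero : RL (fun _ : Cn n => (0:ℝ)) := by
  refine ⟨upperSemicontinuous_const, fun _ => le_rfl, fun z w => by simp, 0, fun z => ?_⟩
  simp only [add_zero]
  exact Real.log_nonneg (by linarith [norm_nonneg z])

section
variable {E : Set (Cn n)} (hE : IsCompact E) (hne : E.Nonempty) (hL : ∀ p ∈ E, Loc E p)
include hE hne hL

omit hE in
lemma ww_bdd (z : Cn n) :
    BddAbove {a : ℝ | ∃ u : Cn n → ℝ, RL u ∧ (∀ x ∈ E, u x ≤ 0) ∧ a = u z} := by
  obtain ⟨p, hp⟩ := hne
  obtain ⟨r, hr, hr'⟩ := hL p hp 1 one_pos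
  refine ⟨max 1 (1 + Real.log (‖z - p‖ / r)), ?_⟩
  rintro _ ⟨u, hu, huE, rfl⟩
  rcases le_or_gt ‖z - p‖ r with h | h
  · exact (hr' u hu huE z h).trans (le_max_left _ _)
  · exact (hu.growth_at hr (hr' u hu huE) z h.le).trans (le_max_right _ _)

omit hE in
lemma le_ww {u : Cn n → ℝ} (hu : RL u) (huE : ∀ x ∈ E, u x ≤ 0) (z : Cn n) : u z ≤ WW E z :=
  le_csSup (ww_bdd hne hL z) ⟨u, hu, huE, rfl⟩

lemma ww_cont : Continuous (WW E) := by
  rw [Metric.continuous_iff]
  intro z ε hε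
  obtain ⟨r, hr, hr'⟩ := loc_unif hE hL (half_pos hε)
  have key : ∀ z a : Cn n, ‖a‖ ≤ r → WW E (z + a) ≤ WW E z + ε / 2 := by
    intro z a ha
    refine csSup_le ⟨_, _, rl_zero, fun _ _ => le_rfl, rfl⟩ ?_
    rintro _ ⟨u, hu, huE, rfl⟩
    have h1 := hu.shift a (half_pos hε).le
    have h2 := le_ww hne hL h1 (fun x hx => ?_) z
    · have := (le_max_left (u (z + a) - ε / 2) 0).trans h2
      linarith
    · have := hr' u hu huE x hx (x + a) (by simpa using ha)
      exact max_le (by linarith) le_rfl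
  refine ⟨r, hr, fun z' hz' => ?_⟩
  rw [dist_eq_norm] at hz'
  have h1 := key z (z' - z) hz'.le
  have h2 := key z' (z - z') (by rw [norm_sub_rev]; exact hz'.le)
  rw [add_sub_cancel] at h1 h2
  rw [Real.dist_eq, abs_lt]
  constructor <;> linarith

omit hE in
lemma v_eq (z : Cn n) : V E z = (WW E z : EReal) := by
  refine le_antisymm ?_ ?_
  · refine sSup_le ?_
    rintro _ ⟨u, hu, huE, rfl⟩
    refine (le_max_left (u z) 0).trans ?_
    rw [← coe_trunc (hu.1.lt_top z), EReal.coe_le_coe_iff]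
    refine le_ww hne hL hu.rl (fun x hx => ?_) z
    rw [max_eq_right (huE x hx)]
    simp
  · have hle : ∀ u : Cn n → ℝ, RL u → (∀ x ∈ E, u x ≤ 0) → (u z : EReal) ≤ V E z := by
      intro u hu huE
      refine le_sSup ⟨_, hu.lelong, fun x hx => ?_, rfl⟩
      exact EReal.coe_nonpos.2 (huE x hx)
    have h0 := hle _ rl_zero (fun _ _ => le_rfl)
    rcases eq_or_ne (V E z) ⊤ with h | h
    · rw [h]; exact le_top
    · have h1 : ((V E z).toReal : EReal) = V E z := by
        refine EReal.coe_toReal h ?_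
        exact (lt_of_lt_of_le (EReal.bot_lt_coe 0) h0).ne'
      rw [← h1, EReal.coe_le_coe_iff]
      refine csSup_le ⟨_, _, rl_zero, fun _ _ => le_rfl, rfl⟩ ?_
      rintro _ ⟨u, hu, huE, rfl⟩
      rw [← EReal.coe_le_coe_iff, h1]
      exact hle u hu huE

/-- Local regularity at all points implies pluriregularity. -/
theorem pluriregular_of_loc : Pluriregular E := by
  refine ⟨WW E, ww_cont hE hne hL, fun z => ?_⟩
  have h1 : V E = fun z => (WW E z : EReal) := by
    funext z; exact v_eq hne hL z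
  unfold Vstar
  rw [h1]
  have h2 : Continuous fun z => (WW E z : EReal) :=
    continuous_coe_real_ereal.comp (ww_cont hE hne hL)
  exact (h2.tendsto z).limsup_eq

end

end H93.PR
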