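import Pool.Agent.H93.PR.Geom

/-!
# Sides of the boundary, and the local data at the points of the closure of a domain
-/

open MeasureTheory Set Filter Topology
open scoped Pointwise

namespace H93.PR

variable {n : ℕ}

lemma exists_slice {S : Set (Cn n)} (hS : Submodule.span ℂ S = ⊤) :
    ∃ (A : (Fin n → ℂ) →L[ℂ] Cn n) (B : Cn n →L[ℂ] (Fin n → ℂ)), (∀ z, A (B z) = z) ∧
      ∃ v : Fin n → Cn n, (∀ i, v i ∈ S) ∧ ∀ x, AR A x = ∑ i, x i • v i := by
  classical
  obtain ⟨b, hbS, hbspan, hbli⟩ := exists_linearIndependent ℂ S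
  let bas : Module.Basis b ℂ (Cn n) := Module.Basis.mk hbli (by
    rw [Subtype.range_coe, hbspan, hS])
  haveI : Finite b := Module.Finite.finite_basis bas
  haveI : Fintype b := Fintype.ofFinite b
  have hcard : Fintype.card b = n := by
    rw [← Module.finrank_eq_card_basis bas]; simp
  let bas' : Module.Basis (Fin n) ℂ (Cn n) := bas.reindex (Fintype.equivFinOfCardEq hcard)
  refine ⟨LinearMap.toContinuousLinearMap bas'.equivFun.symm.toLinearMap,
    LinearMap.toContinuousLinearMap bas'.equivFun.toLinearMap, fun z => ?_, bas', fun i => ?_,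
    fun x => ?_⟩
  · simp
  · simp only [bas', Module.Basis.reindex_apply, bas, Module.Basis.mk_apply]
    exact hbS (Subtype.coe_prop _)
  · rw [AR_apply]
    simp only [LinearMap.coe_toContinuousLinearMap', LinearEquiv.coe_coe,
      Module.Basis.equivFun_symm_apply, rc_apply]
    refine Finset.sum_congr rfl fun i _ => ?_
    exact (Complex.coe_smul (x i) (bas' i))

lemma side {F : Type*} [NormedAddCommGroup F] [NormedSpace ℝ F] {M D O U : Set (Cn n)}
    {Ψ : Cn n → Cn n} (hΨ : HasStrictFDerivAt Ψ (ContinuousLinearMap.id ℝ (Cn n)) 0)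
    {L : Cn n →L[ℝ] F} (hO : IsOpen O) (hD : D = M ∩ O) {r₀ : ℝ} (hr₀ : 0 < r₀)
    (hmem : ∀ y, ‖y‖ < r₀ → L y = 0 → Ψ y ∈ M) (hU : IsOpen U) (h0U : Ψ 0 ∈ U)
    {s : Cn n → ℝ} {s' : Cn n →L[ℝ] ℝ} (hs : HasStrictFDerivAt (fun y => s (Ψ y)) s' 0)
    (hs0 : s (Ψ 0) = 0) (hbd : ∀ z ∈ M ∩ U, s z ≠ 0 → z ∉ closure D \ D)
    {v : Cn n} (hv : s' v = 1) (hLv : L v = 0) :
    ∃ r : ℝ, 0 < r ∧ ∃ w : Cn n, ∀ y, L y = 0 → ‖y‖ < r → 0 < s (Ψ y) →
      (Ψ y ∈ D ↔ Ψ w ∈ D) := by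
  set c : ℝ := 1 / (2 * (‖v‖ + 1)) with hc
  have hc0 : 0 < c := by positivity
  have hcv : c * ‖v‖ ≤ 1 / 2 := by
    rw [hc, one_div, inv_mul_le_iff₀ (by positivity)]; linarith [norm_nonneg v]
  obtain ⟨r₁, hr₁, h1⟩ := strict_ball hs hc0
  obtain ⟨r₂, hr₂, h2⟩ := strict_ball hΨ one_pos
  obtain ⟨r₃, hr₃, h3⟩ := Metric.eventually_nhds_iff.1
    (hΨ.continuousAt.eventually_mem (hU.mem_nhds h0U))
  set R : ℝ := min (min r₀ r₁) (min r₂ r₃) with hR
  have hR0 : 0 < R := lt_min (lt_min hr₀ hr₁) (lt_min hr₂ hr₃)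
  have hRa : R ≤ r₀ := (min_le_left _ _).trans (min_le_left _ _)
  have hRb : R ≤ r₁ := (min_le_left _ _).trans (min_le_right _ _)
  have hRc : R ≤ r₂ := (min_le_right _ _).trans (min_le_left _ _)
  have hRd : R ≤ r₃ := (min_le_right _ _).trans (min_le_right _ _)
  set τ : ℝ := R / (4 * (‖v‖ + 1)) with hτ
  have hτ0 : 0 < τ := by positivity
  have hτv : τ * ‖v‖ ≤ R / 4 := by
    rw [hτ, div_mul_eq_mul_div, div_le_div_iff₀ (by positivity) (by norm_num)]
    nlinarith [norm_nonneg v]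
  set r : ℝ := min (R / 4) (τ / (4 * (‖s'‖ + c))) with hr
  have hr0 : 0 < r := lt_min (by positivity) (by positivity)
  have hra : r ≤ R / 4 := min_le_left _ _
  have hrb : (‖s'‖ + c) * r ≤ τ / 4 := by
    calc (‖s'‖ + c) * r ≤ (‖s'‖ + c) * (τ / (4 * (‖s'‖ + c))) := by
          gcongr; exact min_le_right _ _
      _ = τ / 4 := by field_simp
  have hcont : ContinuousOn Ψ (Metric.ball 0 R) := by
    refine LipschitzOnWith.continuousOn (K := 2) (LipschitzOnWith.of_dist_le_mul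
      fun a ha b hb => ?_)
    rw [mem_ball_zero_iff] at ha hb
    have h4 := h2 a b (ha.trans_le hRc) (hb.trans_le hRc)
    rw [dist_eq_norm, dist_eq_norm]
    have h5 : Ψ a - Ψ b = (Ψ a - Ψ b - (ContinuousLinearMap.id ℝ (Cn n)) (a - b)) + (a - b) := by
      simp
    rw [h5]
    refine (norm_add_le _ _).trans ?_
    refine (add_le_add h4 le_rfl).trans (le_of_eq ?_)
    push_cast
    ring
  -- constancy along segments
  have hseg : ∀ a b : Cn n, (∀ x ∈ segment ℝ a b, L x = 0 ∧ ‖x‖ < R ∧ 0 < s (Ψ x)) →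
      (Ψ a ∈ D ↔ Ψ b ∈ D) := by
    intro a b hab
    have o1 : IsOpen (Metric.ball (0 : Cn n) R ∩ Ψ ⁻¹' O) :=
      hcont.isOpen_inter_preimage Metric.isOpen_ball hO
    have o2 : IsOpen (Metric.ball (0 : Cn n) R ∩ Ψ ⁻¹' (closure D)ᶜ) :=
      hcont.isOpen_inter_preimage Metric.isOpen_ball isClosed_closure.isOpen_compl
    have hx : ∀ x ∈ segment ℝ a b, Ψ x ∈ M ∧ (Ψ x ∈ D ∨ Ψ x ∉ closure D) := by
      intro x hx
      obtain ⟨x1, x2, x3⟩ := hab x hx
      have hM : Ψ x ∈ M := hmem x (x2.trans_le hRa) x1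
      have hUx : Ψ x ∈ U := h3 (by rw [dist_zero_right]; exact x2.trans_le hRd)
      refine ⟨hM, ?_⟩
      have h4 := hbd _ ⟨hM, hUx⟩ x3.ne'
      by_cases h5 : Ψ x ∈ D
      · exact Or.inl h5
      · exact Or.inr fun h6 => h4 ⟨h6, h5⟩
    have hpre : IsPreconnected (segment ℝ a b) := (convex_segment a b).isPreconnected
    have hor := isPreconnected_iff_subset_of_disjoint.1 hpre _ _ o1 o2 (fun x hxs => by
        have hb : x ∈ Metric.ball (0 : Cn n) R := by
          rw [mem_ball_zero_iff]; exact (hab x hxs).2.1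
        rcases (hx x hxs).2 with h5 | h5
        · left; refine ⟨hb, ?_⟩
          rw [hD] at h5; exact h5.2
        · right; exact ⟨hb, h5⟩) (by
        rw [Set.eq_empty_iff_forall_notMem]
        rintro x ⟨hxs, ⟨-, h5⟩, ⟨-, h6⟩⟩
        exact h6 (subset_closure (by rw [hD]; exact ⟨(hx x hxs).1, h5⟩)))
    rcases hor with h5 | h5
    · have : ∀ x ∈ segment ℝ a b, Ψ x ∈ D := fun x hxs => by
        rw [hD]; exact ⟨(hx x hxs).1, (h5 hxs).2⟩
      exact iff_of_true (this a (left_mem_segment ℝ a b)) (this b (right_mem_segment ℝ a b))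
    · have : ∀ x ∈ segment ℝ a b, Ψ x ∉ D := fun x hxs h6 =>
        (h5 hxs).2 (subset_closure h6)
      exact iff_of_false (this a (left_mem_segment ℝ a b)) (this b (right_mem_segment ℝ a b))
  refine ⟨r, hr0, τ • v, fun y hLy hy hσ => ?_⟩
  rw [hseg y (y + τ • v), hseg (y + τ • v) (τ • v)]
  · -- second segment
    intro x hx
    rw [segment_symm, segment_eq_image'] at hx
    obtain ⟨θ, ⟨hθ0, hθ1⟩, rfl⟩ := hx
    have e1 : τ • v + θ • (y + τ • v - τ • v) = θ • y + τ • v := by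
      rw [add_sub_cancel_right, add_comm]
    simp only
    rw [e1]
    have n1 : ‖θ • y‖ ≤ r := by
      rw [norm_smul, Real.norm_of_nonneg hθ0]
      calc θ * ‖y‖ ≤ 1 * r := by gcongr
        _ = r := one_mul _
    have n2 : ‖τ • v‖ ≤ R / 4 := by
      rw [norm_smul, Real.norm_of_nonneg hτ0.le]; exact hτv
    have n3 : ‖θ • y + τ • v‖ < R := by
      refine (norm_add_le _ _).trans_lt ?_
      linarith
    refine ⟨by rw [map_add, map_smul, map_smul, hLy, hLv]; simp, n3, ?_⟩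
    have h4 := h1 (θ • y + τ • v) 0 (n3.trans_le hRb) (by rw [norm_zero]; exact hr₁)
    simp only [hs0, sub_zero] at h4
    rw [Real.norm_eq_abs, abs_le] at h4
    have h5 : s' (θ • y + τ • v) = s' (θ • y) + τ := by
      rw [map_add, map_smul s' τ, hv, smul_eq_mul, mul_one]
    have h6 : |s' (θ • y)| ≤ ‖s'‖ * r := by
      refine (s'.le_opNorm _).trans ?_
      gcongr
    have h7 : c * ‖θ • y + τ • v‖ ≤ c * r + τ / 2 := by
      calc c * ‖θ • y + τ • v‖ ≤ c * (‖θ • y‖ + ‖τ • v‖) := by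
            gcongr; exact norm_add_le _ _
        _ ≤ c * (r + τ * ‖v‖) := by
            gcongr
            rw [norm_smul, Real.norm_of_nonneg hτ0.le]
        _ = c * r + τ * (c * ‖v‖) := by ring
        _ ≤ c * r + τ * (1 / 2) := by gcongr
        _ = c * r + τ / 2 := by ring
    have h8 := (abs_le.1 h6).1
    have h9 : (‖s'‖ + c) * r = ‖s'‖ * r + c * r := by ring
    linarith [h4.1]
  · -- first segment
    intro x hx
    rw [segment_eq_image'] at hx
    obtain ⟨θ, ⟨hθ0, hθ1⟩, rfl⟩ := hx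
    have e1 : y + θ • (y + τ • v - y) = y + (θ * τ) • v := by
      rw [add_sub_cancel_left, smul_smul]
    simp only
    rw [e1]
    have hθτ0 : 0 ≤ θ * τ := by positivity
    have n2 : ‖(θ * τ) • v‖ ≤ R / 4 := by
      rw [norm_smul, Real.norm_of_nonneg hθτ0]
      calc θ * τ * ‖v‖ ≤ 1 * τ * ‖v‖ := by gcongr
        _ = τ * ‖v‖ := by ring
        _ ≤ R / 4 := hτv
    have n3 : ‖y + (θ * τ) • v‖ < R := by
      refine (norm_add_le _ _).trans_lt ?_
      linarith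
    refine ⟨by rw [map_add, map_smul, hLy, hLv]; simp, n3, ?_⟩
    have h4 := h1 (y + (θ * τ) • v) y (n3.trans_le hRb) (by linarith)
    rw [add_sub_cancel_left, map_smul, hv, smul_eq_mul, mul_one, norm_smul,
      Real.norm_of_nonneg hθτ0, Real.norm_eq_abs, abs_le] at h4
    have h5 : c * (θ * τ * ‖v‖) ≤ θ * τ * (1 / 2) := by
      calc c * (θ * τ * ‖v‖) = θ * τ * (c * ‖v‖) := by ring
        _ ≤ θ * τ * (1 / 2) := by gcongr
    linarith [h4.1]

lemma pow_pos_sq' {x : ℝ} (hx : x ≠ 0) : 0 < x ^ 2 := by positivity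

/-- A half space cone lies on the positive side. -/
lemma final_cone {F : Type*} [NormedAddCommGroup F] [NormedSpace ℝ F] {D : Set (Cn n)}
    {Ψ : Cn n → Cn n} {L : Cn n →L[ℝ] F} (A : (Fin n → ℂ) →L[ℂ] Cn n)
    (hker : ∀ x, L (AR A x) = 0) {t : Cn n → ℝ} {t' : Cn n →L[ℝ] ℝ}
    (ht : HasStrictFDerivAt t t' 0) (ht0 : t 0 = 0) {r : ℝ} (hr : 0 < r)
    (hD : ∀ y, L y = 0 → ‖y‖ < r → 0 < t y → Ψ y ∈ D) {e : Fin n → ℝ} (he : 0 < t' (AR A e)) :
    ∃ c r₀ : ℝ, 0 < c ∧ 0 < r₀ ∧ ∀ ρ : ℝ, 0 < ρ → ρ ≤ r₀ → ∀ x, ‖x - ρ • e‖ ≤ c * ρ →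
      Ψ (AR A x) ∈ D ∧ ‖AR A x‖ < r := by
  set a : ℝ := t' (AR A e) with ha
  set K : ℝ := (‖AR A‖ + 1) * (‖e‖ + 1) with hK
  have hK0 : 0 < K := by positivity
  obtain ⟨r₁, hr₁, h1⟩ := strict_ball ht (show 0 < a / (4 * K) by positivity)
  set c : ℝ := min 1 (a / (4 * (‖t'‖ + 1) * (‖AR A‖ + 1))) with hc
  have hc0 : 0 < c := lt_min one_pos (by positivity)
  have hc1 : c ≤ 1 := min_le_left _ _
  have hc2 : (‖t'‖ + 1) * ((‖AR A‖ + 1) * c) ≤ a / 4 := by
    calc (‖t'‖ + 1) * ((‖AR A‖ + 1) * c)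
        ≤ (‖t'‖ + 1) * ((‖AR A‖ + 1) * (a / (4 * (‖t'‖ + 1) * (‖AR A‖ + 1)))) := by
          gcongr; exact min_le_right _ _
      _ = a / 4 := by field_simp
  refine ⟨c, min r r₁ / (2 * K), hc0, by positivity, fun ρ hρ hρ' x hx => ?_⟩
  have hxn : ‖x‖ ≤ (‖e‖ + 1) * ρ := by
    calc ‖x‖ = ‖(x - ρ • e) + ρ • e‖ := by rw [sub_add_cancel]
      _ ≤ ‖x - ρ • e‖ + ‖ρ • e‖ := norm_add_le _ _
      _ ≤ 1 * ρ + ρ * ‖e‖ := by
          rw [norm_smul, Real.norm_of_nonneg hρ.le]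
          gcongr
          exact hx.trans (by gcongr)
      _ = (‖e‖ + 1) * ρ := by ring
  have hy : ‖AR A x‖ ≤ K * ρ := by
    calc ‖AR A x‖ ≤ ‖AR A‖ * ‖x‖ := (AR A).le_opNorm x
      _ ≤ (‖AR A‖ + 1) * ((‖e‖ + 1) * ρ) := by gcongr; linarith
      _ = K * ρ := by rw [hK]; ring
  have hy2 : K * ρ ≤ min r r₁ / 2 := by
    calc K * ρ ≤ K * (min r r₁ / (2 * K)) := by gcongr
      _ = min r r₁ / 2 := by field_simp
  have hmin : 0 < min r r₁ := lt_min hr hr₁
  have hyr : ‖AR A x‖ < r := by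
    have := min_le_left r r₁
    linarith
  have hyr1 : ‖AR A x‖ < r₁ := by
    have := min_le_right r r₁
    linarith
  refine ⟨hD _ (hker x) hyr ?_, hyr⟩
  have h2 := h1 (AR A x) 0 hyr1 (by rw [norm_zero]; exact hr₁)
  rw [ht0, sub_zero, sub_zero, Real.norm_eq_abs, abs_le] at h2
  have h3 : t' (AR A x) = ρ * a + t' (AR A (x - ρ • e)) := by
    rw [map_sub, map_sub, map_smul, map_smul, smul_eq_mul, ← ha]; ring
  have h4 : |t' (AR A (x - ρ • e))| ≤ ρ * (a / 4) := by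
    calc |t' (AR A (x - ρ • e))| ≤ ‖t'‖ * ‖AR A (x - ρ • e)‖ := t'.le_opNorm _
      _ ≤ ‖t'‖ * (‖AR A‖ * ‖x - ρ • e‖) := by gcongr; exact (AR A).le_opNorm _
      _ ≤ (‖t'‖ + 1) * ((‖AR A‖ + 1) * (c * ρ)) := by gcongr <;> linarith
      _ = ρ * ((‖t'‖ + 1) * ((‖AR A‖ + 1) * c)) := by ring
      _ ≤ ρ * (a / 4) := by gcongr
  have h5 : a / (4 * K) * ‖AR A x‖ ≤ ρ * (a / 4) := by
    calc a / (4 * K) * ‖AR A x‖ ≤ a / (4 * K) * (K * ρ) := by gcongr
      _ = ρ * (a / 4) := by field_simp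
  have h6 := (abs_le.1 h4).1
  have h7 : 0 < ρ * a := by positivity
  linarith [h2.1]

/-- Every point of the closure of a domain with `C¹` boundary in a generic `C¹` manifold carries
local data. -/
theorem locData_of_domain {M D : Set (Cn n)} (hM : IsSubmanifold 1 M) (hG : IsGeneric M)
    (hD : IsDomainC1 M D) {p : Cn n} (hp : p ∈ closure D) : LocData (closure D) p := by
  have hpM : p ∈ M := hD.subset hp
  obtain ⟨m, U, ρ, hU, hpU, hρ, hsurj, hMU⟩ := hM p hpM
  have hρ1 : ContDiffOn ℝ 1 ρ U := by exact_mod_cast hρ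
  obtain ⟨O, hO, hDO⟩ := hD.relOpen
  set L := fderiv ℝ ρ p with hL
  have hρd : DifferentiableAt ℝ ρ p :=
    (hρ1.contDiffAt (hU.mem_nhds hpU)).differentiableAt (by norm_num)
  have hρz : ∀ z ∈ M ∩ U, ρ z = 0 := by
    intro z hz
    rw [hMU] at hz
    exact hz.2
  have hT : ∀ v ∈ tangentConeAt ℝ M p, L v = 0 := fun v hv =>
    tangent_ker hU hpU hρd hρz (hρz p ⟨hpM, hpU⟩) hv
  by_cases hpD : p ∈ D
  · -- interior points
    have hspan : Submodule.span ℂ {v : Cn n | L v = 0} = ⊤ := by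
      rw [eq_top_iff]
      intro v _
      obtain ⟨a, ha, b, hb, rfl⟩ := hG p hpM v
      exact Submodule.add_mem _ (Submodule.subset_span (hT a ha))
        (Submodule.smul_mem _ _ (Submodule.subset_span (hT b hb)))
    obtain ⟨A, B, hAB, v, hv, hAR⟩ := exists_slice hspan
    have hker : ∀ x, L (AR A x) = 0 := by
      intro x
      rw [hAR, map_sum]
      refine Finset.sum_eq_zero fun i _ => ?_
      rw [map_smul, hv i, smul_zero]
    obtain ⟨Ψ, Φ, h, r, hr, hΨ0, hΨs, hmem, -, -, -, hgraph, h0, hlip⟩ :=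
      exists_chart hU hpU hρ1 hsurj hMU hpM A B hAB hker
    have hpO : p ∈ O := by rw [hDO] at hpD; exact hpD.2
    obtain ⟨r', hr', hr''⟩ := Metric.eventually_nhds_iff.1
      (hΨs.continuousAt.eventually_mem (by rw [hΨ0]; exact hO.mem_nhds hpO))
    refine ⟨A, B, hAB, 0, 1, h, min r r' / (2 * (‖AR A‖ + 1)), one_pos, h0, hlip,
      by positivity, fun ρ hρ hρ' x hx => ?_⟩
    have hxn : ‖AR A x‖ ≤ min r r' / 2 := by
      rw [smul_zero, sub_zero, one_mul] at hx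
      calc ‖AR A x‖ ≤ ‖AR A‖ * ‖x‖ := (AR A).le_opNorm x
        _ ≤ (‖AR A‖ + 1) * (min r r' / (2 * (‖AR A‖ + 1))) := by
            gcongr
            · linarith
            · exact hx.trans hρ'
        _ = min r r' / 2 := by field_simp
    have hmin : 0 < min r r' := lt_min hr hr'
    have hx1 : ‖AR A x‖ < r := by
      have := min_le_left r r'
      linarith
    have hx2 : ‖AR A x‖ < r' := by
      have := min_le_right r r'
      linarith
    rw [← hgraph x hx1]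
    refine subset_closure ?_
    rw [hDO]
    exact ⟨hmem _ hx1 (hker x), hr'' (by rwa [dist_zero_right])⟩
  · -- boundary points
    obtain ⟨W, s, hW, hpW, hs, ⟨v₀, hv₀, hsv₀⟩, hbd⟩ := hD.boundary p ⟨hp, hpD⟩
    set s' := fderiv ℝ s p with hs'
    have hss : HasStrictFDerivAt s s' p :=
      (hs.contDiffAt (hW.mem_nhds hpW)).hasStrictFDerivAt (by norm_num)
    have hLv₀ : L v₀ = 0 := hT v₀ hv₀
    have hspan : Submodule.span ℂ {v : Cn n | L v = 0 ∧ s' v ≠ 0} = ⊤ := by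
      have hsub : ∀ v : Cn n, L v = 0 →
          v ∈ Submodule.span ℂ {v : Cn n | L v = 0 ∧ s' v ≠ 0} := by
        intro v hv
        by_cases h1 : s' v = 0
        · have e1 : v = (v + v₀) - v₀ := by rw [add_sub_cancel_right]
          rw [e1]
          refine Submodule.sub_mem _ (Submodule.subset_span ⟨?_, ?_⟩)
            (Submodule.subset_span ⟨hLv₀, hsv₀⟩)
          · rw [map_add, hv, hLv₀, add_zero]
          · rw [map_add, h1, zero_add]; exact hsv₀
        · exact Submodule.subset_span ⟨hv, h1⟩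
      rw [eq_top_iff]
      intro v _
      obtain ⟨a, ha, b, hb, rfl⟩ := hG p hpM v
      exact Submodule.add_mem _ (hsub a (hT a ha)) (Submodule.smul_mem _ _ (hsub b (hT b hb)))
    obtain ⟨A, B, hAB, v, hv, hAR⟩ := exists_slice hspan
    have hker : ∀ x, L (AR A x) = 0 := by
      intro x
      rw [hAR, map_sum]
      refine Finset.sum_eq_zero fun i _ => ?_
      rw [map_smul, (hv i).1, smul_zero]
    obtain ⟨Ψ, Φ, h, r, hr, hΨ0, hΨs, hmem, hΦc, hΦp, hinv, hgraph, h0, hlip⟩ :=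
      exists_chart hU hpU hρ1 hsurj hMU hpM A B hAB hker
    have hsp : s p = 0 := by
      have : p ∈ {z ∈ M ∩ W | s z = 0} := by rw [← hbd]; exact ⟨⟨hp, hpD⟩, hpW⟩
      exact this.2
    have hsΨ : HasStrictFDerivAt (fun y => s (Ψ y)) s' 0 := by
      have h1 : HasStrictFDerivAt s s' (Ψ 0) := by rw [hΨ0]; exact hss
      have h2 := h1.comp 0 hΨs
      exact h2
    have hsΨ0 : s (Ψ 0) = 0 := by rw [hΨ0]; exact hsp
    have hbd1 : ∀ z ∈ M ∩ W, s z ≠ 0 → z ∉ closure D \ D := by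
      intro z hz hsz hzD
      have : z ∈ (closure D \ D) ∩ W := ⟨hzD, hz.2⟩
      rw [hbd] at this
      exact hsz this.2
    -- normalised transversal vector
    set v₁ : Cn n := (s' v₀)⁻¹ • v₀ with hv₁
    have hsv₁ : s' v₁ = 1 := by
      rw [hv₁, map_smul, smul_eq_mul, inv_mul_cancel₀ hsv₀]
    have hLv₁ : L v₁ = 0 := by rw [hv₁, map_smul, hLv₀, smul_zero]
    obtain ⟨ra, hra, wa, hwa⟩ := side hΨs hO hDO hr hmem hW (by rw [hΨ0]; exact hpW) hsΨ hsΨ0 hbd1
      hsv₁ hLv₁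
    obtain ⟨rb, hrb, wb, hwb⟩ := side (s := fun z => - s z) (s' := -s') (v := -v₁) hΨs hO hDO hr
      hmem hW (by rw [hΨ0]; exact hpW) hsΨ.neg (by simp [hsΨ0])
      (fun z hz hsz => hbd1 z hz (by simpa using hsz))
      (by simp [hsv₁]) (by rw [map_neg, hLv₁, neg_zero])
    -- a point of D close to p
    obtain ⟨z, hzD, hz1, hz2, hz3⟩ : ∃ z, z ∈ D ∧ (z ∈ M → L (Φ z) = 0 ∧ Ψ (Φ z) = z) ∧
        ‖Φ z‖ < min ra rb ∧ z ∈ W := by
      have h1 : ∃ᶠ z in 𝓝 p, z ∈ D := mem_closure_iff_frequently.1 hp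
      have h2 : ∀ᶠ z in 𝓝 p, ‖Φ z‖ < min ra rb := by
        have h3 : Tendsto (fun z => ‖Φ z‖) (𝓝 p) (𝓝 0) := by
          have := hΦc.norm.tendsto
          rwa [hΦp, norm_zero] at this
        exact h3.eventually_lt_const (lt_min hra hrb)
      obtain ⟨z, hz⟩ := (h1.and_eventually (hinv.and (h2.and (hW.mem_nhds hpW)))).exists
      exact ⟨z, hz.1, hz.2.1, hz.2.2.1, hz.2.2.2⟩
    have hzM : z ∈ M := hD.subset (subset_closure hzD)
    obtain ⟨hy1, hy2⟩ := hz1 hzM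
    have hsz : s z ≠ 0 := by
      intro h1
      have : z ∈ (closure D \ D) ∩ W := by rw [hbd]; exact ⟨⟨hzM, hz3⟩, h1⟩
      exact this.1.2 hzD
    -- index with non zero derivative
    have hne : ∃ i : Fin n, True := by
      by_contra hcon
      push Not at hcon
      have : v₀ = 0 := by
        ext i
        exact (hcon i).elim
      rw [this, map_zero] at hsv₀
      exact hsv₀ rfl
    obtain ⟨i, -⟩ := hne
    have hARi : AR A (Pi.single i 1) = v i := by
      rw [hAR, Finset.sum_eq_single i]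
      · simp
      · intro j _ hj
        rw [Pi.single_eq_of_ne hj, zero_smul]
      · intro h1; exact absurd (Finset.mem_univ i) h1
    -- a sign
    have key : ∀ ε : ℝ, (ε = 1 ∨ ε = -1) → (∃ r₁ : ℝ, 0 < r₁ ∧ ∀ y, L y = 0 → ‖y‖ < r₁ →
        0 < ε * s (Ψ y) → Ψ y ∈ D) → LocData (closure D) p := by
      rintro ε hε ⟨r₁, hr₁, hside⟩
      set e : Fin n → ℝ := (ε * s' (v i)) • Pi.single i (1:ℝ) with he
      have hε2 : ε * ε = 1 := by rcases hε with rfl | rfl <;> norm_num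
      have ht : HasStrictFDerivAt (fun y => ε * s (Ψ y)) (ε • s') 0 := hsΨ.const_mul ε
      have hpos : 0 < (ε • s') (AR A e) := by
        rw [he, map_smul, hARi, smul_apply, map_smul, smul_eq_mul, smul_eq_mul]
        have h1 : ε * (ε * s' (v i) * s' (v i)) = (ε * ε) * (s' (v i)) ^ 2 := by ring
        rw [h1, hε2, one_mul]
        exact pow_pos_sq' (hv i).2
      obtain ⟨c, r₀, hc, hr₀, hcone⟩ := final_cone (D := D) (Ψ := Ψ) A hker ht
        (by simp [hsΨ0]) (lt_min hr₁ hr) (fun y h1 h2 h3 =>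
          hside y h1 (h2.trans_le (min_le_left _ _)) h3) hpos
      refine ⟨A, B, hAB, e, c, h, r₀, hc, h0, hlip, hr₀, fun ρ h1 h2 x hx => ?_⟩
      obtain ⟨h3, h4⟩ := hcone ρ h1 h2 x hx
      rw [← hgraph x (h4.trans_le (min_le_right _ _))]
      exact subset_closure h3
    rcases lt_or_gt_of_ne hsz with hneg | hpos
    · refine key (-1) (Or.inr rfl) ⟨rb, hrb, fun y h1 h2 h3 => ?_⟩
      have h4 : Ψ wb ∈ D := by
        rw [← hwb (Φ z) hy1 (hz2.trans_le (min_le_right _ _)) (by rw [hy2]; linarith), hy2]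
        exact hzD
      exact (hwb y h1 h2 (by linarith)).2 h4
    · refine key 1 (Or.inl rfl) ⟨ra, hra, fun y h1 h2 h3 => ?_⟩
      have h4 : Ψ wa ∈ D := by
        rw [← hwa (Φ z) hy1 (hz2.trans_le (min_le_left _ _)) (by rw [hy2]; linarith), hy2]
        exact hzD
      exact (hwa y h1 h2 (by linarith)).2 h4

/-- Closures of domains with `C¹` boundary in `C¹` generic manifolds are pluriregular. -/
theorem main {M D : Set (Cn n)} (hM : IsSubmanifold 1 M) (hG : IsGeneric M)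
    (hD : IsDomainC1 M D) : Pluriregular (closure D) :=
  pluriregular_of_loc hD.compact hD.connected.nonempty.closure
    fun _ hp => (locData_of_domain hM hG hD hp).loc

end H93.PR
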